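import Pool.Agent.N595.ST.PairsU

/-!
# Few vertices are bad, and the images of a generic tuple lie in a bounded set
-/

set_option autoImplicit false
set_option linter.unusedSectionVars false

namespace Pool.Agent.N595.ST

open Finset Pool.Agent.N595.RC

open Classical in
/-- The vertices of `V1` whose signature is not unique in `V1`. -/
noncomputable def badU {G : Type} [Group G] [Fintype G] (X : Finset G) (τ : G → G)
    (c : Fin 9 → G) (R : Finset G) : Finset G :=
  {u | u ∈ V1 τ c ∧ ∃ w ∈ V1 τ c, w ≠ u ∧ sigU X τ c u R = sigU X τ c w R}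

theorem bad_fraction (ε η : ℝ) (hε : 0 < ε) (hη : 0 < η) : ∃ N₀ : ℕ,
    ∀ (G : Type) [Group G] [Fintype G] [DecidableEq G] (τ : G → G) (c : Fin 9 → G),
    Generic τ c → N₀ ≤ Fintype.card G → ∀ X : Finset G, #Xᶜ ≤ 1 →
    (#{R : Finset G | η * Fintype.card G ≤ #(badU X τ c R)} : ℝ) ≤
      ε * 2 ^ Fintype.card G := by
  obtain ⟨C, hC, N₁, hpair⟩ := pair_bound
  obtain ⟨N₂, hN₂⟩ := exists_nat_gt ((C / (ε * η)) ^ 2)
  refine ⟨max N₁ (max N₂ 1), ?_⟩
  intro G _ _ _ τ c hgen hN X hX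
  classical
  have hN1 : N₁ ≤ Fintype.card G := (le_max_left _ _).trans hN
  have hN2 : N₂ ≤ Fintype.card G := ((le_max_left _ _).trans (le_max_right _ _)).trans hN
  have hN3 : 1 ≤ Fintype.card G := ((le_max_right _ _).trans (le_max_right _ _)).trans hN
  have hN' : (1 : ℝ) ≤ Fintype.card G := by exact_mod_cast hN3
  have hN0 : (0 : ℝ) < Fintype.card G := by linarith
  have hsN : 0 < Real.sqrt (Fintype.card G) := Real.sqrt_pos.2 hN0
  have hsq : Real.sqrt (Fintype.card G) * Real.sqrt (Fintype.card G) = Fintype.card G :=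
    Real.mul_self_sqrt hN0.le
  -- the expectation
  have h1 : ∀ R : Finset G, (#(badU X τ c R) : ℝ) ≤ ∑ u : G, ∑ w : G,
      if (u ∈ V1 τ c ∧ w ∈ V1 τ c ∧ w ≠ u ∧ sigU X τ c u R = sigU X τ c w R) then (1 : ℝ)
        else 0 := by
    intro R
    have h2 : (#(badU X τ c R) : ℝ) =
        ∑ u : G, if (u ∈ V1 τ c ∧ ∃ w ∈ V1 τ c, w ≠ u ∧ sigU X τ c u R = sigU X τ c w R)
          then (1 : ℝ) else 0 := by
      rw [Finset.sum_boole]
      unfold badU
      congr 3
    rw [h2]
    refine Finset.sum_le_sum fun u _ => ?_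
    split_ifs with h3
    · obtain ⟨h4, w, hw, h5, h6⟩ := h3
      refine le_trans ?_ (Finset.single_le_sum (f := fun w : G =>
          if (u ∈ V1 τ c ∧ w ∈ V1 τ c ∧ w ≠ u ∧ sigU X τ c u R = sigU X τ c w R) then (1 : ℝ)
          else 0) (fun k _ => by positivity) (mem_univ w))
      rw [if_pos ⟨h4, hw, h5, h6⟩]
    · exact Finset.sum_nonneg fun w _ => by positivity
  have h2 : ∀ u w : G, ∑ R : Finset G,
      (if (u ∈ V1 τ c ∧ w ∈ V1 τ c ∧ w ≠ u ∧ sigU X τ c u R = sigU X τ c w R) then (1 : ℝ)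
        else 0) ≤ 2 ^ Fintype.card G * (C / Real.sqrt (Fintype.card G) ^ 3) := by
    intro u w
    rw [Finset.sum_boole]
    by_cases h3 : u ∈ V1 τ c ∧ w ∈ V1 τ c ∧ w ≠ u
    · refine le_trans ?_ (hpair G τ c hgen hN1 X hX u h3.1 w h3.2.1 h3.2.2)
      refine Nat.cast_le.2 (card_le_card fun R hR => ?_)
      rw [mem_filter] at hR ⊢
      exact ⟨mem_univ _, hR.2.2.2.2⟩
    · have h4 : (univ.filter fun R : Finset G =>
          u ∈ V1 τ c ∧ w ∈ V1 τ c ∧ w ≠ u ∧ sigU X τ c u R = sigU X τ c w R) = ∅ := by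
        rw [Finset.filter_eq_empty_iff]
        intro R _ h
        exact h3 ⟨h.1, h.2.1, h.2.2.1⟩
      rw [h4, card_empty, Nat.cast_zero]
      positivity
  have h3 : ∑ R : Finset G, (#(badU X τ c R) : ℝ) ≤
      2 ^ Fintype.card G * (C * Real.sqrt (Fintype.card G)) := by
    calc ∑ R : Finset G, (#(badU X τ c R) : ℝ)
        ≤ ∑ R : Finset G, ∑ u : G, ∑ w : G,
          (if (u ∈ V1 τ c ∧ w ∈ V1 τ c ∧ w ≠ u ∧ sigU X τ c u R = sigU X τ c w R) then (1 : ℝ)
          else 0) := Finset.sum_le_sum fun R _ => h1 R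
      _ = ∑ u : G, ∑ w : G, ∑ R : Finset G,
          (if (u ∈ V1 τ c ∧ w ∈ V1 τ c ∧ w ≠ u ∧ sigU X τ c u R = sigU X τ c w R) then (1 : ℝ)
          else 0) := by
          rw [Finset.sum_comm]
          refine Finset.sum_congr rfl fun u _ => ?_
          rw [Finset.sum_comm]
      _ ≤ ∑ u : G, ∑ w : G, 2 ^ Fintype.card G * (C / Real.sqrt (Fintype.card G) ^ 3) :=
          Finset.sum_le_sum fun u _ => Finset.sum_le_sum fun w _ => h2 u w
      _ = 2 ^ Fintype.card G * (C * ((Fintype.card G : ℝ) * Fintype.card G /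
            Real.sqrt (Fintype.card G) ^ 3)) := by
          simp only [Finset.sum_const, card_univ, nsmul_eq_mul]
          ring
      _ = 2 ^ Fintype.card G * (C * Real.sqrt (Fintype.card G)) := by
          congr 2
          rw [div_eq_iff (by positivity)]
          have h7 : Real.sqrt (Fintype.card G) * Real.sqrt (Fintype.card G) ^ 3 =
              (Real.sqrt (Fintype.card G) * Real.sqrt (Fintype.card G)) *
              (Real.sqrt (Fintype.card G) * Real.sqrt (Fintype.card G)) := by ring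
          rw [h7, hsq]
  have h4 : (#{R : Finset G | η * Fintype.card G ≤ #(badU X τ c R)} : ℝ) *
      (η * Fintype.card G) ≤ ∑ R : Finset G, (#(badU X τ c R) : ℝ) := by
    rw [← nsmul_eq_mul, ← Finset.sum_const]
    refine (Finset.sum_le_sum (f := fun _ => η * (Fintype.card G : ℝ))
      (g := fun R => (#(badU X τ c R) : ℝ)) fun R hR => ?_).trans
      (Finset.sum_le_sum_of_subset_of_nonneg (Finset.filter_subset _ _) fun R _ _ => by
        positivity)
    rw [mem_filter] at hR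
    exact hR.2
  have h5 := h4.trans h3
  have h6 : C / (ε * η) ≤ Real.sqrt (Fintype.card G) := by
    apply Real.le_sqrt_of_sq_le
    have : (N₂ : ℝ) ≤ Fintype.card G := by exact_mod_cast hN2
    linarith
  have h7 : C ≤ ε * η * Real.sqrt (Fintype.card G) := by
    rw [div_le_iff₀ (by positivity)] at h6
    linarith
  have h8 : (#{R : Finset G | η * Fintype.card G ≤ #(badU X τ c R)} : ℝ) *
      (η * Fintype.card G) ≤ ε * 2 ^ Fintype.card G * (η * Fintype.card G) := by
    refine h5.trans ?_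
    calc 2 ^ Fintype.card G * (C * Real.sqrt (Fintype.card G))
        ≤ 2 ^ Fintype.card G * (ε * η * Real.sqrt (Fintype.card G) *
          Real.sqrt (Fintype.card G)) := by
          refine mul_le_mul_of_nonneg_left ?_ (by positivity)
          exact mul_le_mul_of_nonneg_right h7 hsN.le
      _ = ε * 2 ^ Fintype.card G * (η * Fintype.card G) := by
          rw [mul_assoc (ε * η), hsq]
          ring
  exact le_of_mul_le_mul_right h8 (by positivity)

section

variable {G : Type} [Group G] [Fintype G] [DecidableEq G]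

/-- `h₀` is linked with respect to the image `x` of a member of the tuple. -/
def Pop (τ : G → G) (c : Fin 9 → G) (x h₀ : G) : Prop :=
  ∃ (h : G) (i₀ i₁ : Fin 9), τ (c 0 * h) = τ (c i₀ * h₀) ∧ τ (x * h) = τ (c i₁ * h₀)

open Classical in
/-- The popular images. -/
noncomputable def Phi {G : Type} [Group G] [Fintype G] (τ : G → G) (c : Fin 9 → G) : Finset G :=
  {x | Fintype.card G ≤ 2 * #{h₀ : G | Pop τ c x h₀}}

theorem zero_mem_Phi (τ : G → G) (c : Fin 9 → G) : c 0 ∈ Phi τ c := by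
  classical
  unfold Phi
  rw [mem_filter]
  refine ⟨mem_univ _, ?_⟩
  have : (univ.filter fun h₀ : G => Pop τ c (c 0) h₀) = univ := by
    rw [Finset.filter_eq_self]
    intro h₀ _
    exact ⟨h₀, 0, 0, rfl, rfl⟩
  rw [this, card_univ]
  omega

theorem card_Phi {τ : G → G} (hτ : IsTr τ) (c : Fin 9 → G) : #(Phi τ c) ≤ 648 := by
  classical
  have h0 : ∀ h₀ : G, #{x : G | Pop τ c x h₀} ≤ 324 := by
    intro h₀
    have h1 : #{x : G | Pop τ c x h₀} ≤
        ∑ i₀ : Fin 9, ∑ i₁ : Fin 9, ∑ b : Bool, ∑ b' : Bool,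
          #{x : G | x = sgn b' (c i₁ * h₀) * ((c 0)⁻¹ * sgn b (c i₀ * h₀))⁻¹} := by
      simp only [Finset.card_filter]
      simp only [Finset.sum_comm (s := (univ : Finset Bool)) (t := (univ : Finset G)),
        Finset.sum_comm (s := (univ : Finset (Fin 9))) (t := (univ : Finset G))]
      refine Finset.sum_le_sum fun u _ => ?_
      split_ifs with hu
      · obtain ⟨h, i₀, i₁, e1, e2⟩ := hu
        obtain ⟨b, hb⟩ := exists_sgn hτ e1
        obtain ⟨b', hb'⟩ := exists_sgn hτ e2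
        have hcond : u = sgn b' (c i₁ * h₀) * ((c 0)⁻¹ * sgn b (c i₀ * h₀))⁻¹ := by
          rw [← hb, ← hb', inv_mul_cancel_left]
          group
        refine le_trans ?_ (Finset.single_le_sum (f := fun j => _) (fun _ _ => Nat.zero_le _)
          (mem_univ i₀))
        refine le_trans ?_ (Finset.single_le_sum (f := fun j => _) (fun _ _ => Nat.zero_le _)
          (mem_univ i₁))
        refine le_trans ?_ (Finset.single_le_sum (f := fun b => _) (fun _ _ => Nat.zero_le _)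
          (mem_univ b))
        refine le_trans ?_ (Finset.single_le_sum (f := fun b => _) (fun _ _ => Nat.zero_le _)
          (mem_univ b'))
        rw [if_pos hcond]
      · exact Nat.zero_le _
    refine h1.trans ?_
    have h2 : ∀ (i₀ i₁ : Fin 9) (b b' : Bool),
        #{x : G | x = sgn b' (c i₁ * h₀) * ((c 0)⁻¹ * sgn b (c i₀ * h₀))⁻¹} ≤ 1 := by
      intro i₀ i₁ b b'
      rw [Finset.filter_eq']
      split_ifs <;> simp
    refine (Finset.sum_le_sum fun i₀ _ => Finset.sum_le_sum fun i₁ _ => Finset.sum_le_sum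
      fun b _ => Finset.sum_le_sum fun b' _ => h2 i₀ i₁ b b').trans (le_of_eq ?_)
    simp only [Finset.sum_const, card_univ, Fintype.card_fin, Fintype.card_bool, smul_eq_mul]
  have h1 : ∑ x : G, #{h₀ : G | Pop τ c x h₀} ≤ 324 * Fintype.card G := by
    have h2 : ∑ x : G, #{h₀ : G | Pop τ c x h₀} = ∑ h₀ : G, #{x : G | Pop τ c x h₀} := by
      simp only [Finset.card_filter]
      rw [Finset.sum_comm]
    rw [h2]
    refine (Finset.sum_le_sum fun h₀ _ => h0 h₀).trans (le_of_eq ?_)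
    rw [Finset.sum_const, card_univ, smul_eq_mul, mul_comm]
  have h3 : #(Phi τ c) * Fintype.card G ≤ 2 * ∑ x : G, #{h₀ : G | Pop τ c x h₀} := by
    rw [Finset.mul_sum, ← smul_eq_mul, ← Finset.sum_const]
    refine (Finset.sum_le_sum (f := fun _ => Fintype.card G)
      (g := fun x => 2 * #{h₀ : G | Pop τ c x h₀}) fun u hu => ?_).trans
      (Finset.sum_le_sum_of_subset (subset_univ _))
    unfold Phi at hu
    rw [mem_filter] at hu
    convert hu.2
  have hN : 0 < Fintype.card G := Fintype.card_pos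
  have h4 : #(Phi τ c) * Fintype.card G ≤ 648 * Fintype.card G := by
    calc #(Phi τ c) * Fintype.card G ≤ 2 * ∑ x : G, #{h₀ : G | Pop τ c x h₀} := h3
      _ ≤ 2 * (324 * Fintype.card G) := Nat.mul_le_mul_left _ h1
      _ = 648 * Fintype.card G := by ring
  exact Nat.le_of_mul_le_mul_right h4 hN

end

theorem card_le_four' {α : Type*} [Fintype α] [DecidableEq α] (A₁ A₂ A₃ A₄ : Finset α)
    (h : ∀ x, x ∈ A₁ ∨ x ∈ A₂ ∨ x ∈ A₃ ∨ x ∈ A₄) :
    Fintype.card α ≤ #A₁ + (#A₂ + (#A₃ + #A₄)) := by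
  have h1 : (univ : Finset α) ⊆ A₁ ∪ (A₂ ∪ (A₃ ∪ A₄)) := by
    intro x _
    simp only [mem_union]
    exact h x
  have h2 := card_le_card h1
  rw [card_univ] at h2
  refine h2.trans ((card_union_le _ _).trans (Nat.add_le_add_left ?_ _))
  refine (card_union_le _ _).trans (Nat.add_le_add_left ?_ _)
  exact card_union_le _ _

/-- One image tuple which is not popular at `j` is excluded with large probability. -/
theorem orbit_one : ∃ C : ℝ, 0 < C ∧ ∃ N₁ : ℕ, ∀ (G : Type) [Group G] [Fintype G]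
    [DecidableEq G] (τ : G → G) (c : Fin 9 → G), Generic τ c → N₁ ≤ Fintype.card G →
    ∀ X : Finset G, #Xᶜ ≤ 1 → ∀ (c' : Fin 9 → G) (j : Fin 9), c' 0 = c 0 → c' j ∉ Phi τ c →
    (#{R : Finset G | ∀ J : Finset (Fin 9),
      cnt X τ (J.image c) R = cnt X τ (J.image c') R} : ℝ) ≤
      2 ^ Fintype.card G * (C / Real.sqrt (Fintype.card G) ^ 128) := by
  obtain ⟨C, hC, hmain⟩ := lemU 128 18 (1 / 4) (by norm_num)
  refine ⟨C, hC, 10 ^ 9, ?_⟩
  intro G _ _ _ τ c hgen hN X hX c' j hc0 hj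
  classical
  obtain ⟨hτ, -, hZb⟩ := hgen
  rw [Nat.card_eq_fintype_card, Fintype.card_subtype] at hZb
  have hj0 : j ≠ 0 := by
    rintro rfl
    rw [hc0] at hj
    exact hj (zero_mem_Phi τ c)
  obtain ⟨D, hD⟩ : ∃ D : Finset G, D = univ.image c ∪ univ.image c' := ⟨_, rfl⟩
  have hDcard : #D ≤ 18 := by
    rw [hD]
    refine (card_union_le _ _).trans ?_
    have h1 : #(univ.image c) ≤ 9 := by
      refine card_image_le.trans ?_
      simp
    have h2 : #(univ.image c') ≤ 9 := by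
      refine card_image_le.trans ?_
      simp
    omega
  obtain ⟨H, hH⟩ : ∃ H : Finset G, H = univ.filter fun h₀ : G =>
    ¬ Pop τ c (c' j) h₀ ∧ ¬ Zbad τ c h₀ ∧ ∀ t ∈ D, t * h₀ ∈ X := ⟨_, rfl⟩
  have hpop : 2 * #{h₀ : G | Pop τ c (c' j) h₀} ≤ Fintype.card G := by
    unfold Phi at hj
    rw [mem_filter, not_and, not_le] at hj
    have := hj (mem_univ _)
    convert this.le
  have hHcard : Fintype.card G ≤ #{h₀ : G | Pop τ c (c' j) h₀} + (#{h₀ : G | Zbad τ c h₀} +
      (18 + #H)) := by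
    have hprod : #((D ×ˢ Xᶜ).image fun x => x.1⁻¹ * x.2) ≤ 18 := by
      refine card_image_le.trans ?_
      rw [card_product]
      nlinarith
    refine le_trans ?_ (Nat.add_le_add_left (Nat.add_le_add_left
      (Nat.add_le_add_right hprod _) _) _)
    refine card_le_four' _ _ _ _ fun h₀ => ?_
    by_cases c1 : Pop τ c (c' j) h₀
    · exact Or.inl (mem_filter.2 ⟨mem_univ _, c1⟩)
    refine Or.inr ?_
    by_cases c2 : Zbad τ c h₀
    · exact Or.inl (mem_filter.2 ⟨mem_univ _, c2⟩)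
    refine Or.inr ?_
    by_cases hx : ∀ t ∈ D, t * h₀ ∈ X
    · refine Or.inr ?_
      rw [hH]
      exact mem_filter.2 ⟨mem_univ _, c1, c2, hx⟩
    · push Not at hx
      obtain ⟨t, ht, htX⟩ := hx
      refine Or.inl (mem_image.2 ⟨(t, t * h₀), ?_, ?_⟩)
      · rw [mem_product, mem_compl]
        exact ⟨ht, htX⟩
      · exact inv_mul_cancel_left t h₀
  have hHbig : (1 / 4 : ℝ) * Fintype.card G ≤ #H := by
    have h1 : Fintype.card G ≤ 4 * #H := by omega
    have h2 : (Fintype.card G : ℝ) ≤ 4 * #H := by exact_mod_cast h1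
    linarith
  obtain ⟨I, hI⟩ : ∃ I : Finset (Fin 9), I = (univ.erase 0).erase j := ⟨_, rfl⟩
  have hIcard : #I = 7 := by
    rw [hI, card_erase_of_mem (mem_erase.2 ⟨hj0, mem_univ _⟩), card_erase_of_mem (mem_univ _)]
    rfl
  have hImem : ∀ i ∈ I, i ≠ j ∧ i ≠ 0 := by
    intro i hi
    rw [hI, mem_erase, mem_erase] at hi
    exact ⟨hi.1, hi.2.1⟩
  obtain ⟨F, hF⟩ : ∃ F : Finset (Fin 9) → Finset (Fin 9), F = fun L => insert 0 (insert j L) :=
    ⟨_, rfl⟩
  have hF0 : ∀ L, (0 : Fin 9) ∈ F L := fun L => by rw [hF]; exact mem_insert_self _ _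
  have hFj : ∀ L, j ∈ F L := fun L => by
    rw [hF]
    exact mem_insert_of_mem (mem_insert_self _ _)
  have hFmem : ∀ L i, i ∈ F L ↔ i = 0 ∨ i = j ∨ i ∈ L := fun L i => by
    rw [hF]
    simp only [mem_insert]
  have hFcard : ∀ L, L ⊆ I → #(F L) = #L + 2 := by
    intro L hL
    rw [hF]
    simp only
    rw [card_insert_of_notMem, card_insert_of_notMem]
    · intro h
      exact (hImem j (hL h)).1 rfl
    · rw [mem_insert, not_or]
      exact ⟨hj0.symm, fun h => (hImem 0 (hL h)).2 rfl⟩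
  have hTD : ∀ L, (F L).image c ⊆ D := by
    intro L x hx
    obtain ⟨i, _, rfl⟩ := mem_image.1 hx
    rw [hD, mem_union]
    exact Or.inl (mem_image_of_mem c (mem_univ i))
  have hTD' : ∀ L, (F L).image c' ⊆ D := by
    intro L x hx
    obtain ⟨i, _, rfl⟩ := mem_image.1 hx
    rw [hD, mem_union]
    exact Or.inr (mem_image_of_mem c' (mem_univ i))
  have hno : ∀ h₀ ∈ H, ∀ L L' : Finset (Fin 9), ∀ h,
      ¬ Hit τ ((F L').image c') h ((F L).image c) h₀ := by
    intro h₀ hh₀ L L' h hhit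
    rw [hH, mem_filter] at hh₀
    apply hh₀.2.1
    obtain ⟨t₀, ht₀, e0⟩ := hhit (c' 0) (mem_image_of_mem c' (hF0 L'))
    obtain ⟨t₁, ht₁, e1⟩ := hhit (c' j) (mem_image_of_mem c' (hFj L'))
    obtain ⟨i₀, _, rfl⟩ := mem_image.1 ht₀
    obtain ⟨i₁, _, rfl⟩ := mem_image.1 ht₁
    rw [hc0] at e0
    exact ⟨h, i₀, i₁, e0, e1⟩
  have hno2 : ∀ h₀ ∈ H, ∀ L ⊆ I, ∀ L' ⊆ I, L' ≠ L → #L ≤ #L' → ∀ h,
      ¬ Hit τ ((F L').image c) h ((F L).image c) h₀ := by
    intro h₀ hh₀ L hL L' hL' hne hle h hhit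
    rw [hH, mem_filter] at hh₀
    have h1 : ∀ i : Fin 9, ∃ i' : Fin 9, i ∈ F L' → i' ∈ F L ∧ τ (c i * h) = τ (c i' * h₀) := by
      intro i
      by_cases hi : i ∈ F L'
      · obtain ⟨t, ht, e⟩ := hhit (c i) (mem_image_of_mem c hi)
        obtain ⟨i', hi', rfl⟩ := mem_image.1 ht
        exact ⟨i', fun _ => ⟨hi', e⟩⟩
      · exact ⟨0, fun h => absurd h hi⟩
    choose σ hσ using h1
    have hcard3 : 3 ≤ #(F L') := by
      rw [hFcard L' hL']
      have : 0 < #L' := by
        by_contra h0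
        have h2 : #L' = 0 := by omega
        have h3 : #L = 0 := by omega
        rw [card_eq_zero] at h2 h3
        exact hne (h2.trans h3.symm)
      omega
    have h2 := rigid hh₀.2.2.1 hcard3 (fun i hi => (hσ i hi).2)
    have h3 : F L' ⊆ F L := fun i hi => by
      have := (hσ i hi).1
      rwa [h2 i hi] at this
    have h4 : F L' = F L := Finset.eq_of_subset_of_card_le h3 (by
      rw [hFcard L hL, hFcard L' hL']
      omega)
    apply hne
    ext i
    constructor
    · intro hi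
      have h5 : i ∈ F L := by rw [← h4, hFmem]; exact Or.inr (Or.inr hi)
      have h6 := hImem i (hL' hi)
      rw [hFmem] at h5
      rcases h5 with h5 | h5 | h5
      · exact absurd h5 h6.2
      · exact absurd h5 h6.1
      · exact h5
    · intro hi
      have h5 : i ∈ F L' := by rw [h4, hFmem]; exact Or.inr (Or.inr hi)
      have h6 := hImem i (hL hi)
      rw [hFmem] at h5
      rcases h5 with h5 | h5 | h5
      · exact absurd h5 h6.2
      · exact absurd h5 h6.1
      · exact h5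
  have hfin := hmain G τ hτ X (Finset (Fin 9)) I.powerset (fun L => #L)
    (fun L => (F L).image c) (fun L => (F L).image c') D (c 0) H
    (by rw [card_powerset, hIcard]; norm_num) hDcard (fun L _ => hTD L) (fun L _ => hTD' L)
    (fun L _ => mem_image_of_mem c (hF0 L)) hHbig
    (fun h₀ hh₀ => by
      rw [hH, mem_filter] at hh₀
      exact hh₀.2.2.2)
    (fun h₀ hh₀ L _ h => hno h₀ hh₀ L L h)
    (fun h₀ hh₀ L' hL' L hL hne hrk h =>
      ⟨hno2 h₀ hh₀ L (mem_powerset.1 hL) L' (mem_powerset.1 hL') hne hrk h,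
        hno h₀ hh₀ L L' h⟩)
  refine le_trans (Nat.cast_le.2 (card_le_card ?_)) hfin
  intro R hR
  simp only [mem_filter, mem_univ, true_and] at hR ⊢
  exact fun L _ => hR (F L)

theorem orbit_fraction (ε : ℝ) (hε : 0 < ε) : ∃ N₀ : ℕ,
    ∀ (G : Type) [Group G] [Fintype G] [DecidableEq G] (τ : G → G) (c : Fin 9 → G),
    Generic τ c → N₀ ≤ Fintype.card G → ∀ X : Finset G, #Xᶜ ≤ 1 →
    (Nat.card {R : Finset G // ∃ (c' : Fin 9 → G) (j : Fin 9), c' 0 = c 0 ∧ c' j ∉ Phi τ c ∧
      ∀ J : Finset (Fin 9), cnt X τ (J.image c) R = cnt X τ (J.image c') R} : ℝ) ≤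
      ε * 2 ^ Fintype.card G := by
  obtain ⟨C, hC, N₁, hone⟩ := orbit_one
  obtain ⟨N₂, hN₂⟩ := exists_nat_gt (9 * C / ε)
  refine ⟨max N₁ (max N₂ 1), ?_⟩
  intro G _ _ _ τ c hgen hN X hX
  classical
  have hN1 : N₁ ≤ Fintype.card G := (le_max_left _ _).trans hN
  have hN2 : N₂ ≤ Fintype.card G := ((le_max_left _ _).trans (le_max_right _ _)).trans hN
  have hN3 : 1 ≤ Fintype.card G := ((le_max_right _ _).trans (le_max_right _ _)).trans hN
  have hN' : (1 : ℝ) ≤ Fintype.card G := by exact_mod_cast hN3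
  have hN0 : (0 : ℝ) < Fintype.card G := by linarith
  have hsN : 0 < Real.sqrt (Fintype.card G) := Real.sqrt_pos.2 hN0
  have hsq : Real.sqrt (Fintype.card G) ^ 128 = (Fintype.card G : ℝ) ^ 64 := by
    rw [show 128 = 2 * 64 by norm_num, pow_mul, Real.sq_sqrt hN0.le]
  rw [Nat.card_eq_fintype_card, Fintype.card_subtype]
  have hsub : (univ.filter fun R : Finset G => ∃ (c' : Fin 9 → G) (j : Fin 9),
      c' 0 = c 0 ∧ c' j ∉ Phi τ c ∧
      ∀ J : Finset (Fin 9), cnt X τ (J.image c) R = cnt X τ (J.image c') R) ⊆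
      (univ : Finset ((Fin 9 → G) × Fin 9)).biUnion fun x => univ.filter fun R : Finset G =>
        (x.1 0 = c 0 ∧ x.1 x.2 ∉ Phi τ c) ∧
        ∀ J : Finset (Fin 9), cnt X τ (J.image c) R = cnt X τ (J.image x.1) R := by
    intro R hR
    rw [mem_filter] at hR
    obtain ⟨-, c', j, h1, h2, h3⟩ := hR
    rw [mem_biUnion]
    exact ⟨(c', j), mem_univ _, mem_filter.2 ⟨mem_univ _, ⟨h1, h2⟩, h3⟩⟩
  have hbound : ∀ x : (Fin 9 → G) × Fin 9, (#(univ.filter fun R : Finset G =>
        (x.1 0 = c 0 ∧ x.1 x.2 ∉ Phi τ c) ∧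
        ∀ J : Finset (Fin 9), cnt X τ (J.image c) R = cnt X τ (J.image x.1) R) : ℝ) ≤
      2 ^ Fintype.card G * (C / (Fintype.card G : ℝ) ^ 64) := by
    intro x
    by_cases hx : x.1 0 = c 0 ∧ x.1 x.2 ∉ Phi τ c
    · have h1 := hone G τ c hgen hN1 X hX x.1 x.2 hx.1 hx.2
      rw [hsq] at h1
      refine le_trans (Nat.cast_le.2 (card_le_card ?_)) h1
      intro R hR
      rw [mem_filter] at hR ⊢
      exact ⟨mem_univ _, hR.2.2⟩
    · have h4 : (univ.filter fun R : Finset G =>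
        (x.1 0 = c 0 ∧ x.1 x.2 ∉ Phi τ c) ∧
        ∀ J : Finset (Fin 9), cnt X τ (J.image c) R = cnt X τ (J.image x.1) R) = ∅ := by
        rw [Finset.filter_eq_empty_iff]
        intro R _ h
        exact hx h.1
      rw [h4, card_empty, Nat.cast_zero]
      positivity
  have h5 : (#(univ.filter fun R : Finset G => ∃ (c' : Fin 9 → G) (j : Fin 9),
      c' 0 = c 0 ∧ c' j ∉ Phi τ c ∧
      ∀ J : Finset (Fin 9), cnt X τ (J.image c) R = cnt X τ (J.image c') R) : ℝ) ≤
      ((Fintype.card G : ℝ) ^ 9 * 9) * (2 ^ Fintype.card G * (C / (Fintype.card G : ℝ) ^ 64)) := by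
    refine (Nat.cast_le.2 ((card_le_card hsub).trans card_biUnion_le)).trans ?_
    push_cast
    refine (Finset.sum_le_sum fun x _ => hbound x).trans ?_
    rw [Finset.sum_const, card_univ, Fintype.card_prod, Fintype.card_fun, Fintype.card_fin,
      nsmul_eq_mul]
    push_cast
    exact le_rfl
  refine h5.trans ?_
  have h6 : ((Fintype.card G : ℝ) ^ 9 * 9) * (2 ^ Fintype.card G *
      (C / (Fintype.card G : ℝ) ^ 64)) =
      2 ^ Fintype.card G * (9 * C / (Fintype.card G : ℝ) ^ 55) := by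
    field_simp
  rw [h6, mul_comm ε]
  refine mul_le_mul_of_nonneg_left ?_ (by positivity)
  rw [div_le_iff₀ (by positivity)]
  have h7 : 9 * C ≤ ε * N₂ := by
    rw [div_lt_iff₀ hε] at hN₂
    linarith
  have h8 : (N₂ : ℝ) ≤ Fintype.card G := by exact_mod_cast hN2
  have h9 : (Fintype.card G : ℝ) ≤ (Fintype.card G : ℝ) ^ 55 :=
    le_self_pow₀ hN' (by norm_num)
  calc 9 * C ≤ ε * N₂ := h7
    _ ≤ ε * (Fintype.card G : ℝ) ^ 55 := mul_le_mul_of_nonneg_left (h8.trans h9) hε.le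

end Pool.Agent.N595.ST
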