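import Pool.Agent.N595.ST.Moved

/-!
# The group of two-fold automorphisms is small
-/

set_option autoImplicit false
set_option linter.unusedSectionVars false

namespace Pool.Agent.N595.ST

open Finset Pool.Agent.N595.RC

open Classical in
theorem mem_badU {G : Type} [Group G] [Fintype G] {X : Finset G} {τ : G → G}
    {c : Fin 9 → G} {R : Finset G} {u : G} :
    u ∈ badU X τ c R ↔ u ∈ V1 τ c ∧ ∃ w ∈ V1 τ c, w ≠ u ∧ sigU X τ c u R = sigU X τ c w R := by
  unfold badU
  rw [Finset.mem_filter]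
  simp only [mem_univ, true_and]

section

variable {G : Type} [Group G] [Fintype G] [DecidableEq G]

theorem Mm_inv {X : Finset G} {τ : G → G} (hτ : IsTr τ) (hX : ∀ x ∈ X, x⁻¹ ∈ X) (R : Finset G)
    (y : G) : Mm X τ R y⁻¹ ↔ Mm X τ R y := by
  unfold Mm
  rw [hτ.inv]
  constructor
  · rintro ⟨h1, h2⟩
    exact ⟨by simpa using hX _ h1, h2⟩
  · rintro ⟨h1, h2⟩
    exact ⟨hX _ h1, h2⟩

theorem cnt_image {X : Finset G} {τ : G → G} {R : Finset G} {α β : Equiv.Perm G}
    (h : TF X τ R α β) (T : Finset G) : cnt X τ (T.image α) R = cnt X τ T R := by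
  unfold cnt
  symm
  refine card_bij (fun x _ => β x) ?_ (fun x _ y _ hxy => β.injective hxy) ?_
  · intro x hx
    rw [mem_filter] at hx ⊢
    refine ⟨mem_univ _, fun t ht => ?_⟩
    obtain ⟨s, hs, rfl⟩ := mem_image.1 ht
    exact (h s x).1 (hx.2 s hs)
  · intro y hy
    rw [mem_filter] at hy
    refine ⟨β.symm y, mem_filter.2 ⟨mem_univ _, fun t ht => ?_⟩, β.apply_symm_apply y⟩
    have h1 := hy.2 (α t) (mem_image_of_mem α ht)
    refine (h t (β.symm y)).2 ?_
    rw [β.apply_symm_apply]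
    exact h1

/-- If `α` fixes the generic tuple, then both maps are the identity. -/
theorem eq_one_of_fix {X : Finset G} {τ : G → G} (hτ : IsTr τ) (hXinv : ∀ x ∈ X, x⁻¹ ∈ X)
    {c : Fin 9 → G} {R : Finset G} (hsep : Sep X τ R)
    (hN : 4000 * 5868000 ≤ Fintype.card G) (hbad : 4000 * #(badU X τ c R) ≤ Fintype.card G)
    {α β : Equiv.Perm G} (h : TF X τ R α β) (hfix : ∀ j, α (c j) = c j) :
    α = 1 ∧ β = 1 := by
  classical
  have hV := card_compl_V1 hτ c
  -- few elements are moved
  have hmv : 1000 * #{u : G | α u ≠ u} ≤ Fintype.card G := by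
    have hsub : (univ.filter fun u : G => α u ≠ u) ⊆
        badU X τ c R ∪ ((V1 τ c)ᶜ ∪ (V1 τ c)ᶜ.image α.symm) := by
      intro u hu
      rw [mem_filter] at hu
      by_cases h1 : u ∈ V1 τ c
      · by_cases h2 : α u ∈ V1 τ c
        · refine mem_union_left _ ?_
          refine mem_badU.2 ⟨h1, α u, h2, hu.2, ?_⟩
          funext k
          rw [sigU_eq, sigU_eq]
          have h3 : TK c (α u) k = (TK c u k).image α := by
            unfold TK
            rw [image_insert, image_image]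
            congr 1
            ext x
            simp only [mem_image, Function.comp]
            constructor
            · rintro ⟨j, hj, rfl⟩
              exact ⟨j, hj, hfix j⟩
            · rintro ⟨j, hj, rfl⟩
              exact ⟨j, hj, (hfix j).symm⟩
          have h4 := cnt_image h (TK c u k)
          rw [← h3] at h4
          exact h4.symm
        · refine mem_union_right _ (mem_union_right _ ?_)
          rw [mem_image]
          exact ⟨α u, mem_compl.2 h2, α.symm_apply_apply u⟩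
      · exact mem_union_right _ (mem_union_left _ (mem_compl.2 h1))
    have h1 := card_le_card hsub
    have h2 := card_union_le (badU X τ c R) ((V1 τ c)ᶜ ∪ (V1 τ c)ᶜ.image α.symm)
    have h3 := card_union_le (V1 τ c)ᶜ ((V1 τ c)ᶜ.image α.symm)
    have h4 : #((V1 τ c)ᶜ.image α.symm) ≤ #(V1 τ c)ᶜ := card_image_le
    omega
  have hβ : ∀ x, β x = x := by
    intro x
    by_contra hne
    have hc : x⁻¹ * β x ≠ 1 := fun h1 => hne (inv_mul_eq_one.1 h1).symm
    have h1 := hsep.sep _ hc
    rw [Nat.card_eq_fintype_card, Nat.card_eq_fintype_card, Fintype.card_subtype] at h1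
    have h2 : #(univ.filter fun y : G => Mm X τ R y ∧ ¬ Mm X τ R (y * (x⁻¹ * β x))) ≤
        #{u : G | α u ≠ u} := by
      refine card_le_card_of_injOn (fun y => y * x⁻¹) ?_
        (fun y _ y' _ hyy' => mul_right_cancel hyy')
      intro y hy
      rw [mem_coe, mem_filter] at hy ⊢
      refine ⟨mem_univ _, fun h3 => hy.2.2 ?_⟩
      have h4 := h (y * x⁻¹) x
      rw [h3, inv_mul_cancel_right] at h4
      rw [← mul_assoc]
      exact h4.1 hy.2.1
    have h3 : #(univ.filter fun y : G => Mm X τ R y ∧ ¬ Mm X τ R (y * (x⁻¹ * β x))) =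
      #(univ.filter fun y : G => Mm X τ R y ∧ ¬ Mm X τ R (y * (x⁻¹ * β x))) := rfl
    omega
  have hα : ∀ u, α u = u := by
    intro u
    by_contra hne
    have hc : u * (α u)⁻¹ ≠ 1 := fun h1 => hne (mul_inv_eq_one.1 h1).symm
    have h1 := hsep.sep _ hc
    have h2 : 0 < Nat.card {y : G // Mm X τ R y ∧ ¬ Mm X τ R (y * (u * (α u)⁻¹))} := by
      by_contra hcon
      have : Nat.card {y : G // Mm X τ R y ∧ ¬ Mm X τ R (y * (u * (α u)⁻¹))} = 0 := by omega
      omega
    rw [Nat.card_pos_iff] at h2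
    obtain ⟨⟨y, hy1, hy2⟩⟩ := h2.1
    apply hy2
    have h3 := h u ((y * u)⁻¹)
    rw [hβ] at h3
    have e1 : u * (y * u)⁻¹ = y⁻¹ := by group
    have e2 : α u * (y * u)⁻¹ = (y * (u * (α u)⁻¹))⁻¹ := by group
    rw [e1, e2, Mm_inv hτ hXinv, Mm_inv hτ hXinv] at h3
    exact h3.1 hy1
  exact ⟨Equiv.ext hα, Equiv.ext hβ⟩

/-- The group of two-fold automorphisms. -/
def grp (X : Finset G) (τ : G → G) (R : Finset G) : Subgroup (Equiv.Perm G × Equiv.Perm G) where
  carrier := {p | TF X τ R p.1 p.2}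
  one_mem' := fun u h => Iff.rfl
  mul_mem' := by
    intro a b ha hb u h
    exact (hb u h).trans (ha _ _)
  inv_mem' := by
    intro a ha u h
    have h1 := ha (a⁻¹.1 u) (a⁻¹.2 h)
    rw [h1]
    have e1 : a.1 (a⁻¹.1 u) = u := a.1.apply_symm_apply u
    have e2 : a.2 (a⁻¹.2 h) = h := a.2.apply_symm_apply h
    rw [e1, e2]

theorem mem_grp {X : Finset G} {τ : G → G} {R : Finset G} {p : Equiv.Perm G × Equiv.Perm G} :
    p ∈ grp X τ R ↔ TF X τ R p.1 p.2 := Iff.rfl

/-- The translations. -/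
def trans (X : Finset G) (τ : G → G) (R : Finset G) : G →* grp X τ R where
  toFun g := ⟨(Equiv.mulRight g⁻¹, Equiv.mulLeft g), fun u h => by
    show Mm X τ R (u * h) ↔ Mm X τ R (u * g⁻¹ * (g * h))
    rw [mul_assoc, inv_mul_cancel_left]⟩
  map_one' := by
    apply Subtype.ext
    apply Prod.ext
    · apply Equiv.ext
      intro x
      show x * (1 : G)⁻¹ = x
      simp
    · apply Equiv.ext
      intro x
      show 1 * x = x
      simp
  map_mul' := by
    intro a b
    apply Subtype.ext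
    apply Prod.ext
    · apply Equiv.ext
      intro x
      show x * (a * b)⁻¹ = x * b⁻¹ * a⁻¹
      rw [mul_inv_rev, mul_assoc]
    · apply Equiv.ext
      intro x
      show a * b * x = a * (b * x)
      rw [mul_assoc]

theorem trans_fst (X : Finset G) (τ : G → G) (R : Finset G) (g u : G) :
    (trans X τ R g).1.1 u = u * g⁻¹ := rfl

theorem trans_snd (X : Finset G) (τ : G → G) (R : Finset G) (g h : G) :
    (trans X τ R g).1.2 h = g * h := rfl

theorem trans_injective (X : Finset G) (τ : G → G) (R : Finset G) :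
    Function.Injective (trans X τ R) := by
  intro a b hab
  have h1 := congrArg (fun p => p.1.2 1) hab
  simp only [trans_snd, mul_one] at h1
  exact h1

/-- The event which controls the orbits of the tuple. -/
def OrbitBad (X : Finset G) (τ : G → G) (c : Fin 9 → G) (R : Finset G) : Prop :=
  ∃ (c' : Fin 9 → G) (j : Fin 9), c' 0 = c 0 ∧ c' j ∉ Phi τ c ∧
      ∀ J : Finset (Fin 9), cnt X τ (J.image c) R = cnt X τ (J.image c') R

theorem card_grp {X : Finset G} {τ : G → G} (hτ : IsTr τ) (hXinv : ∀ x ∈ X, x⁻¹ ∈ X)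
    {c : Fin 9 → G} {R : Finset G} (hsep : Sep X τ R)
    (hN : 4000 * 5868000 ≤ Fintype.card G) (hbad : 4000 * #(badU X τ c R) ≤ Fintype.card G)
    (horb : ¬ OrbitBad X τ c R) : Nat.card (grp X τ R) ≤ Nat.card G * 648 ^ 9 := by
  classical
  -- the images of the tuple after normalisation
  have h1 : ∀ (p : grp X τ R) (j : Fin 9),
      p.1.1 (c j) * ((p.1.1 (c 0))⁻¹ * c 0) ∈ Phi τ c := by
    intro p j
    by_contra hcon
    apply horb
    refine ⟨fun j => p.1.1 (c j) * ((p.1.1 (c 0))⁻¹ * c 0), j, ?_, hcon, fun J => ?_⟩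
    · show p.1.1 (c 0) * ((p.1.1 (c 0))⁻¹ * c 0) = c 0
      group
    · have h2 := mem_grp.1 (trans X τ R ((p.1.1 (c 0))⁻¹ * c 0)⁻¹ * p).2
      have h3 := cnt_image h2 (J.image c)
      rw [← h3]
      congr 1
      rw [image_image]
      refine Finset.image_congr fun j _ => ?_
      show p.1.1 (c j) * ((p.1.1 (c 0))⁻¹ * c 0)⁻¹⁻¹ = p.1.1 (c j) * ((p.1.1 (c 0))⁻¹ * c 0)
      rw [inv_inv]
  have h2 : Function.Injective (fun p : grp X τ R =>
      ((p.1.1 (c 0), fun j => ⟨_, h1 p j⟩) : G × (Fin 9 → Phi τ c))) := by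
    intro p q hpq
    have e1 : p.1.1 (c 0) = q.1.1 (c 0) := congrArg Prod.fst hpq
    have e2 : ∀ j, p.1.1 (c j) = q.1.1 (c j) := by
      intro j
      have h3 := congrFun (congrArg Prod.snd hpq) j
      have h4 := congrArg Subtype.val h3
      simp only at h4
      rw [e1] at h4
      exact mul_right_cancel h4
    have h5 : TF X τ R (p⁻¹ * q).1.1 (p⁻¹ * q).1.2 := mem_grp.1 (p⁻¹ * q).2
    obtain ⟨h6, h7⟩ := eq_one_of_fix hτ hXinv hsep hN hbad h5 (fun j => by
      show p.1.1.symm (q.1.1 (c j)) = c j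
      rw [← e2]
      exact p.1.1.symm_apply_apply _)
    have h8 : p⁻¹ * q = 1 := Subtype.ext (Prod.ext h6 h7)
    exact (inv_mul_eq_one.1 h8)
  have h3 := Nat.card_le_card_of_injective _ h2
  refine h3.trans ?_
  rw [Nat.card_prod, Nat.card_fun, Nat.card_eq_fintype_card (α := Fin 9), Fintype.card_fin]
  refine Nat.mul_le_mul_left _ (Nat.pow_le_pow_left ?_ 9)
  rw [Nat.card_eq_fintype_card, Fintype.card_coe]
  exact card_Phi hτ c

theorem index_trans {X : Finset G} {τ : G → G} {R : Finset G}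
    (h : Nat.card (grp X τ R) ≤ Nat.card G * 648 ^ 9) :
    (trans X τ R).range.index ≤ 648 ^ 9 := by
  have h1 := (trans X τ R).range.card_mul_index
  have h2 : Nat.card (trans X τ R).range = Nat.card G :=
    (Nat.card_congr (MonoidHom.ofInjective (trans_injective X τ R)).toEquiv).symm
  rw [h2] at h1
  rw [← h1] at h
  exact Nat.le_of_mul_le_mul_left h Nat.card_pos

/-- The subgroup of the translations which act trivially on the cosets. -/
def core (X : Finset G) (τ : G → G) (R : Finset G) : Subgroup G :=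
  ((MulAction.toPermHom (grp X τ R) ((grp X τ R) ⧸ (trans X τ R).range)).ker).comap (trans X τ R)

theorem core_index {X : Finset G} {τ : G → G} {R : Finset G}
    (h : Nat.card (grp X τ R) ≤ Nat.card G * 648 ^ 9) :
    (core X τ R).index ≤ (648 ^ 9).factorial := by
  classical
  have h0 := index_trans h
  unfold core
  rw [Subgroup.index_comap]
  have h1 := Subgroup.relIndex_dvd_index_of_normal
    (MulAction.toPermHom (grp X τ R) ((grp X τ R) ⧸ (trans X τ R).range)).ker
    (trans X τ R).range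
  have h2 : (MulAction.toPermHom (grp X τ R) ((grp X τ R) ⧸ (trans X τ R).range)).ker.index ≤
      (648 ^ 9).factorial := by
    rw [Subgroup.index_ker]
    refine (Subgroup.card_le_card_group _).trans ?_
    rw [Nat.card_perm]
    exact Nat.factorial_le h0
  have h3 : 0 <
      (MulAction.toPermHom (grp X τ R) ((grp X τ R) ⧸ (trans X τ R).range)).ker.index :=
    Nat.pos_of_ne_zero Subgroup.index_ne_zero_of_finite
  exact (Nat.le_of_dvd h3 h1).trans h2

theorem core_spec {X : Finset G} {τ : G → G} {R : Finset G} (p : grp X τ R) :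
    ∀ m ∈ core X τ R, ∃ m' : G, (∀ u, p.1.1 (u * m) = p.1.1 u * m') ∧
      ∀ h, p.1.2 (m⁻¹ * h) = m'⁻¹ * p.1.2 h := by
  intro m hm
  have h1 : trans X τ R m⁻¹ ∈
      (MulAction.toPermHom (grp X τ R) ((grp X τ R) ⧸ (trans X τ R).range)).ker := by
    rw [map_inv]
    exact Subgroup.inv_mem _ (Subgroup.mem_comap.1 hm)
  have h2 : p * trans X τ R m⁻¹ * p⁻¹ ∈
      (MulAction.toPermHom (grp X τ R) ((grp X τ R) ⧸ (trans X τ R).range)).ker :=
    (MonoidHom.normal_ker _).conj_mem _ h1 p
  have h3 : p * trans X τ R m⁻¹ * p⁻¹ ∈ (trans X τ R).range := by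
    rw [MonoidHom.mem_ker] at h2
    have h4 := congrArg (fun σ => σ ((1 : grp X τ R) : (grp X τ R) ⧸ (trans X τ R).range)) h2
    have h5 : ((p * trans X τ R m⁻¹ * p⁻¹ * 1 : grp X τ R) :
        (grp X τ R) ⧸ (trans X τ R).range) = ((1 : grp X τ R) : _) := h4
    rw [mul_one, QuotientGroup.eq, mul_one] at h5
    simpa using (trans X τ R).range.inv_mem h5
  obtain ⟨m', hm'⟩ := h3
  refine ⟨m'⁻¹, ?_⟩
  have h4 : trans X τ R m' * p = p * trans X τ R m⁻¹ := by
    rw [hm', inv_mul_cancel_right]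
  constructor
  · intro u
    have h5 := congrArg (fun q => q.1.1 u) h4
    have h6 : p.1.1 u * m'⁻¹ = p.1.1 (u * m⁻¹⁻¹) := h5
    rw [inv_inv] at h6
    exact h6.symm
  · intro h
    have h5 := congrArg (fun q => q.1.2 h) h4
    have h6 : m' * p.1.2 h = p.1.2 (m⁻¹ * h) := h5
    rw [inv_inv]
    exact h6.symm

end

end Pool.Agent.N595.ST
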