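import Pool.Agent.N595.ST.Bad

/-!
# Separation and connectivity of a random inverse-closed set
-/

set_option autoImplicit false
set_option linter.unusedSectionVars false

namespace Pool.Agent.N595.ST

open Finset Pool.Agent.N595.RC

theorem pair_event2 {α ι : Type*} [Fintype α] [DecidableEq α] [DecidableEq ι] (φ ψ : ι → α)
    (Z : Finset ι)
    (hφ : ∀ a, #{z ∈ Z | φ z = a} ≤ 2) (hψ : ∀ a, #{z ∈ Z | ψ z = a} ≤ 2)
    (hne : ∀ z ∈ Z, φ z ≠ ψ z)
    (b : Prop) [Decidable b] (j : ℕ) (hj : 128 * j ≤ #Z) :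
    (#{S : Finset α | #{z ∈ Z | φ z ∈ S ∧ (ψ z ∈ S ↔ b)} ≤ j} : ℝ) ≤
      2 ^ Fintype.card α * Real.exp (-(#Z / 128 : ℝ)) := by
  classical
  obtain ⟨P, hPZ, hP, hcard⟩ := packing Z
    (fun x y => ¬ Disjoint ({φ x, ψ x} : Finset α) {φ y, ψ y})
    (fun x h => Finset.disjoint_left.1 h (mem_insert_self _ _) (mem_insert_self _ _))
    (fun x y h h' => h h'.symm) 8 (fun x _ => by
      have hsub : {y ∈ Z | ¬ Disjoint ({φ x, ψ x} : Finset α) {φ y, ψ y}} ⊆
          ({z ∈ Z | φ z = φ x} ∪ {z ∈ Z | φ z = ψ x}) ∪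
          ({z ∈ Z | ψ z = φ x} ∪ {z ∈ Z | ψ z = ψ x}) := by
        intro y hy
        rw [mem_filter, Finset.not_disjoint_iff] at hy
        obtain ⟨hyZ, z, hz, hz'⟩ := hy
        simp only [mem_insert, mem_singleton] at hz hz'
        simp only [mem_union, mem_filter]
        rcases hz with rfl | rfl
        · rcases hz' with h | h
          · exact Or.inl (Or.inl ⟨hyZ, h.symm⟩)
          · exact Or.inr (Or.inl ⟨hyZ, h.symm⟩)
        · rcases hz' with h | h
          · exact Or.inl (Or.inr ⟨hyZ, h.symm⟩)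
          · exact Or.inr (Or.inr ⟨hyZ, h.symm⟩)
      refine (card_le_card hsub).trans ((card_union_le _ _).trans ?_)
      have := card_union_le {z ∈ Z | φ z = φ x} {z ∈ Z | φ z = ψ x}
      have := card_union_le {z ∈ Z | ψ z = φ x} {z ∈ Z | ψ z = ψ x}
      have := hφ (φ x)
      have := hφ (ψ x)
      have := hψ (φ x)
      have := hψ (ψ x)
      omega)
  have h1 := few_hits 2 P (fun z => {φ z, ψ z}) (fun z => if b then {φ z, ψ z} else {φ z})
    (fun z _ => by
      split_ifs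
      · exact le_rfl
      · intro x hx
        rw [mem_singleton] at hx
        exact hx ▸ mem_insert_self _ _) (fun z _ => card_le_two) (fun z hz z' hz' hne' => by
      have h := hP z hz z' hz' hne'
      rwa [not_not] at h) j (by norm_num; omega)
  have h2 : (univ.filter fun S : Finset α => #{z ∈ Z | φ z ∈ S ∧ (ψ z ∈ S ↔ b)} ≤ j) ⊆
      univ.filter fun S : Finset α =>
        hits P (fun z => {φ z, ψ z}) (fun z => if b then {φ z, ψ z} else {φ z}) S ≤ j := by
    intro S hS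
    simp only [mem_filter, mem_univ, true_and] at hS ⊢
    refine le_trans (card_le_card ?_) hS
    intro z hz
    rw [mem_filter] at hz ⊢
    refine ⟨hPZ hz.1, ?_⟩
    obtain ⟨hzP, h3⟩ := hz
    replace h3 : S ∩ {φ z, ψ z} = if b then {φ z, ψ z} else {φ z} := h3
    have h4 : φ z ∈ S := by
      have : φ z ∈ S ∩ {φ z, ψ z} := by
        rw [h3]
        split_ifs <;> simp
      exact (mem_inter.1 this).1
    refine ⟨h4, ?_⟩
    by_cases hb : b
    · rw [if_pos hb] at h3
      have : ψ z ∈ S ∩ {φ z, ψ z} := by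
        rw [h3]
        simp
      exact iff_of_true (mem_inter.1 this).1 hb
    · rw [if_neg hb] at h3
      refine iff_of_false (fun h5 => ?_) hb
      have : ψ z ∈ S ∩ {φ z, ψ z} := mem_inter.2 ⟨h5, by simp⟩
      rw [h3, mem_singleton] at this
      exact hne z (hPZ hzP) this.symm
  calc (#{S : Finset α | #{z ∈ Z | φ z ∈ S ∧ (ψ z ∈ S ↔ b)} ≤ j} : ℝ)
      ≤ (#{S : Finset α | hits P (fun z => {φ z, ψ z})
          (fun z => if b then {φ z, ψ z} else {φ z}) S ≤ j} : ℝ) := by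
        exact_mod_cast card_le_card h2
    _ ≤ 2 ^ Fintype.card α * Real.exp (-(#P / 2 ^ (2 + 2) : ℝ)) := h1
    _ ≤ 2 ^ Fintype.card α * Real.exp (-(#Z / 128 : ℝ)) := by
        refine mul_le_mul_of_nonneg_left (Real.exp_le_exp.2 ?_) (by positivity)
        have h5 : (#Z : ℝ) ≤ 8 * #P := by exact_mod_cast hcard
        norm_num
        linarith

/-- Membership in the random inverse-closed set. -/
def Mm {G : Type} (X : Finset G) (τ : G → G) (R : Finset G) (y : G) : Prop := y ∈ X ∧ τ y ∈ R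

/-- The random set separates and connects. -/
structure Sep {G : Type} [Group G] (X : Finset G) (τ : G → G) (R : Finset G) : Prop where
  sep : ∀ c : G, c ≠ 1 →
    Nat.card G < 1000 * Nat.card {y : G // Mm X τ R y ∧ ¬ Mm X τ R (y * c)}
  conn : ∀ c : G, ∃ y : G, Mm X τ R y ∧ Mm X τ R (y * c)

theorem card_four_cover {α : Type*} [Fintype α] [DecidableEq α] (A₁ A₂ A₃ A₄ : Finset α)
    (h : ∀ x, x ∈ A₁ ∨ x ∈ A₂ ∨ x ∈ A₃ ∨ x ∈ A₄) :
    Fintype.card α ≤ #A₁ + (#A₂ + (#A₃ + #A₄)) := card_le_four' A₁ A₂ A₃ A₄ h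

theorem sep_fraction (ε : ℝ) (hε : 0 < ε) : ∃ N₀ : ℕ,
    ∀ (G : Type) [Group G] [Fintype G] [DecidableEq G] (τ : G → G), IsTr τ →
    N₀ ≤ Fintype.card G → ∀ X : Finset G, #Xᶜ ≤ 1 →
    (Nat.card {R : Finset G // ¬ Sep X τ R} : ℝ) ≤ ε * 2 ^ Fintype.card G := by
  obtain ⟨N₂, hN₂⟩ := exists_nat_gt (4 * 640 ^ 2 / ε)
  refine ⟨max 100 N₂, ?_⟩
  intro G _ _ _ τ hτ hN X hX
  classical
  have hN1 : 100 ≤ Fintype.card G := (le_max_left _ _).trans hN
  have hN2 : N₂ ≤ Fintype.card G := (le_max_right _ _).trans hN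
  have hNr : (100 : ℝ) ≤ Fintype.card G := by exact_mod_cast hN1
  have hN0 : (0 : ℝ) < Fintype.card G := by linarith
  -- the good elements
  set Z : G → Finset G := fun c => {y : G | y * y ≠ c⁻¹ ∧ y ∈ X ∧ y * c ∈ X} with hZ
  have hZcard : ∀ c, c ≠ 1 → Fintype.card G ≤ 5 * #(Z c) := by
    intro c hc
    have h1 := card_sqrt_le (z := c⁻¹) (fun h => hc (inv_eq_one.1 h))
    have h2 := card_le_four' (univ.filter fun y : G => y * y = c⁻¹) (Z c) Xᶜ
      (Xᶜ.image fun x => x * c⁻¹) (fun y => by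
        by_cases a1 : y * y = c⁻¹
        · exact Or.inl (mem_filter.2 ⟨mem_univ _, a1⟩)
        by_cases a2 : y ∈ X
        · by_cases a3 : y * c ∈ X
          · exact Or.inr (Or.inl (mem_filter.2 ⟨mem_univ _, a1, a2, a3⟩))
          · exact Or.inr (Or.inr (Or.inr (mem_image.2 ⟨y * c, mem_compl.2 a3, by group⟩)))
        · exact Or.inr (Or.inr (Or.inl (mem_compl.2 a2))))
    have h3 : #(Xᶜ.image fun x => x * c⁻¹) ≤ #Xᶜ := card_image_le
    omega
  have hφ : ∀ c a : G, #{z ∈ Z c | τ z = a} ≤ 2 := by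
    intro c a
    refine (card_le_card (t := {a, a⁻¹}) fun z hz => ?_).trans card_le_two
    rw [mem_filter] at hz
    rcases hτ.mem hz.2 with h | h
    · rw [h]; simp
    · rw [h]; simp
  have hψ : ∀ c a : G, #{z ∈ Z c | τ (z * c) = a} ≤ 2 := by
    intro c a
    refine (card_le_card (t := {a * c⁻¹, a⁻¹ * c⁻¹}) fun z hz => ?_).trans card_le_two
    rw [mem_filter] at hz
    rcases hτ.mem hz.2 with h | h
    · rw [mem_insert]
      exact Or.inl (by rw [← h]; group)
    · rw [mem_insert, mem_singleton]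
      exact Or.inr (by rw [← h]; group)
  have hne : ∀ c : G, c ≠ 1 → ∀ z ∈ Z c, τ z ≠ τ (z * c) := by
    intro c hc z hz h
    rw [hZ, mem_filter] at hz
    rcases hτ.iff.1 h with h1 | h1
    · exact hc (mul_eq_left.1 h1.symm)
    · apply hz.2.1
      rw [eq_inv_iff_mul_eq_one, mul_assoc]
      nth_rewrite 1 [h1]
      exact inv_mul_cancel _
  set F : Bool → G → Finset (Finset G) := fun b c =>
    {R | #{z ∈ Z c | τ z ∈ R ∧ (τ (z * c) ∈ R ↔ b = true)} ≤ #(Z c) / 128} with hF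
  have hexp : ∀ c : G, c ≠ 1 → Real.exp (-(#(Z c) / 128 : ℝ)) ≤
      2 * 640 ^ 2 / (Fintype.card G : ℝ) ^ 2 := by
    intro c hc
    have h1 : 0 < (Fintype.card G : ℝ) / 640 := by positivity
    have h2 : (Fintype.card G : ℝ) ≤ 5 * #(Z c) := by exact_mod_cast hZcard c hc
    calc Real.exp (-(#(Z c) / 128 : ℝ)) ≤ Real.exp (-((Fintype.card G : ℝ) / 640)) := by
          apply Real.exp_le_exp.2
          linarith
      _ ≤ (2 : ℕ).factorial / ((Fintype.card G : ℝ) / 640) ^ 2 := exp_neg_le_factorial 2 h1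
      _ = 2 * 640 ^ 2 / (Fintype.card G : ℝ) ^ 2 := by
          rw [div_pow, Nat.factorial_two]
          push_cast
          field_simp
  have hFle : ∀ (b : Bool) (c : G), c ≠ 1 → (#(F b c) : ℝ) ≤
      2 ^ Fintype.card G * (2 * 640 ^ 2 / (Fintype.card G : ℝ) ^ 2) := by
    intro b c hc
    refine (pair_event2 τ (fun z => τ (z * c)) (Z c) (hφ c) (hψ c) (hne c hc) (b = true)
      (#(Z c) / 128) (Nat.mul_div_le _ _)).trans
      (mul_le_mul_of_nonneg_left (hexp c hc) (by positivity))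
  have hsub : (univ.filter fun R : Finset G => ¬ Sep X τ R) ⊆
      ((univ : Finset G).erase 1).biUnion (F false) ∪
      ((univ : Finset G).erase 1).biUnion (F true) := by
    intro R hR
    rw [mem_filter] at hR
    by_contra hcon
    rw [mem_union, mem_biUnion, mem_biUnion, not_or] at hcon
    push Not at hcon
    obtain ⟨n1, n2⟩ := hcon
    apply hR.2
    have hconn : ∀ c : G, c ≠ 1 → ∃ y : G, Mm X τ R y ∧ Mm X τ R (y * c) := by
      intro c hc
      have h1 := n2 c (mem_erase.2 ⟨hc, mem_univ _⟩)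
      simp only [hF, mem_filter, mem_univ, true_and, not_le] at h1
      have h2 := (Nat.zero_le _).trans_lt h1
      rw [card_pos] at h2
      obtain ⟨z, hz⟩ := h2
      obtain ⟨hz1, hz2, hz3⟩ := Finset.mem_filter.1 hz
      rw [hZ] at hz1
      obtain ⟨-, -, hz4, hz5⟩ := Finset.mem_filter.1 hz1
      exact ⟨z, ⟨hz4, hz2⟩, hz5, hz3.2 trivial⟩
    refine ⟨fun c hc => ?_, fun c => ?_⟩
    · have h1 := n1 c (mem_erase.2 ⟨hc, mem_univ _⟩)
      simp only [hF, mem_filter, mem_univ, true_and, not_le] at h1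
      have h2 : #(Z c) / 128 < Nat.card {y : G // Mm X τ R y ∧ ¬ Mm X τ R (y * c)} := by
        rw [Nat.card_eq_fintype_card, Fintype.card_subtype]
        refine h1.trans_le (card_le_card fun z hz => ?_)
        obtain ⟨hz1, hz2, hz3⟩ := Finset.mem_filter.1 hz
        rw [hZ] at hz1
        obtain ⟨-, -, hz4, hz5⟩ := Finset.mem_filter.1 hz1
        rw [mem_filter]
        exact ⟨mem_univ _, ⟨hz4, hz2⟩, fun h => Bool.false_ne_true (hz3.1 h.2)⟩
      have h3 := hZcard c hc
      rw [Nat.card_eq_fintype_card]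
      omega
    · by_cases hc : c = 1
      · have h1 : 1 < Fintype.card G := by omega
        rw [Fintype.one_lt_card_iff] at h1
        obtain ⟨a, b, hab⟩ := h1
        obtain ⟨y, hy, -⟩ := hconn (a * b⁻¹) (fun h => hab (mul_inv_eq_one.1 h))
        exact ⟨y, hy, by rw [hc, mul_one]; exact hy⟩
      · exact hconn c hc
  have hU : ∀ b : Bool, (#(((univ : Finset G).erase 1).biUnion (F b)) : ℝ) ≤
      Fintype.card G * (2 ^ Fintype.card G * (2 * 640 ^ 2 / (Fintype.card G : ℝ) ^ 2)) := by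
    intro b
    calc (#(((univ : Finset G).erase 1).biUnion (F b)) : ℝ)
        ≤ ∑ x ∈ (univ : Finset G).erase 1, (#(F b x) : ℝ) := by
          exact_mod_cast card_biUnion_le
      _ ≤ ∑ x ∈ (univ : Finset G).erase 1,
          2 ^ Fintype.card G * (2 * 640 ^ 2 / (Fintype.card G : ℝ) ^ 2) :=
          Finset.sum_le_sum fun x hx => hFle b x (mem_erase.1 hx).1
      _ ≤ Fintype.card G *
          (2 ^ Fintype.card G * (2 * 640 ^ 2 / (Fintype.card G : ℝ) ^ 2)) := by
          rw [Finset.sum_const, nsmul_eq_mul]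
          refine mul_le_mul_of_nonneg_right ?_ (by positivity)
          have h1 : #((univ : Finset G).erase 1) ≤ Fintype.card G := card_le_univ _
          exact_mod_cast h1
  rw [Nat.card_eq_fintype_card, Fintype.card_subtype]
  have h1 : (#(univ.filter fun R : Finset G => ¬ Sep X τ R) : ℝ) ≤
      (#(((univ : Finset G).erase 1).biUnion (F false)) : ℝ) +
      (#(((univ : Finset G).erase 1).biUnion (F true)) : ℝ) := by
    exact_mod_cast (card_le_card hsub).trans (card_union_le _ _)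
  have h2 := hU false
  have h3 := hU true
  have h4 : (Fintype.card G : ℝ) * (2 ^ Fintype.card G *
      (2 * 640 ^ 2 / (Fintype.card G : ℝ) ^ 2)) =
      2 ^ Fintype.card G * (2 * 640 ^ 2 / (Fintype.card G : ℝ)) := by
    field_simp
  rw [h4] at h2 h3
  have h5 : 4 * 640 ^ 2 / (Fintype.card G : ℝ) ≤ ε := by
    rw [div_le_iff₀ hN0]
    rw [div_lt_iff₀ hε] at hN₂
    have h6 : (N₂ : ℝ) ≤ Fintype.card G := by exact_mod_cast hN2
    nlinarith
  calc (#(univ.filter fun R : Finset G => ¬ Sep X τ R) : ℝ)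
      ≤ 2 ^ Fintype.card G * (2 * 640 ^ 2 / (Fintype.card G : ℝ)) +
        2 ^ Fintype.card G * (2 * 640 ^ 2 / (Fintype.card G : ℝ)) := by linarith
    _ = 2 ^ Fintype.card G * (4 * 640 ^ 2 / (Fintype.card G : ℝ)) := by ring
    _ ≤ 2 ^ Fintype.card G * ε := mul_le_mul_of_nonneg_left h5 (by positivity)
    _ = ε * 2 ^ Fintype.card G := mul_comm _ _

end Pool.Agent.N595.ST
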