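import Pool.Agent.N595.ST.Core

/-!
# Almost every inverse-closed set has only diagonal two-fold automorphisms
-/

set_option autoImplicit false
set_option linter.unusedSectionVars false

namespace Pool.Agent.N595.ST

open Finset Pool.Agent.N595.RC

theorem mem_Mv {G : Type} [Group G] [Fintype G] {τ : G → G} {α β : G → G} {z : G} :
    z ∈ Mv τ α β ↔ ∃ u, τ (α u * β (u⁻¹ * z)) ≠ τ z := by
  classical
  unfold Mv
  rw [Finset.mem_filter]
  simp only [mem_univ, true_and]

section

variable {G : Type} [Group G] [Fintype G] [DecidableEq G]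

theorem beta_one {τ : G → G} (hτ : IsTr τ) (M : Subgroup G) {α β : G → G} (hα1 : α 1 = 1)
    (hM : ∀ m ∈ M, ∃ m' : G, (∀ u, α (u * m) = α u * m') ∧ ∀ h, β (m⁻¹ * h) = m'⁻¹ * β h)
    (hmv : 40 * #(Mv τ α β) < Nat.card M) : β 1 = 1 := by
  classical
  have hM' : ∀ m ∈ M, (∀ u, α (u * m) = α u * α m) ∧ ∀ h, β (m⁻¹ * h) = (α m)⁻¹ * β h := by
    intro m hm
    obtain ⟨m', h1, h2⟩ := hM m hm
    have h3 : α m = m' := by
      have := h1 1
      rwa [one_mul, hα1, one_mul] at this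
    rw [h3]
    exact ⟨h1, h2⟩
  let θ : M →* G :=
    { toFun := fun m => α m
      map_one' := hα1
      map_mul' := fun a b => (hM' b b.2).1 a }
  have hθ : ∀ m : M, θ m = α m := fun _ => rfl
  refine eq_one_of_structural M.subtype θ M.subtype_injective (β 1) ?_
  rw [← Nat.card_eq_fintype_card]
  refine lt_of_le_of_lt (Nat.mul_le_mul_left _ ?_) hmv
  refine card_le_card_of_injOn (fun m => (m : G)) ?_ (fun _ _ _ _ h => Subtype.ext h)
  intro m hm
  rw [mem_coe, mem_filter] at hm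
  rw [mem_coe, mem_Mv]
  by_contra hcon
  push Not at hcon
  apply hm.2
  have h1 := hcon 1
  rw [hα1, one_mul, inv_one, one_mul] at h1
  have h2 : β m = θ m * β 1 := by
    have h3 := (hM' _ (M.inv_mem m.2)).2 1
    rw [inv_inv, mul_one] at h3
    have h4 : α ((m : G)⁻¹) = (θ m)⁻¹ := by
      rw [← map_inv, hθ]
      rfl
    rw [h3, h4, inv_inv]
  rw [Subgroup.coe_subtype]
  rcases hτ.iff.1 h1 with h3 | h3
  · left
    rw [eq_mul_inv_iff_mul_eq, ← h2, h3]
  · right
    rw [eq_mul_inv_iff_mul_eq, ← h2, h3]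

theorem exists_index_bound : ∃ F : ℕ, 0 < F ∧ ∀ (G : Type) [Group G] [Fintype G]
    [DecidableEq G] (X : Finset G) (τ : G → G) (R : Finset G), Nat.card (grp X τ R) ≤ Nat.card G * 648 ^ 9 →
    (core X τ R).index ≤ F := by
  refine ⟨(648 ^ 9).factorial, Nat.factorial_pos _, ?_⟩
  intro G _ _ _ X τ R h
  exact core_index h

end

/-- Only the diagonal pairs preserve the relation. -/
def Diag {G : Type} [Group G] (τ : G → G) (R : Finset G) : Prop :=
  ∀ α β : Equiv.Perm G, (∀ u h, τ (u * h) ∈ R ↔ τ (α u * β h) ∈ R) → ∀ u, α u * β u⁻¹ = 1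

theorem diag_of_good {F : ℕ} (hF0 : 0 < F) (hF : ∀ (G : Type) [Group G] [Fintype G]
    [DecidableEq G] (X : Finset G) (τ : G → G) (R : Finset G), Nat.card (grp X τ R) ≤ Nat.card G * 648 ^ 9 →
    (core X τ R).index ≤ F) {G : Type} [Group G] [Fintype G] [DecidableEq G]
    {τ : G → G} (hτ : IsTr τ) {c : Fin 9 → G} {R : Finset G} (hsep : Sep univ τ R)
    (hN : 4000 * 5868000 ≤ Fintype.card G) (hbad : 4000 * #(badU univ τ c R) ≤ Fintype.card G)
    (horb : ¬ OrbitBad univ τ c R)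
    (hcand : ¬ ∃ α β : G → G, Cand F α β ∧ TF univ τ R α β ∧
      (1 / (80 * F) : ℝ) * Fintype.card G ≤ #(Mv τ α β)) : Diag τ R := by
  classical
  intro α β hαβ u
  have hTF : TF univ τ R α β := by
    intro x h
    rw [Mm_univ, Mm_univ]
    exact hαβ x h
  have hcard := card_grp hτ (fun x _ => mem_univ _) hsep hN hbad horb
  have hidx := hF G univ τ R hcard
  obtain ⟨p, hp⟩ : ∃ p : grp univ τ R, p = trans univ τ R (α u) * ⟨(α, β), hTF⟩ *
    trans univ τ R u⁻¹ := ⟨_, rfl⟩
  have hp1 : ∀ x, p.1.1 x = α (x * u) * (α u)⁻¹ := by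
    intro x
    rw [hp]
    show α (x * u⁻¹⁻¹) * (α u)⁻¹ = _
    rw [inv_inv]
  have hp2 : ∀ x, p.1.2 x = α u * β (u⁻¹ * x) := by
    intro x
    rw [hp]
    rfl
  have h1 : p.1.1 1 = 1 := by
    rw [hp1, one_mul, mul_inv_cancel]
  have hspec := core_spec p
  have hmv : 40 * #(Mv τ p.1.1 p.1.2) < Nat.card (core univ τ R) := by
    have h2 : ¬ (1 / (80 * F) : ℝ) * Fintype.card G ≤ #(Mv τ p.1.1 p.1.2) := by
      intro h3
      exact hcand ⟨p.1.1, p.1.2, ⟨core univ τ R, hidx, hspec⟩, p.2, h3⟩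
    rw [not_le] at h2
    have h3 := (core univ τ R).card_mul_index
    rw [Nat.card_eq_fintype_card (α := G)] at h3
    have h4 : Fintype.card G ≤ Nat.card (core univ τ R) * F := by
      rw [← h3]
      exact Nat.mul_le_mul_left _ hidx
    have hFr : (0 : ℝ) < F := by exact_mod_cast hF0
    have h5 : (Fintype.card G : ℝ) ≤ Nat.card (core univ τ R) * F := by exact_mod_cast h4
    have h6 : (#(Mv τ p.1.1 p.1.2) : ℝ) * (80 * F) < Fintype.card G := by
      rw [one_div, ← div_eq_inv_mul, lt_div_iff₀ (by positivity)] at h2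
      exact h2
    have h7 : (80 * #(Mv τ p.1.1 p.1.2) : ℝ) * F < Nat.card (core univ τ R) * F := by
      linarith
    have h8 : (80 * #(Mv τ p.1.1 p.1.2) : ℝ) < Nat.card (core univ τ R) :=
      lt_of_mul_lt_mul_right h7 hFr.le
    have h9 : 80 * #(Mv τ p.1.1 p.1.2) < Nat.card (core univ τ R) := by exact_mod_cast h8
    omega
  have h2 := beta_one hτ (core univ τ R) h1 hspec hmv
  rw [hp2, mul_one] at h2
  exact h2

theorem main_fraction (ε : ℝ) (hε : 0 < ε) : ∃ N₀ : ℕ,
    ∀ (G : Type) [Group G] [Fintype G] (τ : G → G), IsTr τ → N₀ ≤ Fintype.card G →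
    (Nat.card {R : Finset G // ¬ (Sep univ τ R ∧ Diag τ R)} : ℝ) ≤
      ε * 2 ^ Fintype.card G := by
  obtain ⟨F, hF0, hF⟩ := exists_index_bound
  have hFr : (0 : ℝ) < F := by exact_mod_cast hF0
  obtain ⟨N₁, h₁⟩ := sep_fraction (ε / 4) (by positivity)
  obtain ⟨N₂, h₂⟩ := bad_fraction (ε / 4) (1 / 4000) (by positivity) (by norm_num)
  obtain ⟨N₃, h₃⟩ := orbit_fraction (ε / 4) (by positivity)
  obtain ⟨N₄, h₄⟩ := cand_fraction F (ε / 4) (1 / (80 * F)) (by positivity) (by positivity)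
  refine ⟨max (4000 * 5868000) (max N₁ (max N₂ (max N₃ N₄))), ?_⟩
  intro G _ _ τ hτ hN
  classical
  have hN0 : 4000 * 5868000 ≤ Fintype.card G := (le_max_left _ _).trans hN
  have hN' := (le_max_right _ _).trans hN
  have hN1 : N₁ ≤ Fintype.card G := (le_max_left _ _).trans hN'
  have hN'' := (le_max_right _ _).trans hN'
  have hN2 : N₂ ≤ Fintype.card G := (le_max_left _ _).trans hN''
  have hN''' := (le_max_right _ _).trans hN''
  have hN3 : N₃ ≤ Fintype.card G := (le_max_left _ _).trans hN'''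
  have hN4 : N₄ ≤ Fintype.card G := (le_max_right _ _).trans hN'''
  obtain ⟨c, hc1, hc2⟩ := exists_generic hτ
  have hgen : Generic τ c := by
    refine ⟨hτ, ?_, ?_⟩
    · rw [Nat.card_eq_fintype_card, Fintype.card_subtype, Nat.card_eq_fintype_card]
      exact hc1
    · rw [Nat.card_eq_fintype_card, Fintype.card_subtype]
      exact hc2
  have hX : #((univ : Finset G)ᶜ) ≤ 1 := by
    rw [compl_univ, card_empty]
    exact Nat.zero_le _
  have e₁ := h₁ G τ hτ hN1 univ hX
  have e₂ := h₂ G τ c hgen hN2 univ hX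
  have e₃ := h₃ G τ c hgen hN3 univ hX
  have e₄ := h₄ G τ hτ hN4
  rw [Nat.card_eq_fintype_card, Fintype.card_subtype] at e₁ e₃ e₄ ⊢
  have hsub : (univ.filter fun R : Finset G => ¬ (Sep univ τ R ∧ Diag τ R)) ⊆
      (univ.filter fun R : Finset G => ¬ Sep univ τ R) ∪
      ((univ.filter fun R : Finset G =>
        (1 / 4000 : ℝ) * Fintype.card G ≤ #(badU univ τ c R)) ∪
      ((univ.filter fun R : Finset G => ∃ (c' : Fin 9 → G) (j : Fin 9), c' 0 = c 0 ∧
        c' j ∉ Phi τ c ∧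
        ∀ J : Finset (Fin 9), cnt univ τ (J.image c) R = cnt univ τ (J.image c') R) ∪
      (univ.filter fun R : Finset G => ∃ α β : G → G, Cand F α β ∧ TF univ τ R α β ∧
        (1 / (80 * F) : ℝ) * Fintype.card G ≤ #(Mv τ α β)))) := by
    intro R hR
    rw [mem_filter] at hR
    by_contra hcon
    rw [mem_union, mem_union, mem_union, not_or, not_or, not_or] at hcon
    simp only [mem_filter, mem_univ, true_and] at hcon
    obtain ⟨c1, c2, c3, c4⟩ := hcon
    rw [not_not] at c1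
    rw [not_le] at c2
    apply hR.2
    refine ⟨c1, diag_of_good (c := c) hF0 hF hτ c1 hN0 ?_ c3 c4⟩
    have h5 : (4000 * #(badU univ τ c R) : ℝ) < Fintype.card G := by linarith
    have h6 : 4000 * #(badU univ τ c R) < Fintype.card G := by exact_mod_cast h5
    exact h6.le
  have u1 := card_le_card hsub
  have u2 := u1.trans ((card_union_le _ _).trans (Nat.add_le_add_left
    ((card_union_le _ _).trans (Nat.add_le_add_left (card_union_le _ _) _)) _))
  have u3 : ((univ.filter fun R : Finset G => ¬ (Sep univ τ R ∧ Diag τ R)).card : ℝ) ≤ _ :=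
    Nat.cast_le.2 u2
  push_cast at u3
  refine u3.trans ?_
  linarith

end Pool.Agent.N595.ST
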