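import Mathlib

/-!
# Graphs with loops, standard double covers, stability
-/

set_option autoImplicit false

namespace Pool.Agent.N595.ST

/-- An undirected graph without multiple edges, in which loops are allowed. -/
structure LGraph (V : Type) where
  /-- adjacency -/
  Adj : V → V → Prop
  /-- adjacency is symmetric -/
  symm : ∀ u v, Adj u v → Adj v u

/-- The automorphism group of a graph. -/
def LGraph.Aut {V : Type} (Γ : LGraph V) : Subgroup (Equiv.Perm V) where
  carrier := {φ | ∀ u v, Γ.Adj (φ u) (φ v) ↔ Γ.Adj u v}
  one_mem' := fun _ _ => Iff.rfl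
  mul_mem' := fun {a b} ha hb u v => (ha (b u) (b v)).trans (hb u v)
  inv_mem' := fun {a} ha u v => by
    have h := ha (a.symm u) (a.symm v)
    rw [a.apply_symm_apply, a.apply_symm_apply] at h
    exact h.symm

/-- The complete graph on two vertices. -/
def K2 : LGraph (Fin 2) where
  Adj x y := x ≠ y
  symm _ _ h := h.symm

/-- The direct product of two graphs. -/
def LGraph.times {V W : Type} (Γ : LGraph V) (Δ : LGraph W) : LGraph (V × W) where
  Adj p q := Γ.Adj p.1 q.1 ∧ Δ.Adj p.2 q.2
  symm _ _ h := ⟨Γ.symm _ _ h.1, Δ.symm _ _ h.2⟩

/-- A graph is stable if the automorphisms of its standard double cover, its direct product with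
the complete graph on two vertices, are exactly the pairs consisting of an automorphism of the
graph and an automorphism of the complete graph, acting coordinatewise. -/
def LGraph.Stable {V : Type} (Γ : LGraph V) : Prop :=
  ∀ σ : Equiv.Perm (V × Fin 2),
    σ ∈ (Γ.times K2).Aut ↔ ∃ φ ∈ Γ.Aut, ∃ π ∈ K2.Aut, σ = Equiv.prodCongr φ π

/-- The inverse-closed subsets of a group. -/
abbrev InvClosed (G : Type) [Group G] : Type := {S : Set G // ∀ s ∈ S, s⁻¹ ∈ S}

/-- The Cayley graph of a group with an inverse-closed connection set: `x` is adjacent to `y` if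
and only if `y * x⁻¹` belongs to the connection set. -/
def cayley {G : Type} [Group G] (S : InvClosed G) : LGraph G where
  Adj x y := y * x⁻¹ ∈ S.1
  symm x y h := by
    have h1 := S.2 _ h
    rwa [mul_inv_rev, inv_inv] at h1

/-- The proportion of the inverse-closed subsets with a stable Cayley graph. -/
noncomputable def stableProp (G : Type) [Group G] : ℝ :=
  (Nat.card {S : InvClosed G // (cayley S).Stable} : ℝ) / Nat.card (InvClosed G)

end Pool.Agent.N595.ST
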