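import Pool.Agent.N595.ST.Events

/-!
# Candidates which move many elements are not automorphisms
-/

set_option autoImplicit false
set_option linter.unusedSectionVars false

namespace Pool.Agent.N595.ST

open Finset Pool.Agent.N595.RC

theorem count_equal_key {α : Type*} [Fintype α] [DecidableEq α] (P : Finset α) (f : α → α)
    (k : α → ℕ) (hk : ∀ p ∈ P, k (f p) < k p) :
    #{R : Finset α | ∀ p ∈ P, (p ∈ R ↔ f p ∈ R)} * 2 ^ #P ≤ 2 ^ Fintype.card α := by
  have h1 : #{R : Finset α | ∀ p ∈ P, (p ∈ R ↔ f p ∈ R)} ≤ #(Pᶜ).powerset := by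
    refine card_le_card_of_injOn (fun R => R \ P) ?_ ?_
    · intro R _
      rw [mem_coe, mem_powerset]
      intro x hx
      rw [mem_compl]
      exact (mem_sdiff.1 hx).2
    · intro R hR R' hR' h
      rw [mem_coe, mem_filter] at hR hR'
      have hkey : ∀ n : ℕ, ∀ x, k x = n → (x ∈ R ↔ x ∈ R') := by
        intro n
        induction n using Nat.strong_induction_on with
        | _ n ih =>
          intro x hx
          by_cases hxP : x ∈ P
          · rw [hR.2 x hxP, hR'.2 x hxP]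
            exact ih (k (f x)) (hx ▸ hk x hxP) (f x) rfl
          · have h2 : x ∈ R \ P ↔ x ∈ R' \ P := by
              have : R \ P = R' \ P := h
              rw [this]
            rw [mem_sdiff, mem_sdiff] at h2
            exact ⟨fun h3 => (h2.1 ⟨h3, hxP⟩).1, fun h3 => (h2.2 ⟨h3, hxP⟩).1⟩
      ext x
      exact hkey (k x) x rfl
  rw [card_powerset, card_compl] at h1
  calc #{R : Finset α | ∀ p ∈ P, (p ∈ R ↔ f p ∈ R)} * 2 ^ #P
      ≤ 2 ^ (Fintype.card α - #P) * 2 ^ #P := Nat.mul_le_mul_right _ h1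
    _ = 2 ^ Fintype.card α := by
        rw [← pow_add, Nat.sub_add_cancel (card_le_univ P)]

theorem count_equal {α : Type*} [Fintype α] [DecidableEq α] (P : Finset α) (f : α → α)
    (hf : ∀ p ∈ P, f p ≠ p) (d : ℕ) (hd : 2 * d ≤ #P) :
    #{R : Finset α | ∀ p ∈ P, (p ∈ R ↔ f p ∈ R)} * 2 ^ d ≤ 2 ^ Fintype.card α := by
  have e := Fintype.equivFin α
  -- two keys
  obtain ⟨P₀, hP₀⟩ : ∃ P₀ : Finset α, P₀ = P.filter fun p => (e (f p) : ℕ) < e p := ⟨_, rfl⟩
  obtain ⟨P₁, hP₁⟩ : ∃ P₁ : Finset α, P₁ = P.filter fun p => (e p : ℕ) < e (f p) := ⟨_, rfl⟩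
  have hcov : #P ≤ #P₀ + #P₁ := by
    have h1 : P ⊆ P₀ ∪ P₁ := by
      intro p hp
      rw [mem_union, hP₀, hP₁, mem_filter, mem_filter]
      rcases lt_trichotomy (e (f p) : ℕ) (e p) with h | h | h
      · exact Or.inl ⟨hp, h⟩
      · exact absurd (e.injective (Fin.ext h)) (hf p hp)
      · exact Or.inr ⟨hp, h⟩
    exact (card_le_card h1).trans (card_union_le _ _)
  have hmain : ∀ (Q : Finset α) (k : α → ℕ), Q ⊆ P → (∀ p ∈ Q, k (f p) < k p) → d ≤ #Q →
      #{R : Finset α | ∀ p ∈ P, (p ∈ R ↔ f p ∈ R)} * 2 ^ d ≤ 2 ^ Fintype.card α := by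
    intro Q k hQP hk hdQ
    refine le_trans ?_ (count_equal_key Q f k hk)
    refine Nat.mul_le_mul (card_le_card fun R hR => ?_) (Nat.pow_le_pow_right (by norm_num) hdQ)
    rw [mem_filter] at hR ⊢
    exact ⟨mem_univ _, fun p hp => hR.2 p (hQP hp)⟩
  by_cases h0 : d ≤ #P₀
  · refine hmain P₀ (fun p => e p) (by rw [hP₀]; exact filter_subset _ _) ?_ h0
    intro p hp
    rw [hP₀, mem_filter] at hp
    exact hp.2
  · refine hmain P₁ (fun p => Fintype.card α - e p) (by rw [hP₁]; exact filter_subset _ _) ?_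
      (by omega)
    intro p hp
    rw [hP₁, mem_filter] at hp
    have h1 := (e p).isLt
    have h2 := (e (f p)).isLt
    have h3 := hp.2
    show Fintype.card α - (e (f p) : ℕ) < Fintype.card α - (e p : ℕ)
    omega

open Classical in
/-- The elements moved by a pair of maps. -/
noncomputable def Mv {G : Type} [Group G] [Fintype G] (τ : G → G) (α β : G → G) : Finset G :=
  {z | ∃ u, τ (α u * β (u⁻¹ * z)) ≠ τ z}

/-- `(α, β)` preserves the random relation. -/
def TF {G : Type} [Group G] (X : Finset G) (τ : G → G) (R : Finset G) (α β : G → G) : Prop :=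
  ∀ u h, Mm X τ R (u * h) ↔ Mm X τ R (α u * β h)

theorem Mm_univ {G : Type} [Fintype G] (τ : G → G) (R : Finset G) (y : G) :
    Mm univ τ R y ↔ τ y ∈ R := by
  unfold Mm
  simp

open Classical in
theorem count_TF {G : Type} [Group G] [Fintype G] {τ : G → G} (hτ : IsTr τ)
    (α β : G → G) (d : ℕ) (hd : 4 * d ≤ #(Mv τ α β)) :
    #{R : Finset G | TF univ τ R α β} * 2 ^ d ≤ 2 ^ Fintype.card G := by
  obtain ⟨P, hP⟩ : ∃ P : Finset G, P = (Mv τ α β).image τ := ⟨_, rfl⟩
  have hex : ∀ p : G, ∃ q : G, p ∈ P → q ≠ p ∧ ∃ z u, τ z = p ∧ τ (α u * β (u⁻¹ * z)) = q := by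
    intro p
    by_cases hp : p ∈ P
    · rw [hP, mem_image] at hp
      obtain ⟨z, hz, rfl⟩ := hp
      unfold Mv at hz
      rw [mem_filter] at hz
      obtain ⟨-, u, hu⟩ := hz
      exact ⟨_, fun _ => ⟨hu, z, u, rfl, rfl⟩⟩
    · exact ⟨1, fun h => absurd h hp⟩
  choose f hf using hex
  have hcard : #(Mv τ α β) ≤ 2 * #P := by
    rw [hP]
    refine card_le_mul_card_image (Mv τ α β) 2 fun a ha => ?_
    refine (card_le_card (t := {a, a⁻¹}) fun z hz => ?_).trans card_le_two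
    rw [mem_filter] at hz
    rcases hτ.mem hz.2 with h | h
    · rw [h]; simp
    · rw [h]; simp
  refine le_trans (Nat.mul_le_mul_right _ (card_le_card fun R hR => ?_))
    (count_equal P f (fun p hp => (hf p hp).1) d (by omega))
  rw [mem_filter] at hR ⊢
  refine ⟨mem_univ _, fun p hp => ?_⟩
  obtain ⟨-, z, u, hz, hu⟩ := hf p hp
  have h1 := hR.2 u (u⁻¹ * z)
  rw [Mm_univ, Mm_univ, hu, mul_inv_cancel_left, hz] at h1
  exact h1

/-- A candidate for an automorphism. -/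
def Cand {G : Type} [Group G] (n : ℕ) (α β : G → G) : Prop :=
  ∃ M : Subgroup G, M.index ≤ n ∧ ∀ m ∈ M, ∃ m' : G,
    (∀ u, α (u * m) = α u * m') ∧ ∀ h, β (m⁻¹ * h) = m'⁻¹ * β h

theorem exists_gens {G : Type} [Group G] [Finite G] (M : Subgroup G) :
    ∃ T : Finset G, Subgroup.closure (T : Set G) = M ∧ 2 ^ #T ≤ Nat.card M := by
  classical
  have := Fintype.ofFinite G
  obtain ⟨F, hF⟩ : ∃ F : Finset (Finset G), F = univ.filter fun T : Finset G =>
    Subgroup.closure (T : Set G) ≤ M ∧ 2 ^ #T ≤ Nat.card (Subgroup.closure (T : Set G)) :=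
    ⟨_, rfl⟩
  have hne : F.Nonempty := ⟨∅, by
    rw [hF, mem_filter]
    refine ⟨mem_univ _, ?_, ?_⟩
    · rw [coe_empty, Subgroup.closure_empty]
      exact bot_le
    · rw [card_empty, pow_zero]
      exact Nat.card_pos⟩
  obtain ⟨T, hT, hmax⟩ := F.exists_max_image (fun T => #T) hne
  rw [hF, mem_filter] at hT
  obtain ⟨-, hT1, hT2⟩ := hT
  have heq : Subgroup.closure (T : Set G) = M := by
    by_contra hneq
    have hlt : Subgroup.closure (T : Set G) < M := lt_of_le_of_ne hT1 hneq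
    obtain ⟨x, hxM, hxT⟩ := SetLike.exists_of_lt hlt
    have hxT' : x ∉ T := fun h => hxT (Subgroup.subset_closure h)
    have hle : Subgroup.closure (T : Set G) ≤ Subgroup.closure ((insert x T : Finset G) : Set G) :=
      Subgroup.closure_mono (by rw [coe_insert]; exact Set.subset_insert _ _)
    have hx2 : x ∈ Subgroup.closure ((insert x T : Finset G) : Set G) :=
      Subgroup.subset_closure (mem_coe.2 (mem_insert_self _ _))
    have h2 : insert x T ∈ F := by
      rw [hF, mem_filter]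
      refine ⟨mem_univ _, ?_, ?_⟩
      · rw [Subgroup.closure_le]
        intro y hy
        rw [mem_coe, mem_insert] at hy
        rcases hy with rfl | hy
        · exact hxM
        · exact hT1 (Subgroup.subset_closure hy)
      · rw [card_insert_of_notMem hxT', pow_succ]
        have h3 := Subgroup.card_dvd_of_le hle
        obtain ⟨k, hk⟩ := h3
        have hpos : 0 < Nat.card (Subgroup.closure ((insert x T : Finset G) : Set G)) :=
          Nat.card_pos
        have hk2 : 2 ≤ k := by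
          by_contra hcon
          have hk01 : k = 0 ∨ k = 1 := by omega
          rcases hk01 with h0 | h1
          · rw [h0, mul_zero] at hk
            omega
          · rw [h1, mul_one] at hk
            have h4 := Subgroup.eq_of_le_of_card_ge hle (by rw [hk])
            rw [h4] at hxT
            exact hxT hx2
        rw [hk]
        exact Nat.mul_le_mul hT2 hk2
    have h3 := hmax _ h2
    rw [card_insert_of_notMem hxT'] at h3
    omega
  exact ⟨T, heq, by rw [← heq]; exact hT2⟩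

theorem exists_cover {G : Type} [Group G] [Finite G] (M : Subgroup G) (n : ℕ)
    (hn : M.index ≤ n) : ∃ g : Fin n → G, ∀ u, ∃ i, (g i)⁻¹ * u ∈ M := by
  classical
  have := Fintype.ofFinite G
  have : Fintype (G ⧸ M) := Fintype.ofFinite _
  have h1 : Fintype.card (G ⧸ M) ≤ Fintype.card (Fin n) := by
    rw [Fintype.card_fin, ← Nat.card_eq_fintype_card]
    exact hn
  obtain ⟨e⟩ := Function.Embedding.nonempty_of_card_le h1
  obtain ⟨s, hs⟩ : ∃ s : Fin n → G ⧸ M, ∀ q, s (e q) = q :=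
    ⟨Function.invFun e, Function.leftInverse_invFun e.injective⟩
  refine ⟨fun i => (s i).out, fun u => ⟨e (u : G ⧸ M), ?_⟩⟩
  show ((s (e (u : G ⧸ M))).out)⁻¹ * u ∈ M
  rw [hs]
  exact QuotientGroup.eq.1 (QuotientGroup.out_eq' _)

/-- Code data for a candidate. -/
abbrev Code (G : Type) (k n : ℕ) : Type :=
  ((Fin k → G) × (Fin k → G)) × (((Fin n → G) × (Fin n → G)) × ((Fin n → G) × (Fin n → G)))

/-- The code describes the candidate. -/
structure Rel {G : Type} [Group G] {k n : ℕ} (x : Code G k n) (α β : G → G) : Prop where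
  r1 : ∀ i u, α (u * x.1.1 i) = α u * x.1.2 i
  r2 : ∀ i v, β ((x.1.1 i)⁻¹ * v) = (x.1.2 i)⁻¹ * β v
  r3 : ∀ i, α (x.2.1.1 i) = x.2.1.2 i
  r4 : ∀ i, β (x.2.2.1 i) = x.2.2.2 i
  r5 : ∀ u, ∃ i, (x.2.1.1 i)⁻¹ * u ∈ Subgroup.closure (Set.range x.1.1)
  r6 : ∀ v, ∃ i, x.2.2.1 i * v⁻¹ ∈ Subgroup.closure (Set.range x.1.1)

theorem Rel.unique {G : Type} [Group G] {k n : ℕ} {x : Code G k n} {α β α' β' : G → G}
    (h : Rel x α β) (h' : Rel x α' β') : α = α' ∧ β = β' := by
  have key : ∀ m ∈ Subgroup.closure (Set.range x.1.1), ∃ m' : G,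
      ((∀ u, α (u * m) = α u * m') ∧ ∀ v, β (m⁻¹ * v) = m'⁻¹ * β v) ∧
      ((∀ u, α' (u * m) = α' u * m') ∧ ∀ v, β' (m⁻¹ * v) = m'⁻¹ * β' v) := by
    intro m hm
    induction hm using Subgroup.closure_induction with
    | mem y hy =>
      obtain ⟨i, rfl⟩ := hy
      exact ⟨x.1.2 i, ⟨h.r1 i, h.r2 i⟩, h'.r1 i, h'.r2 i⟩
    | one => exact ⟨1, by simp⟩
    | mul a b _ _ ha hb =>
      obtain ⟨a', ⟨ha1, ha2⟩, ha3, ha4⟩ := ha
      obtain ⟨b', ⟨hb1, hb2⟩, hb3, hb4⟩ := hb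
      refine ⟨a' * b', ⟨fun u => ?_, fun v => ?_⟩, fun u => ?_, fun v => ?_⟩
      · rw [← mul_assoc, hb1, ha1, mul_assoc]
      · rw [mul_inv_rev, mul_assoc, hb2, ha2, mul_inv_rev, mul_assoc]
      · rw [← mul_assoc, hb3, ha3, mul_assoc]
      · rw [mul_inv_rev, mul_assoc, hb4, ha4, mul_inv_rev, mul_assoc]
    | inv a _ ha =>
      obtain ⟨a', ⟨ha1, ha2⟩, ha3, ha4⟩ := ha
      refine ⟨a'⁻¹, ⟨fun u => ?_, fun v => ?_⟩, fun u => ?_, fun v => ?_⟩
      · have := ha1 (u * a⁻¹)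
        rw [inv_mul_cancel_right] at this
        rw [this, mul_inv_cancel_right]
      · have := ha2 (a⁻¹⁻¹ * v)
        rw [inv_inv, inv_mul_cancel_left] at this
        rw [inv_inv, inv_inv, this, mul_inv_cancel_left]
      · have := ha3 (u * a⁻¹)
        rw [inv_mul_cancel_right] at this
        rw [this, mul_inv_cancel_right]
      · have := ha4 (a⁻¹⁻¹ * v)
        rw [inv_inv, inv_mul_cancel_left] at this
        rw [inv_inv, inv_inv, this, mul_inv_cancel_left]
  constructor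
  · funext u
    obtain ⟨i, hi⟩ := h.r5 u
    obtain ⟨m', ⟨h1, -⟩, h2, -⟩ := key _ hi
    have e1 := h1 (x.2.1.1 i)
    have e2 := h2 (x.2.1.1 i)
    rw [mul_inv_cancel_left] at e1 e2
    rw [e1, e2, h.r3, h'.r3]
  · funext v
    obtain ⟨i, hi⟩ := h.r6 v
    obtain ⟨m', ⟨-, h1⟩, -, h2⟩ := key _ hi
    have e1 := h1 (x.2.2.1 i)
    have e2 := h2 (x.2.2.1 i)
    rw [mul_inv_rev, inv_inv, inv_mul_cancel_right] at e1 e2
    rw [e1, e2, h.r4, h'.r4]

theorem Cand.exists_code {G : Type} [Group G] [Fintype G] {n : ℕ} {α β : G → G}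
    (h : Cand n α β) : ∃ x : Code G (Nat.log 2 (Fintype.card G) + 1) n, Rel x α β := by
  classical
  obtain ⟨M, hM, hMm⟩ := h
  obtain ⟨T, hT1, hT2⟩ := exists_gens M
  have hTk : #T ≤ Nat.log 2 (Fintype.card G) := by
    refine Nat.le_log_of_pow_le (by norm_num) (hT2.trans ?_)
    rw [← Nat.card_eq_fintype_card]
    exact Nat.card_le_card_of_injective _ Subtype.val_injective
  have hT' : #(insert 1 T) ≤ Nat.log 2 (Fintype.card G) + 1 :=
    (card_insert_le _ _).trans (by omega)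
  have h1 : Fintype.card ((insert 1 T : Finset G) : Type) ≤
      Fintype.card (Fin (Nat.log 2 (Fintype.card G) + 1)) := by
    rw [Fintype.card_coe, Fintype.card_fin]
    exact hT'
  obtain ⟨e⟩ := Function.Embedding.nonempty_of_card_le h1
  have : Nonempty ((insert 1 T : Finset G) : Type) := ⟨⟨1, mem_insert_self _ _⟩⟩
  obtain ⟨x, hx⟩ : ∃ x : Fin (Nat.log 2 (Fintype.card G) + 1) → G,
    x = fun i => (Function.invFun e i).1 := ⟨_, rfl⟩
  have hxrange : Set.range x = ((insert 1 T : Finset G) : Set G) := by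
    ext y
    constructor
    · rintro ⟨i, rfl⟩
      rw [hx]
      exact (Function.invFun e i).2
    · intro hy
      refine ⟨e ⟨y, hy⟩, ?_⟩
      rw [hx]
      show (Function.invFun e (e ⟨y, hy⟩)).1 = y
      rw [Function.leftInverse_invFun e.injective]
  have hclos : Subgroup.closure (Set.range x) = M := by
    rw [hxrange, ← hT1]
    apply le_antisymm
    · rw [Subgroup.closure_le]
      intro y hy
      rw [mem_coe, mem_insert] at hy
      rcases hy with rfl | hy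
      · exact Subgroup.one_mem _
      · exact Subgroup.subset_closure hy
    · exact Subgroup.closure_mono (by rw [coe_insert]; exact Set.subset_insert _ _)
  have hxM : ∀ i, x i ∈ M := by
    intro i
    rw [← hclos]
    exact Subgroup.subset_closure ⟨i, rfl⟩
  choose y hy using fun i => hMm (x i) (hxM i)
  obtain ⟨g, hg⟩ := exists_cover M n hM
  refine ⟨((x, y), ((g, fun i => α (g i)), (fun i => (g i)⁻¹, fun i => β ((g i)⁻¹)))), ?_⟩
  refine ⟨fun i => (hy i).1, fun i => (hy i).2, fun i => rfl, fun i => rfl, fun u => ?_,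
    fun v => ?_⟩
  · obtain ⟨i, hi⟩ := hg u
    exact ⟨i, by rw [hclos]; exact hi⟩
  · obtain ⟨i, hi⟩ := hg v⁻¹
    exact ⟨i, by rw [hclos]; exact hi⟩

open Classical in
theorem card_Cand (G : Type) [Group G] [Fintype G] (n : ℕ) :
    #{p : (G → G) × (G → G) | Cand n p.1 p.2} ≤
      Fintype.card G ^ (2 * (Nat.log 2 (Fintype.card G) + 1) + 4 * n) := by
  have h0 : ∀ p : (G → G) × (G → G), ∃ x : Code G (Nat.log 2 (Fintype.card G) + 1) n,
      Cand n p.1 p.2 → Rel x p.1 p.2 := by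
    intro p
    by_cases hp : Cand n p.1 p.2
    · obtain ⟨x, hx⟩ := hp.exists_code
      exact ⟨x, fun _ => hx⟩
    · exact ⟨((fun _ => 1, fun _ => 1), ((fun _ => 1, fun _ => 1), (fun _ => 1, fun _ => 1))),
        fun h => absurd h hp⟩
  choose F hF using h0
  have h1 : #{p : (G → G) × (G → G) | Cand n p.1 p.2} ≤
      #(univ : Finset (Code G (Nat.log 2 (Fintype.card G) + 1) n)) := by
    refine card_le_card_of_injOn F (fun _ _ => mem_coe.2 (mem_univ _)) ?_
    intro p hp q hq hpq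
    rw [mem_coe, mem_filter] at hp hq
    have h2 := hF p hp.2
    have h3 := hF q hq.2
    rw [← hpq] at h3
    obtain ⟨h4, h5⟩ := h2.unique h3
    exact Prod.ext h4 h5
  refine h1.trans (le_of_eq ?_)
  rw [card_univ]
  simp only [Fintype.card_prod, Fintype.card_fun, Fintype.card_fin]
  ring

theorem growth (n L : ℕ) (η : ℝ) (hη : 0 < η) : ∃ k₀ : ℕ, ∀ k : ℕ, k₀ ≤ k →
    (((k + 1) * (2 * (k + 1) + 4 * n) + L + 1 : ℕ) : ℝ) ≤ η * 2 ^ k := by
  have h := tendsto_pow_const_div_const_pow_of_one_lt 2 (r := (2 : ℝ)) (by norm_num)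
  have hδ : 0 < η / (4 * (4 * n + L + 3)) := by positivity
  have h1 := h.eventually (gt_mem_nhds hδ)
  rw [Filter.eventually_atTop] at h1
  obtain ⟨k₀, hk₀⟩ := h1
  refine ⟨max 1 k₀, fun k hk => ?_⟩
  have hk1 : 1 ≤ k := (le_max_left _ _).trans hk
  have hk1' : (1 : ℝ) ≤ k := by exact_mod_cast hk1
  have h2 := hk₀ k ((le_max_right _ _).trans hk)
  rw [div_lt_iff₀ (by positivity)] at h2
  have h3 : (((k + 1) * (2 * (k + 1) + 4 * n) + L + 1 : ℕ) : ℝ) ≤
      4 * (4 * n + L + 3) * (k : ℝ) ^ 2 := by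
    push_cast
    have hn : (0 : ℝ) ≤ n := by positivity
    have hL : (0 : ℝ) ≤ L := by positivity
    have hk2 : (k : ℝ) ≤ (k : ℝ) ^ 2 := by nlinarith
    have hk3 : (1 : ℝ) ≤ (k : ℝ) ^ 2 := by nlinarith
    have e1 : (n : ℝ) * k ≤ n * (k : ℝ) ^ 2 := mul_le_mul_of_nonneg_left hk2 hn
    have e2 : (n : ℝ) * 1 ≤ n * (k : ℝ) ^ 2 := mul_le_mul_of_nonneg_left hk3 hn
    have e3 : (L : ℝ) * 1 ≤ L * (k : ℝ) ^ 2 := mul_le_mul_of_nonneg_left hk3 hL
    nlinarith
  calc (((k + 1) * (2 * (k + 1) + 4 * n) + L + 1 : ℕ) : ℝ)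
      ≤ 4 * (4 * n + L + 3) * (k : ℝ) ^ 2 := h3
    _ ≤ 4 * (4 * n + L + 3) * (η / (4 * (4 * n + L + 3)) * 2 ^ k) :=
        mul_le_mul_of_nonneg_left h2.le (by positivity)
    _ = η * 2 ^ k := by field_simp

open Classical in
theorem cand_fraction (n : ℕ) (ε η : ℝ) (hε : 0 < ε) (hη : 0 < η) : ∃ N₀ : ℕ,
    ∀ (G : Type) [Group G] [Fintype G] (τ : G → G), IsTr τ → N₀ ≤ Fintype.card G →
    (Nat.card {R : Finset G // ∃ α β : G → G, Cand n α β ∧ TF univ τ R α β ∧
      η * Fintype.card G ≤ #(Mv τ α β)} : ℝ) ≤ ε * 2 ^ Fintype.card G := by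
  obtain ⟨L, hL⟩ := exists_pow_lt_of_lt_one hε (by norm_num : (1 / 2 : ℝ) < 1)
  obtain ⟨k₀, hk₀⟩ := growth n L (η / 4) (by positivity)
  refine ⟨2 ^ k₀, ?_⟩
  intro G _ _ τ hτ hN
  obtain ⟨k, hk⟩ : ∃ k : ℕ, k = Nat.log 2 (Fintype.card G) := ⟨_, rfl⟩
  have hN0 : Fintype.card G ≠ 0 := Fintype.card_ne_zero
  have hk1 : k₀ ≤ k := by
    rw [hk]
    exact Nat.le_log_of_pow_le (by norm_num) hN
  have hk2 : 2 ^ k ≤ Fintype.card G := by
    rw [hk]
    exact Nat.pow_log_le_self 2 hN0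
  have hk3 : Fintype.card G ≤ 2 ^ (k + 1) := by
    rw [hk]
    exact (Nat.lt_pow_succ_log_self (by norm_num) _).le
  have hk2' : (2 : ℝ) ^ k ≤ Fintype.card G := by exact_mod_cast hk2
  obtain ⟨d, hd⟩ : ∃ d : ℕ, d = ⌊η * Fintype.card G / 4⌋₊ := ⟨_, rfl⟩
  have hd1 : (4 * d : ℝ) ≤ η * Fintype.card G := by
    have : (d : ℝ) ≤ η * Fintype.card G / 4 := by
      rw [hd]
      exact Nat.floor_le (by positivity)
    linarith
  have hd2 : η * Fintype.card G / 4 < d + 1 := by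
    rw [hd]
    exact Nat.lt_floor_add_one _
  have hdk : (k + 1) * (2 * (k + 1) + 4 * n) + L ≤ d := by
    have h1 := hk₀ k hk1
    have h2 : η / 4 * 2 ^ k ≤ η / 4 * Fintype.card G :=
      mul_le_mul_of_nonneg_left hk2' (by positivity)
    have h3 : (((k + 1) * (2 * (k + 1) + 4 * n) + L + 1 : ℕ) : ℝ) < ((d + 1 : ℕ) : ℝ) := by
      push_cast at h1 ⊢
      linarith
    have h4 : (k + 1) * (2 * (k + 1) + 4 * n) + L + 1 < d + 1 := by exact_mod_cast h3
    omega
  -- the union bound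
  obtain ⟨C, hC⟩ : ∃ C : Finset ((G → G) × (G → G)), C = univ.filter fun p =>
    Cand n p.1 p.2 := ⟨_, rfl⟩
  have hCcard : #C ≤ 2 ^ ((k + 1) * (2 * (k + 1) + 4 * n)) := by
    have h1 := card_Cand G n
    rw [← hC, ← hk] at h1
    refine h1.trans ?_
    rw [pow_mul]
    exact Nat.pow_le_pow_left hk3 _
  have hsub : (univ.filter fun R : Finset G => ∃ α β : G → G, Cand n α β ∧ TF univ τ R α β ∧
      η * Fintype.card G ≤ #(Mv τ α β)) ⊆
      C.biUnion fun p => univ.filter fun R : Finset G => TF univ τ R p.1 p.2 ∧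
        4 * d ≤ #(Mv τ p.1 p.2) := by
    intro R hR
    rw [mem_filter] at hR
    obtain ⟨-, α, β, h1, h2, h3⟩ := hR
    rw [mem_biUnion]
    refine ⟨(α, β), by rw [hC]; exact mem_filter.2 ⟨mem_univ _, h1⟩,
      mem_filter.2 ⟨mem_univ _, h2, ?_⟩⟩
    have h4 : ((4 * d : ℕ) : ℝ) ≤ (#(Mv τ α β) : ℝ) := by
      push_cast
      linarith
    exact_mod_cast h4
  have hone : ∀ p : (G → G) × (G → G), #(univ.filter fun R : Finset G =>
      TF univ τ R p.1 p.2 ∧ 4 * d ≤ #(Mv τ p.1 p.2)) * 2 ^ d ≤ 2 ^ Fintype.card G := by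
    intro p
    by_cases hp : 4 * d ≤ #(Mv τ p.1 p.2)
    · refine le_trans (Nat.mul_le_mul_right _ (card_le_card fun R hR => ?_))
        (count_TF hτ p.1 p.2 d hp)
      rw [mem_filter] at hR ⊢
      exact ⟨mem_univ _, hR.2.1⟩
    · have : (univ.filter fun R : Finset G =>
          TF univ τ R p.1 p.2 ∧ 4 * d ≤ #(Mv τ p.1 p.2)) = ∅ := by
        rw [Finset.filter_eq_empty_iff]
        intro R _ h
        exact hp h.2
      rw [this, card_empty, zero_mul]
      exact Nat.zero_le _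
  rw [Nat.card_eq_fintype_card, Fintype.card_subtype]
  have htot : #(univ.filter fun R : Finset G => ∃ α β : G → G, Cand n α β ∧
      TF univ τ R α β ∧ η * Fintype.card G ≤ #(Mv τ α β)) * 2 ^ d ≤
      2 ^ ((k + 1) * (2 * (k + 1) + 4 * n)) * 2 ^ Fintype.card G := by
    calc _ ≤ (∑ p ∈ C, #(univ.filter fun R : Finset G =>
            TF univ τ R p.1 p.2 ∧ 4 * d ≤ #(Mv τ p.1 p.2))) * 2 ^ d :=
          Nat.mul_le_mul_right _ ((card_le_card hsub).trans card_biUnion_le)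
      _ = ∑ p ∈ C, #(univ.filter fun R : Finset G =>
            TF univ τ R p.1 p.2 ∧ 4 * d ≤ #(Mv τ p.1 p.2)) * 2 ^ d := by
          rw [Finset.sum_mul]
      _ ≤ ∑ p ∈ C, 2 ^ Fintype.card G := Finset.sum_le_sum fun p _ => hone p
      _ = #C * 2 ^ Fintype.card G := by rw [Finset.sum_const, smul_eq_mul]
      _ ≤ _ := Nat.mul_le_mul_right _ hCcard
  have htot' : (#(univ.filter fun R : Finset G => ∃ α β : G → G, Cand n α β ∧
      TF univ τ R α β ∧ η * Fintype.card G ≤ #(Mv τ α β)) : ℝ) * 2 ^ d ≤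
      2 ^ ((k + 1) * (2 * (k + 1) + 4 * n)) * 2 ^ Fintype.card G := by exact_mod_cast htot
  have hpow : (2 : ℝ) ^ ((k + 1) * (2 * (k + 1) + 4 * n)) * 2 ^ L ≤ 2 ^ d := by
    rw [← pow_add]
    exact pow_le_pow_right₀ (by norm_num) hdk
  have hεL : 1 ≤ ε * 2 ^ L := by
    have h1 : (1 / 2 : ℝ) ^ L * 2 ^ L = 1 := by
      rw [← mul_pow]
      norm_num
    have h2 : (1 / 2 : ℝ) ^ L * 2 ^ L ≤ ε * 2 ^ L :=
      mul_le_mul_of_nonneg_right hL.le (by positivity)
    linarith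
  have hfin : (#(univ.filter fun R : Finset G => ∃ α β : G → G, Cand n α β ∧
      TF univ τ R α β ∧ η * Fintype.card G ≤ #(Mv τ α β)) : ℝ) * 2 ^ d ≤
      (ε * 2 ^ Fintype.card G) * 2 ^ d := by
    calc _ ≤ 2 ^ ((k + 1) * (2 * (k + 1) + 4 * n)) * 2 ^ Fintype.card G * 1 := by
          rw [mul_one]
          exact htot'
      _ ≤ 2 ^ ((k + 1) * (2 * (k + 1) + 4 * n)) * 2 ^ Fintype.card G * (ε * 2 ^ L) :=
          mul_le_mul_of_nonneg_left hεL (by positivity)
      _ = ε * 2 ^ Fintype.card G * (2 ^ ((k + 1) * (2 * (k + 1) + 4 * n)) * 2 ^ L) := by ring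
      _ ≤ ε * 2 ^ Fintype.card G * 2 ^ d := mul_le_mul_of_nonneg_left hpow (by positivity)
  exact le_of_mul_le_mul_right hfin (by positivity)

end Pool.Agent.N595.ST
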