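import Pool.Agent.N595.RC.Triple

/-!
# Several integer functions of a random set which vanish simultaneously
-/

set_option autoImplicit false
set_option linter.unusedSectionVars false

namespace Pool.Agent.N595.ST

open Finset Pool.Agent.N595.RC

variable {α ι : Type*} [Fintype α] [DecidableEq α] [DecidableEq ι]

theorem multi_aux (P : Finset α) (E : α → Finset α) (Y : ι → α → Finset α)
    (hE : ∀ p ∈ P, Disjoint (E p) P) (δ : ι → Finset α → ℤ) (rk : ι → ℕ) (J : Finset ι)
    (h1 : ∀ i ∈ J, ∀ S, ∀ p ∈ P, p ∉ S → S ∩ E p = Y i p → δ i S < δ i (insert p S))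
    (h2 : ∀ i ∈ J, ∀ k ∈ J, i ≠ k → rk k ≤ rk i → ∀ S, ∀ p ∈ P, p ∉ S → S ∩ E p = Y k p →
      δ i (insert p S) = δ i S) :
    ∀ W : Finset α → ℝ, (∀ S, 0 ≤ W S) → (∀ S, ∀ p ∈ P, W (insert p S) = W S) →
    ∑ S : Finset α with (∀ i ∈ J, δ i S = 0), W S ≤
      ∑ S : Finset α, W S * ∏ i ∈ J, bet (hits P E (Y i) S) := by
  classical
  induction hn : #J generalizing J with
  | zero =>
    intro W _ _
    rw [card_eq_zero] at hn
    subst hn
    simp
  | succ n ih =>
    intro W hW0 hW
    have hne : J.Nonempty := by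
      rw [← card_pos]
      omega
    obtain ⟨k, hk, hmin⟩ := J.exists_min_image rk hne
    have hcard : #(J.erase k) = n := by
      rw [card_erase_of_mem hk]
      omega
    have ih' := ih (J.erase k) (fun i hi => h1 i (mem_of_mem_erase hi))
      (fun i hi l hl => h2 i (mem_of_mem_erase hi) l (mem_of_mem_erase hl)) hcard
      (fun S => W S * bet (hits P E (Y k) S))
      (fun S => mul_nonneg (hW0 S) (bet_nonneg _))
      (fun S p hp => by
        rw [hW S p hp, ← card_hitSet, hitSet_insert hE S hp, card_hitSet])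
    have s1 := step P (hitSet P E (Y k)) (hitSet_subset P E (Y k))
      (fun S S' h => hitSet_congr hE h) (δ k)
      (fun S p hp hpS => by
        rw [hitSet, mem_filter] at hp
        exact h1 k hk S p hp.1 hpS hp.2)
      (fun S => (if ∀ i ∈ J.erase k, δ i S = 0 then 1 else 0) * W S)
      (fun S => mul_nonneg (by positivity) (hW0 S))
      (fun S p hp hpS => by
        rw [hitSet, mem_filter] at hp
        rw [hW S p hp.1]
        congr 1
        have : (∀ i ∈ J.erase k, δ i (insert p S) = 0) ↔ (∀ i ∈ J.erase k, δ i S = 0) := by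
          refine forall₂_congr fun i hi => ?_
          rw [h2 i (mem_of_mem_erase hi) k hk (ne_of_mem_erase hi)
            (hmin i (mem_of_mem_erase hi)) S p hp.1 hpS hp.2]
        by_cases hc : ∀ i ∈ J.erase k, δ i S = 0
        · rw [if_pos hc, if_pos (this.2 hc)]
        · rw [if_neg hc, if_neg fun h => hc (this.1 h)])
    have e1 : ∑ S : Finset α with (∀ i ∈ J, δ i S = 0), W S =
        ∑ S : Finset α with δ k S = 0,
          (if ∀ i ∈ J.erase k, δ i S = 0 then 1 else 0) * W S := by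
      rw [Finset.sum_filter, Finset.sum_filter]
      refine Finset.sum_congr rfl fun S _ => ?_
      have hiff : (∀ i ∈ J, δ i S = 0) ↔ (δ k S = 0 ∧ ∀ i ∈ J.erase k, δ i S = 0) := by
        constructor
        · intro h
          exact ⟨h k hk, fun i hi => h i (mem_of_mem_erase hi)⟩
        · rintro ⟨h, h'⟩ i hi
          by_cases hik : i = k
          · rw [hik]
            exact h
          · exact h' i (mem_erase.2 ⟨hik, hi⟩)
      by_cases h : δ k S = 0
      · by_cases h' : ∀ i ∈ J.erase k, δ i S = 0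
        · rw [if_pos (hiff.2 ⟨h, h'⟩), if_pos h, if_pos h', one_mul]
        · rw [if_neg fun h'' => h' (hiff.1 h'').2, if_pos h, if_neg h', zero_mul]
      · rw [if_neg fun h'' => h (hiff.1 h'').1, if_neg h]
    have e2 : ∑ S : Finset α, (if ∀ i ∈ J.erase k, δ i S = 0 then 1 else 0) * W S *
        bet #(hitSet P E (Y k) S) =
        ∑ S : Finset α with (∀ i ∈ J.erase k, δ i S = 0), W S * bet (hits P E (Y k) S) := by
      rw [Finset.sum_filter]
      refine Finset.sum_congr rfl fun S _ => ?_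
      rw [card_hitSet]
      split_ifs
      · rw [one_mul]
      · rw [zero_mul, zero_mul]
    rw [e1]
    refine s1.trans ?_
    rw [e2]
    refine ih'.trans (le_of_eq ?_)
    refine Finset.sum_congr rfl fun S _ => ?_
    rw [mul_assoc, Finset.mul_prod_erase J (fun i => bet (hits P E (Y i) S)) hk]

/-- **Simultaneous anti-concentration.** -/
theorem multi (D : ℕ) (P : Finset α) (E : α → Finset α) (Y : ι → α → Finset α)
    (δ : ι → Finset α → ℤ) (rk : ι → ℕ) (J : Finset ι)
    (hE : ∀ p ∈ P, Disjoint (E p) P) (hY : ∀ i ∈ J, ∀ p ∈ P, Y i p ⊆ E p)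
    (hD : ∀ p ∈ P, #(E p) ≤ D) (hdisj : (P : Set α).PairwiseDisjoint E)
    (h1 : ∀ i ∈ J, ∀ S, ∀ p ∈ P, p ∉ S → S ∩ E p = Y i p → δ i S < δ i (insert p S))
    (h2 : ∀ i ∈ J, ∀ k ∈ J, i ≠ k → rk k ≤ rk i → ∀ S, ∀ p ∈ P, p ∉ S → S ∩ E p = Y k p →
      δ i (insert p S) = δ i S)
    (n : ℕ) (hn : 1 ≤ n) (hn' : 2 ^ (D + 2) * n ≤ #P) :
    (#{S : Finset α | ∀ i ∈ J, δ i S = 0} : ℝ) ≤
      2 ^ Fintype.card α *
        ((1 / Real.sqrt n) ^ #J + #J * Real.exp (-(#P / 2 ^ (D + 2) : ℝ))) := by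
  classical
  have m1 := multi_aux P E Y hE δ rk J h1 h2 (fun _ => 1) (fun _ => zero_le_one)
    (fun _ _ _ => rfl)
  rw [Finset.sum_const, nsmul_eq_mul, mul_one] at m1
  refine m1.trans ?_
  have hs : 0 ≤ 1 / Real.sqrt n := by positivity
  have s3 : ∀ S : Finset α, 1 * ∏ i ∈ J, bet (hits P E (Y i) S) ≤
      (1 / Real.sqrt n) ^ #J + ∑ i ∈ J, if hits P E (Y i) S ≤ n then (1 : ℝ) else 0 := by
    intro S
    rw [one_mul]
    by_cases h : ∃ i ∈ J, hits P E (Y i) S ≤ n
    · obtain ⟨i, hi, hin⟩ := h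
      have h3 : (1 : ℝ) ≤ ∑ i ∈ J, if hits P E (Y i) S ≤ n then (1 : ℝ) else 0 := by
        refine le_trans ?_ (Finset.single_le_sum (f := fun i =>
          if hits P E (Y i) S ≤ n then (1 : ℝ) else 0) (fun i _ => by positivity) hi)
        simp [hin]
      have h4 : ∏ i ∈ J, bet (hits P E (Y i) S) ≤ 1 :=
        Finset.prod_le_one (fun i _ => bet_nonneg _) (fun i _ => bet_le_one _)
      have h6 : (0 : ℝ) ≤ (1 / Real.sqrt n) ^ #J := by positivity
      linarith
    · push Not at h
      have h4 : ∏ i ∈ J, bet (hits P E (Y i) S) ≤ ∏ i ∈ J, 1 / Real.sqrt n :=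
        Finset.prod_le_prod (fun i _ => bet_nonneg _)
          (fun i hi => bet_le_of_le hn (h i hi).le)
      rw [Finset.prod_const] at h4
      have h3 : (0 : ℝ) ≤ ∑ i ∈ J, if hits P E (Y i) S ≤ n then (1 : ℝ) else 0 :=
        Finset.sum_nonneg fun k _ => by positivity
      linarith
  refine (Finset.sum_le_sum fun S _ => s3 S).trans ?_
  rw [Finset.sum_add_distrib, Finset.sum_const, nsmul_eq_mul, card_univ,
    Fintype.card_finset, mul_add, Finset.sum_comm]
  have s4 : ∀ i ∈ J, ∑ S : Finset α, (if hits P E (Y i) S ≤ n then (1 : ℝ) else 0) ≤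
      2 ^ Fintype.card α * Real.exp (-(#P / 2 ^ (D + 2) : ℝ)) := by
    intro i hi
    rw [Finset.sum_boole]
    exact few_hits D P E (Y i) (hY i hi) hD hdisj n hn'
  have s5 := Finset.sum_le_sum s4
  rw [Finset.sum_const, nsmul_eq_mul] at s5
  push_cast
  linarith

end Pool.Agent.N595.ST
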