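import Pool.Agent.N595.ST.Tuple

/-!
# Pairs of vertices with the same numbers of common neighbours with a generic tuple
-/

set_option autoImplicit false
set_option linter.unusedSectionVars false

namespace Pool.Agent.N595.ST

open Finset Pool.Agent.N595.RC

section

variable {G : Type*} [Group G] [Fintype G] [DecidableEq G]

theorem rigid {τ : G → G} {c : Fin 9 → G} {h₀ : G} (hZ : ¬ Zbad τ c h₀) {J : Finset (Fin 9)}
    (hJ : 3 ≤ #J) {h : G} {σ : Fin 9 → Fin 9}
    (hσ : ∀ j ∈ J, τ (c j * h) = τ (c (σ j) * h₀)) : ∀ j ∈ J, σ j = j := by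
  intro j₁ hj₁
  by_contra hne
  have h1 : 1 < #(J.erase j₁) := by
    rw [card_erase_of_mem hj₁]
    omega
  obtain ⟨i, hi, i', hi', hii'⟩ := Finset.one_lt_card.1 h1
  rw [mem_erase] at hi hi'
  by_cases h2 : σ i = j₁
  · by_cases h3 : σ i' = j₁
    · refine hZ ⟨h, i, i', σ i, σ i', hii'.symm, ?_, ?_, hσ i hi.2, hσ i' hi'.2⟩
      · rw [h2]; exact hi'.1
      · rw [h3]; exact hi'.1
    · exact hZ ⟨h, i', j₁, σ i', σ j₁, hi'.1.symm, fun h => h3 h.symm, fun h => hne h.symm,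
        hσ i' hi'.2, hσ j₁ hj₁⟩
  · exact hZ ⟨h, i, j₁, σ i, σ j₁, hi.1.symm, fun h => h2 h.symm, fun h => hne h.symm,
      hσ i hi.2, hσ j₁ hj₁⟩

theorem inj_of_not_Zbad {τ : G → G} {c : Fin 9 → G} {h₀ : G} (hZ : ¬ Zbad τ c h₀) :
    Function.Injective c := by
  intro j j' hjj'
  by_contra hne
  exact hZ ⟨h₀, j', j, j', j', hne, hne, hne, rfl, by rw [hjj']⟩

/-- Coincidences which depend on `u`, first kind. -/
def Bad1 (τ : G → G) (c : Fin 9 → G) (u h₀ : G) : Prop :=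
  ∃ (h : G) (j j₁ j₁' : Fin 9), τ (c j * h) = τ (u * h₀) ∧ τ (c j₁ * h) = τ (c j₁' * h₀)

/-- Coincidences which depend on `u`, second kind. -/
def Bad2 (τ : G → G) (c : Fin 9 → G) (u h₀ : G) : Prop :=
  ∃ j : Fin 9, τ (u * h₀) = τ (c j * h₀)

open Classical in
theorem card_Bad1 {τ : G → G} (hτ : IsTr τ) (c : Fin 9 → G) (h₀ : G) :
    #{u : G | Bad1 τ c u h₀} ≤ 2916 := by
  have h1 : #{u : G | Bad1 τ c u h₀} ≤
      ∑ j : Fin 9, ∑ j₁ : Fin 9, ∑ j₁' : Fin 9, ∑ b : Bool, ∑ b' : Bool,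
        #{u : G | u = sgn b (c j * ((c j₁)⁻¹ * sgn b' (c j₁' * h₀))) * h₀⁻¹} := by
    simp only [Finset.card_filter]
    simp only [Finset.sum_comm (s := (univ : Finset Bool)) (t := (univ : Finset G)),
      Finset.sum_comm (s := (univ : Finset (Fin 9))) (t := (univ : Finset G))]
    refine Finset.sum_le_sum fun u _ => ?_
    split_ifs with hu
    · obtain ⟨h, j, j₁, j₁', e1, e2⟩ := hu
      obtain ⟨b, hb⟩ := exists_sgn hτ e1.symm
      obtain ⟨b', hb'⟩ := exists_sgn hτ e2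
      have hcond : u = sgn b (c j * ((c j₁)⁻¹ * sgn b' (c j₁' * h₀))) * h₀⁻¹ := by
        rw [← hb', inv_mul_cancel_left, ← hb]
        group
      refine le_trans ?_ (Finset.single_le_sum (f := fun j => _) (fun _ _ => Nat.zero_le _)
        (mem_univ j))
      refine le_trans ?_ (Finset.single_le_sum (f := fun j₁ => _) (fun _ _ => Nat.zero_le _)
        (mem_univ j₁))
      refine le_trans ?_ (Finset.single_le_sum (f := fun i₀ => _) (fun _ _ => Nat.zero_le _)
        (mem_univ j₁'))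
      refine le_trans ?_ (Finset.single_le_sum (f := fun b => _) (fun _ _ => Nat.zero_le _)
        (mem_univ b))
      refine le_trans ?_ (Finset.single_le_sum (f := fun b' => _) (fun _ _ => Nat.zero_le _)
        (mem_univ b'))
      rw [if_pos hcond]
    · exact Nat.zero_le _
  refine h1.trans ?_
  have h2 : ∀ (j j₁ j₁' : Fin 9) (b b' : Bool),
      #{u : G | u = sgn b (c j * ((c j₁)⁻¹ * sgn b' (c j₁' * h₀))) * h₀⁻¹} ≤ 1 := by
    intro j j₁ j₁' b b'
    rw [Finset.filter_eq']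
    split_ifs <;> simp
  refine (Finset.sum_le_sum fun j _ => Finset.sum_le_sum fun j₁ _ => Finset.sum_le_sum
    fun j₁' _ => Finset.sum_le_sum fun b _ =>
    Finset.sum_le_sum fun b' _ => h2 j j₁ j₁' b b').trans (le_of_eq ?_)
  simp only [Finset.sum_const, card_univ, Fintype.card_fin, Fintype.card_bool, smul_eq_mul]

open Classical in
theorem card_Bad2 {τ : G → G} (hτ : IsTr τ) (c : Fin 9 → G) (h₀ : G) :
    #{u : G | Bad2 τ c u h₀} ≤ 18 := by
  have h1 : #{u : G | Bad2 τ c u h₀} ≤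
      ∑ j : Fin 9, ∑ b : Bool, #{u : G | u = sgn b (c j * h₀) * h₀⁻¹} := by
    simp only [Finset.card_filter]
    simp only [Finset.sum_comm (s := (univ : Finset Bool)) (t := (univ : Finset G)),
      Finset.sum_comm (s := (univ : Finset (Fin 9))) (t := (univ : Finset G))]
    refine Finset.sum_le_sum fun u _ => ?_
    split_ifs with hu
    · obtain ⟨j, e1⟩ := hu
      obtain ⟨b, hb⟩ := exists_sgn hτ e1
      have hcond : u = sgn b (c j * h₀) * h₀⁻¹ := by
        rw [← hb]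
        group
      refine le_trans ?_ (Finset.single_le_sum (f := fun j => _) (fun _ _ => Nat.zero_le _)
        (mem_univ j))
      refine le_trans ?_ (Finset.single_le_sum (f := fun b => _) (fun _ _ => Nat.zero_le _)
        (mem_univ b))
      rw [if_pos hcond]
    · exact Nat.zero_le _
  refine h1.trans ?_
  have h2 : ∀ (j : Fin 9) (b : Bool), #{u : G | u = sgn b (c j * h₀) * h₀⁻¹} ≤ 1 := by
    intro j b
    rw [Finset.filter_eq']
    split_ifs <;> simp
  refine (Finset.sum_le_sum fun j _ => Finset.sum_le_sum fun b _ => h2 j b).trans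
    (le_of_eq ?_)
  simp only [Finset.sum_const, card_univ, Fintype.card_fin, Fintype.card_bool, smul_eq_mul]

open Classical in
/-- The vertices for which few coincidences occur. -/
noncomputable def V1 (τ : G → G) (c : Fin 9 → G) : Finset G :=
  {u | 1000 * #{h₀ : G | Bad1 τ c u h₀ ∨ Bad2 τ c u h₀} ≤ Fintype.card G}

open Classical in
theorem card_compl_V1 {τ : G → G} (hτ : IsTr τ) (c : Fin 9 → G) :
    #(V1 τ c)ᶜ ≤ 2934000 := by
  have h1 : ∑ u : G, #{h₀ : G | Bad1 τ c u h₀ ∨ Bad2 τ c u h₀} ≤ 2934 * Fintype.card G := by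
    have h2 : ∑ u : G, #{h₀ : G | Bad1 τ c u h₀ ∨ Bad2 τ c u h₀} =
        ∑ h₀ : G, #{u : G | Bad1 τ c u h₀ ∨ Bad2 τ c u h₀} := by
      simp only [Finset.card_filter]
      rw [Finset.sum_comm]
    rw [h2]
    refine (Finset.sum_le_sum (g := fun _ => 2934) fun h₀ _ => ?_).trans (le_of_eq ?_)
    · rw [Finset.filter_or]
      refine (card_union_le _ _).trans ?_
      have := card_Bad1 hτ c h₀
      have := card_Bad2 hτ c h₀
      omega
    · rw [Finset.sum_const, card_univ, smul_eq_mul, mul_comm]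
  have h3 : #(V1 τ c)ᶜ * Fintype.card G ≤
      1000 * ∑ u : G, #{h₀ : G | Bad1 τ c u h₀ ∨ Bad2 τ c u h₀} := by
    rw [Finset.mul_sum, ← smul_eq_mul, ← Finset.sum_const]
    refine (Finset.sum_le_sum (f := fun _ => Fintype.card G)
      (g := fun u => 1000 * #{h₀ : G | Bad1 τ c u h₀ ∨ Bad2 τ c u h₀}) fun u hu => ?_).trans
      (Finset.sum_le_sum_of_subset (subset_univ _))
    rw [mem_compl, V1, mem_filter, not_and] at hu
    exact (not_le.1 (hu (mem_univ u))).le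
  have hN : 0 < Fintype.card G := Fintype.card_pos
  have h4 : #(V1 τ c)ᶜ * Fintype.card G ≤ 2934000 * Fintype.card G := by
    calc #(V1 τ c)ᶜ * Fintype.card G
        ≤ 1000 * ∑ u : G, #{h₀ : G | Bad1 τ c u h₀ ∨ Bad2 τ c u h₀} := h3
      _ ≤ 1000 * (2934 * Fintype.card G) := Nat.mul_le_mul_left _ h1
      _ = 2934000 * Fintype.card G := by ring
  exact Nat.le_of_mul_le_mul_right h4 hN

/-- The three index sets. -/
def ix : Fin 3 → Finset (Fin 9)
  | 0 => {0, 1, 2, 3, 4, 5, 6}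
  | 1 => {0, 1, 2, 3, 4, 5, 7}
  | 2 => {0, 1, 2, 3, 4, 5, 8}

theorem ix_card (k : Fin 3) : 3 ≤ #(ix k) := by
  fin_cases k <;> decide

theorem ix_subset {i k : Fin 3} (h : ix i ⊆ ix k) : i = k := by
  revert h
  revert i k
  decide

theorem ix_mem (k : Fin 3) (j : Fin 9) (hj : j < 6) : j ∈ ix k := by
  revert hj
  revert k j
  decide

/-- The three sets of vertices. -/
def TK (c : Fin 9 → G) (u : G) (k : Fin 3) : Finset G := insert u ((ix k).image c)

theorem card_swapped {u w : G} {τ : G → G} (hτ : IsTr τ) (hne : w ≠ u) :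
    4 * #{h₀ : G | τ (w * h₀) = τ (u * h₀)} ≤ 3 * Fintype.card G := by
  have hz : w * u⁻¹ ≠ 1 := fun h1 => hne (mul_inv_eq_one.1 h1)
  refine le_trans (Nat.mul_le_mul_left 4 ?_) (card_sqrt_le hz)
  refine card_le_card_of_injOn (fun h₀ => u * h₀ * (w * u⁻¹)) ?_
    (fun x _ y _ hxy => mul_left_cancel (mul_right_cancel hxy))
  intro h₀ hh₀
  rw [mem_coe, mem_filter] at hh₀
  simp only [coe_filter, mem_univ, true_and, Set.mem_ofPred_eq]
  rcases hτ.iff.1 hh₀.2 with h | h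
  · exact absurd (mul_right_cancel h) hne
  · calc u * h₀ * (w * u⁻¹) * (u * h₀ * (w * u⁻¹)) = u * h₀ * (w * h₀) * (w * u⁻¹) := by group
      _ = w * u⁻¹ := by rw [h, mul_inv_cancel, one_mul]

theorem no_hit {τ : G → G} (hτ : IsTr τ) {c : Fin 9 → G} {u x h₀ h : G} {i k : Fin 3}
    (hZ : ¬ Zbad τ c h₀) (hM : ¬ Mbad c h₀) (hB : ¬ Bad1 τ c u h₀)
    (hhit : Hit τ (TK c x i) h (TK c u k) h₀) : i = k ∧ h = h₀ := by
  have hinj := inj_of_not_Zbad hZ
  have hmem : ∀ j ∈ ix i, c j ∈ TK c x i := fun j hj =>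
    mem_insert_of_mem (mem_image_of_mem c hj)
  have h1 : ∀ j ∈ ix i, τ (c j * h) = τ (u * h₀) ∨ ∃ j' ∈ ix k, τ (c j * h) = τ (c j' * h₀) := by
    intro j hj
    obtain ⟨t', ht', h2⟩ := hhit (c j) (hmem j hj)
    rw [TK, mem_insert, mem_image] at ht'
    rcases ht' with rfl | ⟨j', hj', rfl⟩
    · exact Or.inl h2
    · exact Or.inr ⟨j', hj', h2⟩
  have h2 : ∀ j ∈ ix i, ¬ τ (c j * h) = τ (u * h₀) := by
    intro j hj hju
    have h3 : ∀ j₁ ∈ ix i, τ (c j₁ * h) = τ (u * h₀) := by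
      intro j₁ hj₁
      rcases h1 j₁ hj₁ with h4 | ⟨j', _, h4⟩
      · exact h4
      · exact absurd ⟨h, j, j₁, j', hju, h4⟩ hB
    have e0 := hτ.iff.1 (h3 0 (ix_mem i 0 (by decide)))
    have e1 := hτ.iff.1 (h3 1 (ix_mem i 1 (by decide)))
    have e2 := hτ.iff.1 (h3 2 (ix_mem i 2 (by decide)))
    have key : ∀ a b : Fin 9, a ≠ b → c a * h = c b * h → False := fun a b hab heq =>
      hab (hinj (mul_right_cancel heq))
    rcases e0 with e0 | e0 <;> rcases e1 with e1 | e1 <;> rcases e2 with e2 | e2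
    · exact key 0 1 (by decide) (e0.trans e1.symm)
    · exact key 0 1 (by decide) (e0.trans e1.symm)
    · exact key 0 2 (by decide) (e0.trans e2.symm)
    · exact key 1 2 (by decide) (e1.trans e2.symm)
    · exact key 1 2 (by decide) (e1.trans e2.symm)
    · exact key 0 2 (by decide) (e0.trans e2.symm)
    · exact key 0 1 (by decide) (e0.trans e1.symm)
    · exact key 0 1 (by decide) (e0.trans e1.symm)
  have h3 : ∀ j : Fin 9, ∃ j' : Fin 9, j ∈ ix i → j' ∈ ix k ∧ τ (c j * h) = τ (c j' * h₀) := by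
    intro j
    by_cases hj : j ∈ ix i
    · obtain ⟨j', hj', h4⟩ := (h1 j hj).resolve_left (h2 j hj)
      exact ⟨j', fun _ => ⟨hj', h4⟩⟩
    · exact ⟨0, fun h => absurd h hj⟩
  choose σ hσ using h3
  have h4 := rigid hZ (ix_card i) (fun j hj => (hσ j hj).2)
  have h5 : i = k := ix_subset fun j hj => by
    have := (hσ j hj).1
    rwa [h4 j hj] at this
  refine ⟨h5, ?_⟩
  by_contra hne
  refine hM ⟨h, hne, fun j hj => ?_⟩
  have hji := ix_mem i j hj
  have h6 := (hσ j hji).2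
  rw [h4 j hji] at h6
  rcases hτ.iff.1 h6 with h7 | h7
  · exact absurd (mul_left_cancel h7) hne
  · exact h7

end

open Classical in
/-- The signature of `u`: three numbers of common neighbours. -/
noncomputable def sigU {G : Type} [Group G] [Fintype G] (X : Finset G) (τ : G → G)
    (c : Fin 9 → G) (u : G) (R : Finset G) (k : Fin 3) : ℕ := cnt X τ (TK c u k) R

theorem sigU_eq {G : Type} [Group G] [Fintype G] [inst : DecidableEq G] (X : Finset G)
    (τ : G → G) (c : Fin 9 → G) (u : G) (R : Finset G) (k : Fin 3) :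
    sigU X τ c u R k = cnt X τ (TK c u k) R := by
  unfold sigU
  have h : inst = fun a b => Classical.propDecidable (a = b) := Subsingleton.elim _ _
  subst h
  rfl

/-- A generic tuple. -/
structure Generic {G : Type} [Group G] [Fintype G] (τ : G → G) (c : Fin 9 → G) : Prop where
  tr : IsTr τ
  mbad : 25 * Nat.card {h₀ : G // Mbad c h₀} ≤ 6 * Nat.card G
  zbad : Nat.card {h₀ : G // Zbad τ c h₀} ≤ 26244000

theorem card_le_six {α : Type*} [Fintype α] [DecidableEq α] (A₁ A₂ A₃ A₄ A₅ A₆ A₇ : Finset α)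
    (h : ∀ x, x ∈ A₁ ∨ x ∈ A₂ ∨ x ∈ A₃ ∨ x ∈ A₄ ∨ x ∈ A₅ ∨ x ∈ A₆ ∨ x ∈ A₇) :
    Fintype.card α ≤ #A₁ + (#A₂ + (#A₃ + (#A₄ + (#A₅ + (#A₆ + #A₇))))) := by
  have h1 : (univ : Finset α) ⊆ A₁ ∪ (A₂ ∪ (A₃ ∪ (A₄ ∪ (A₅ ∪ (A₆ ∪ A₇))))) := by
    intro x _
    simp only [mem_union]
    exact h x
  have h2 := card_le_card h1
  rw [card_univ] at h2
  refine h2.trans ((card_union_le _ _).trans (Nat.add_le_add_left ?_ _))
  refine (card_union_le _ _).trans (Nat.add_le_add_left ?_ _)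
  refine (card_union_le _ _).trans (Nat.add_le_add_left ?_ _)
  refine (card_union_le _ _).trans (Nat.add_le_add_left ?_ _)
  refine (card_union_le _ _).trans (Nat.add_le_add_left ?_ _)
  exact card_union_le _ _

theorem pair_bound : ∃ C : ℝ, 0 < C ∧ ∃ N₁ : ℕ, ∀ (G : Type) [Group G] [Fintype G]
    [DecidableEq G] (τ : G → G) (c : Fin 9 → G), Generic τ c → N₁ ≤ Fintype.card G →
    ∀ X : Finset G, #Xᶜ ≤ 1 → ∀ u ∈ V1 τ c, ∀ w ∈ V1 τ c, w ≠ u →
    (#{R : Finset G | sigU X τ c u R = sigU X τ c w R} : ℝ) ≤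
      2 ^ Fintype.card G * (C / Real.sqrt (Fintype.card G) ^ 3) := by
  obtain ⟨C, hC, hmain⟩ := lemU 3 11 (1 / 250) (by norm_num)
  refine ⟨C, hC, 10 ^ 10, ?_⟩
  intro G _ _ _ τ c hgen hN X hX u hu w hw hwu
  classical
  obtain ⟨hτ, hMb, hZb⟩ := hgen
  rw [Nat.card_eq_fintype_card, Fintype.card_subtype, Nat.card_eq_fintype_card] at hMb
  rw [Nat.card_eq_fintype_card, Fintype.card_subtype] at hZb
  obtain ⟨D, hD⟩ : ∃ D : Finset G, D = insert u (insert w (univ.image c)) := ⟨_, rfl⟩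
  have hDcard : #D ≤ 11 := by
    rw [hD]
    refine (card_insert_le _ _).trans ?_
    have h1 := card_insert_le w (univ.image c)
    have h2 : #(univ.image c) ≤ 9 := by
      refine card_image_le.trans ?_
      simp
    omega
  obtain ⟨H, hH⟩ : ∃ H : Finset G, H = univ.filter fun h₀ : G => ¬ Mbad c h₀ ∧ ¬ Zbad τ c h₀ ∧
    ¬ (Bad1 τ c u h₀ ∨ Bad2 τ c u h₀) ∧ ¬ (Bad1 τ c w h₀ ∨ Bad2 τ c w h₀) ∧
    ¬ τ (w * h₀) = τ (u * h₀) ∧ ∀ t ∈ D, t * h₀ ∈ X := ⟨_, rfl⟩
  have hHcard : Fintype.card G ≤ #{h₀ : G | Mbad c h₀} + (#{h₀ : G | Zbad τ c h₀} +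
      (#{h₀ : G | Bad1 τ c u h₀ ∨ Bad2 τ c u h₀} + (#{h₀ : G | Bad1 τ c w h₀ ∨ Bad2 τ c w h₀} +
      (#{h₀ : G | τ (w * h₀) = τ (u * h₀)} + (11 + #H))))) := by
    have hprod : #((D ×ˢ Xᶜ).image fun x => x.1⁻¹ * x.2) ≤ 11 := by
      refine card_image_le.trans ?_
      rw [card_product]
      nlinarith
    refine le_trans ?_ (Nat.add_le_add_left (Nat.add_le_add_left (Nat.add_le_add_left
      (Nat.add_le_add_left (Nat.add_le_add_left (Nat.add_le_add_right hprod _) _) _) _) _) _)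
    refine card_le_six _ _ _ _ _ _ _ fun h₀ => ?_
    by_cases c1 : Mbad c h₀
    · exact Or.inl (mem_filter.2 ⟨mem_univ _, c1⟩)
    refine Or.inr ?_
    by_cases c2 : Zbad τ c h₀
    · exact Or.inl (mem_filter.2 ⟨mem_univ _, c2⟩)
    refine Or.inr ?_
    by_cases c3 : Bad1 τ c u h₀ ∨ Bad2 τ c u h₀
    · exact Or.inl (mem_filter.2 ⟨mem_univ _, c3⟩)
    refine Or.inr ?_
    by_cases c4 : Bad1 τ c w h₀ ∨ Bad2 τ c w h₀
    · exact Or.inl (mem_filter.2 ⟨mem_univ _, c4⟩)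
    refine Or.inr ?_
    by_cases c5 : τ (w * h₀) = τ (u * h₀)
    · exact Or.inl (mem_filter.2 ⟨mem_univ _, c5⟩)
    refine Or.inr ?_
    by_cases hx : ∀ t ∈ D, t * h₀ ∈ X
    · refine Or.inr ?_
      rw [hH]
      exact mem_filter.2 ⟨mem_univ _, c1, c2, c3, c4, c5, hx⟩
    · push Not at hx
      obtain ⟨t, ht, htX⟩ := hx
      refine Or.inl (mem_image.2 ⟨(t, t * h₀), ?_, ?_⟩)
      · rw [mem_product, mem_compl]
        exact ⟨ht, htX⟩
      · exact inv_mul_cancel_left t h₀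
  have hu' : 1000 * #{h₀ : G | Bad1 τ c u h₀ ∨ Bad2 τ c u h₀} ≤ Fintype.card G := by
    have := hu
    unfold V1 at this
    rw [mem_filter] at this
    convert this.2
  have hw' : 1000 * #{h₀ : G | Bad1 τ c w h₀ ∨ Bad2 τ c w h₀} ≤ Fintype.card G := by
    have := hw
    unfold V1 at this
    rw [mem_filter] at this
    convert this.2
  have hsw := card_swapped hτ hwu
  have hHbig : (1 / 250 : ℝ) * Fintype.card G ≤ #H := by
    have h1 : Fintype.card G ≤ 250 * #H := by omega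
    have h2 : (Fintype.card G : ℝ) ≤ 250 * #H := by exact_mod_cast h1
    linarith
  have hHprop : ∀ h₀ ∈ H, ∀ i k : Fin 3, ∀ h : G, ¬ Hit τ (TK c w i) h (TK c u k) h₀ ∧
      (i ≠ k → ¬ Hit τ (TK c u i) h (TK c u k) h₀) := by
    intro h₀ hh₀ i k h
    rw [hH, mem_filter] at hh₀
    obtain ⟨-, hM, hZ, hBu, hBw, hsw, -⟩ := hh₀
    rw [not_or] at hBu hBw
    constructor
    · intro hhit
      obtain ⟨hik, hh⟩ := no_hit hτ hZ hM hBu.1 hhit
      subst hh
      obtain ⟨t', ht', h2⟩ := hhit w (mem_insert_self _ _)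
      rw [TK, mem_insert, mem_image] at ht'
      rcases ht' with rfl | ⟨j', _, rfl⟩
      · exact hsw h2
      · exact hBw.2 ⟨j', h2⟩
    · intro hik hhit
      exact hik (no_hit hτ hZ hM hBu.1 hhit).1
  have hsubU : ∀ k, TK c u k ⊆ D := by
    intro k x hx
    rw [TK, mem_insert, mem_image] at hx
    rw [hD, mem_insert, mem_insert, mem_image]
    rcases hx with rfl | ⟨j, _, rfl⟩
    · exact Or.inl rfl
    · exact Or.inr (Or.inr ⟨j, mem_univ _, rfl⟩)
  have hsubW : ∀ k, TK c w k ⊆ D := by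
    intro k x hx
    rw [TK, mem_insert, mem_image] at hx
    rw [hD, mem_insert, mem_insert, mem_image]
    rcases hx with rfl | ⟨j, _, rfl⟩
    · exact Or.inr (Or.inl rfl)
    · exact Or.inr (Or.inr ⟨j, mem_univ _, rfl⟩)
  have hfin := hmain G τ hτ X (Fin 3) univ (fun _ => 0) (TK c u) (TK c w) D u H
    (by simp) hDcard (fun i _ => hsubU i) (fun i _ => hsubW i)
    (fun i _ => mem_insert_self _ _) hHbig
    (fun h₀ hh₀ => by
      rw [hH, mem_filter] at hh₀
      exact hh₀.2.2.2.2.2.2)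
    (fun h₀ hh₀ i _ h => (hHprop h₀ hh₀ i i h).1)
    (fun h₀ hh₀ i _ k _ hik _ h => ⟨(hHprop h₀ hh₀ i k h).2 hik, (hHprop h₀ hh₀ i k h).1⟩)
  refine le_trans (Nat.cast_le.2 (card_le_card ?_)) hfin
  intro R hR
  simp only [mem_filter, mem_univ, true_and] at hR ⊢
  intro i _
  have := congrFun hR i
  rw [sigU_eq, sigU_eq] at this
  exact this

end Pool.Agent.N595.ST
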