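import Mathlib

/-!
# Square roots and conjugating elements in finite groups
-/

set_option autoImplicit false
set_option linter.unusedSectionVars false

namespace Pool.Agent.N595.ST

open Finset

variable {Γ : Type*} [Group Γ] [Fintype Γ] [DecidableEq Γ]

/-- A subgroup with more than half of the elements is everything. -/
theorem eq_top_of_half (H : Subgroup Γ) (h : Fintype.card Γ < 2 * Nat.card H) : H = ⊤ := by
  rw [← Subgroup.index_eq_one]
  have h1 := H.card_mul_index
  rw [Nat.card_eq_fintype_card (α := Γ)] at h1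
  have h2 : H.index ≠ 0 := Subgroup.index_ne_zero_of_finite
  have h3 : 0 < Nat.card H := Nat.card_pos
  by_contra hne
  have h4 : 2 ≤ H.index := by omega
  have h5 : Nat.card H * 2 ≤ Nat.card H * H.index := Nat.mul_le_mul_left _ h4
  omega

/-- If more than half of the elements conjugate `x` to `x'`, then `x = x'`. -/
theorem conj_half {G : Type*} [Group G] [DecidableEq G] (f : Γ →* G) (x x' : G)
    (h : Fintype.card Γ < 2 * #{m : Γ | (f m)⁻¹ * x * f m = x'}) : x = x' := by
  classical
  let C : Subgroup Γ :=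
    { carrier := {m | f m * x = x * f m}
      one_mem' := by simp
      mul_mem' := by
        intro a b ha hb
        simp only [Set.mem_ofPred_eq, map_mul] at ha hb ⊢
        rw [mul_assoc, hb, ← mul_assoc, ha, mul_assoc]
      inv_mem' := by
        intro a ha
        simp only [Set.mem_ofPred_eq, map_inv] at ha ⊢
        rw [inv_mul_eq_iff_eq_mul, ← mul_assoc, ha, mul_inv_cancel_right] }
  have hne : ({m : Γ | (f m)⁻¹ * x * f m = x'} : Finset Γ).Nonempty := by
    rw [← card_pos]
    omega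
  obtain ⟨m₀, hm₀⟩ := hne
  rw [mem_filter] at hm₀
  have hm₀' := hm₀.2
  have hcard : #{m : Γ | (f m)⁻¹ * x * f m = x'} ≤ Nat.card C := by
    rw [Nat.card_eq_fintype_card, ← Fintype.card_coe]
    refine Fintype.card_le_of_injective
      (fun m => ⟨m.1 * m₀⁻¹, ?_⟩) ?_
    · have hm := (mem_filter.1 m.2).2
      show f (m.1 * m₀⁻¹) * x = x * f (m.1 * m₀⁻¹)
      rw [map_mul, map_inv]
      have h1 : f m.1 * x' * (f m.1)⁻¹ = x := by
        generalize f m.1 = a at hm
        subst hm
        group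
      calc f m.1 * (f m₀)⁻¹ * x = f m.1 * ((f m₀)⁻¹ * x * f m₀) * (f m₀)⁻¹ := by group
        _ = f m.1 * x' * (f m₀)⁻¹ := by rw [hm₀']
        _ = (f m.1 * x' * (f m.1)⁻¹) * (f m.1 * (f m₀)⁻¹) := by group
        _ = x * (f m.1 * (f m₀)⁻¹) := by rw [h1]
    · intro m m' hmm'
      have := congrArg Subtype.val hmm'
      exact Subtype.ext (mul_right_cancel this)
  have htop := eq_top_of_half C (by omega)
  have h1 : m₀ ∈ C := by rw [htop]; trivial
  have h2 : f m₀ * x = x * f m₀ := h1
  rw [← hm₀', mul_assoc, ← h2, inv_mul_cancel_left]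

/-- At most three quarters of the elements are square roots of an element `z ≠ 1`. -/
theorem card_sqrt_le {z : Γ} (hz : z ≠ 1) : 4 * #{x : Γ | x * x = z} ≤ 3 * Fintype.card Γ := by
  classical
  by_contra hcon
  push Not at hcon
  set X : Finset Γ := {x : Γ | x * x = z} with hX
  have hXmem : ∀ x, x ∈ X ↔ x * x = z := fun x => by simp [hX]
  have hne : X.Nonempty := by
    rw [← card_pos]
    omega
  obtain ⟨x, hx⟩ := hne
  have hx' := (hXmem x).1 hx
  -- the elements y with y and x * y in X
  have h1 : #(X ∩ X.image (x⁻¹ * ·)) + #(X ∪ X.image (x⁻¹ * ·)) = 2 * #X := by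
    rw [card_inter_add_card_union, card_image_of_injective _ (mul_right_injective x⁻¹)]
    ring
  have h2 : #(X ∪ X.image (x⁻¹ * ·)) ≤ Fintype.card Γ := card_le_univ _
  have h3 : X ∩ X.image (x⁻¹ * ·) ⊆
      univ.filter fun m : Γ => (MonoidHom.id Γ m)⁻¹ * x * MonoidHom.id Γ m = x⁻¹ := by
    intro y hy
    rw [mem_inter, mem_image] at hy
    obtain ⟨hy1, y', hy', hy2⟩ := hy
    have e1 := (hXmem y).1 hy1
    have e2 := (hXmem y').1 hy'
    have e3 : y' = x * y := by rw [← hy2, mul_inv_cancel_left]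
    rw [e3] at e2
    simp only [mem_filter, mem_univ, true_and, MonoidHom.id_apply]
    have e4 : x * y * x = y := by
      have : x * y * x * y = y * y := by rw [e1, ← e2]; group
      exact mul_right_cancel this
    rw [mul_assoc, inv_mul_eq_iff_eq_mul, eq_mul_inv_iff_mul_eq]
    exact e4
  have h4 := card_le_card h3
  have h5 := conj_half (MonoidHom.id Γ) x x⁻¹ (by omega)
  apply hz
  rw [← hx']
  nth_rewrite 1 [h5]
  exact inv_mul_cancel x

/-- **Rigidity of almost-structural homomorphisms.** -/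
theorem eq_one_of_structural {G : Type*} [Group G] [DecidableEq G] (f θ : Γ →* G)
    (hf : Function.Injective f) (t : G)
    (h : 40 * #{m : Γ | ¬ (θ m = f m * t⁻¹ ∨ θ m = (f m)⁻¹ * t⁻¹)} < Fintype.card Γ) :
    t = 1 := by
  classical
  by_contra ht
  set B : Finset Γ := {m : Γ | ¬ (θ m = f m * t⁻¹ ∨ θ m = (f m)⁻¹ * t⁻¹)} with hB
  have hBmem : ∀ m, m ∉ B ↔ (θ m = f m * t⁻¹ ∨ θ m = (f m)⁻¹ * t⁻¹) := fun m => by
    rw [hB, mem_filter, not_and_not_right]
    exact ⟨fun h => h (mem_univ m), fun h _ => h⟩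
  set Pp : Finset Γ := {m : Γ | θ m = f m * t⁻¹} with hPp
  set Pm : Finset Γ := {m : Γ | θ m = (f m)⁻¹ * t⁻¹} with hPm
  have hPpm : ∀ m, m ∈ Pp ↔ θ m = f m * t⁻¹ := fun m => by simp [hPp]
  have hPmm : ∀ m, m ∈ Pm ↔ θ m = (f m)⁻¹ * t⁻¹ := fun m => by simp [hPm]
  let K : Subgroup Γ :=
    { carrier := {k | θ k = t * f k * t⁻¹}
      one_mem' := by simp
      mul_mem' := by
        intro a b ha hb
        simp only [Set.mem_ofPred_eq, map_mul] at ha hb ⊢
        rw [ha, hb]
        group
      inv_mem' := by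
        intro a ha
        simp only [Set.mem_ofPred_eq, map_inv] at ha ⊢
        rw [ha]
        group }
  have hKmem : ∀ k, k ∈ K ↔ θ k = t * f k * t⁻¹ := fun k => Iff.rfl
  -- K has few elements
  have hK : Fintype.card K ≤ 4 * #B := by
    have s1 : ∀ k ∈ K, k ∉ B → f (k * k) = t⁻¹ := by
      intro k hk hkB
      rw [hBmem] at hkB
      rw [hKmem] at hk
      rcases hkB with h1 | h1
      · exfalso
        apply ht
        rw [hk] at h1
        have h2 := mul_right_cancel h1
        exact mul_eq_right.1 h2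
      · rw [hk] at h1
        have h2 := mul_right_cancel h1
        rw [map_mul]
        have h3 : t * f k * f k = 1 := by rw [h2, inv_mul_cancel]
        rw [mul_assoc] at h3
        exact eq_inv_of_mul_eq_one_right h3
    by_cases hne : ∃ k ∈ K, k ∉ B
    · obtain ⟨k₀, hk₀, hk₀B⟩ := hne
      have hz : (⟨k₀, hk₀⟩ : K) * ⟨k₀, hk₀⟩ ≠ 1 := by
        intro h1
        have h2 := congrArg Subtype.val h1
        have h3 := s1 k₀ hk₀ hk₀B
        simp only [Subgroup.coe_mul, Subgroup.coe_one] at h2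
        rw [h2, map_one] at h3
        exact ht (inv_eq_one.1 h3.symm)
      have h1 := card_sqrt_le (Γ := K) hz
      have h2 : (univ : Finset K) ⊆
          (univ.filter fun x : K => x * x = (⟨k₀, hk₀⟩ : K) * ⟨k₀, hk₀⟩) ∪
          (univ.filter fun x : K => x.1 ∈ B) := by
        intro x _
        by_cases hx : x.1 ∈ B
        · exact mem_union_right _ (by simp [hx])
        · refine mem_union_left _ ?_
          simp only [mem_filter, mem_univ, true_and]
          apply Subtype.ext
          apply hf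
          simp only [Subgroup.coe_mul]
          rw [s1 x.1 x.2 hx, s1 k₀ hk₀ hk₀B]
      have h3 := card_le_card h2
      rw [card_univ] at h3
      have h4 := card_union_le (univ.filter fun x : K => x * x = (⟨k₀, hk₀⟩ : K) * ⟨k₀, hk₀⟩)
        (univ.filter fun x : K => x.1 ∈ B)
      have h5 : #(univ.filter fun x : K => x.1 ∈ B) ≤ #B :=
        card_le_card_of_injOn (fun x => x.1) (fun x hx => (mem_filter.1 hx).2)
          (fun x _ y _ hxy => Subtype.ext hxy)
      omega
    · push Not at hne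
      have h1 : Fintype.card K ≤ #B := by
        rw [← card_univ]
        exact card_le_card_of_injOn (fun x => x.1) (fun x _ => hne x.1 x.2)
          (fun x _ y _ hxy => Subtype.ext hxy)
      omega
  have hPpK : #Pp ≤ Fintype.card K := by
    rcases Pp.eq_empty_or_nonempty with h1 | ⟨m₀, hm₀⟩
    · rw [h1]
      simp
    · rw [hPpm] at hm₀
      rw [← Fintype.card_coe]
      refine Fintype.card_le_of_injective (fun m => ⟨m₀⁻¹ * m.1, ?_⟩) ?_
      · have hm := (hPpm _).1 m.2
        rw [hKmem, map_mul, map_inv, map_mul, map_inv, hm, hm₀]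
        group
      · intro m m' hmm'
        have := congrArg Subtype.val hmm'
        exact Subtype.ext (mul_left_cancel this)
  have hcover : Fintype.card Γ ≤ #Pp + #Pm + #B := by
    have h1 : (univ : Finset Γ) ⊆ (Pp ∪ Pm) ∪ B := by
      intro m _
      by_cases hm : m ∈ B
      · exact mem_union_right _ hm
      · rw [hBmem] at hm
        refine mem_union_left _ ?_
        rw [mem_union, hPpm, hPmm]
        exact hm
    have h2 := card_le_card h1
    rw [card_univ] at h2
    have h3 := card_union_le (Pp ∪ Pm) B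
    have h4 := card_union_le Pp Pm
    omega
  have hPmne : Pm.Nonempty := by
    rw [← card_pos]
    omega
  obtain ⟨m, hm⟩ := hPmne
  have hm' := (hPmm m).1 hm
  have h1 : #(Pm ∩ Pm.image (m⁻¹ * ·)) + #(Pm ∪ Pm.image (m⁻¹ * ·)) = 2 * #Pm := by
    rw [card_inter_add_card_union, card_image_of_injective _ (mul_right_injective m⁻¹)]
    ring
  have h2 : #(Pm ∪ Pm.image (m⁻¹ * ·)) ≤ Fintype.card Γ := card_le_univ _
  have h3 : Pm ∩ Pm.image (m⁻¹ * ·) ⊆
      univ.filter fun m' : Γ => (f m')⁻¹ * (f m)⁻¹ * f m' = (f m)⁻¹ * t⁻¹ := by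
    intro y hy
    rw [mem_inter, mem_image] at hy
    obtain ⟨hy1, y', hy', hy2⟩ := hy
    have e1 := (hPmm y).1 hy1
    have e2 := (hPmm y').1 hy'
    have e3 : y' = m * y := by rw [← hy2, mul_inv_cancel_left]
    rw [e3, map_mul, hm', e1, map_mul] at e2
    simp only [mem_filter, mem_univ, true_and]
    -- e2 : (f m)⁻¹ * t⁻¹ * ((f y)⁻¹ * t⁻¹) = (f m * f y)⁻¹ * t⁻¹
    have e4 : (f m)⁻¹ * t⁻¹ * (f y)⁻¹ = (f m * f y)⁻¹ := by
      rw [← mul_assoc] at e2
      exact mul_right_cancel e2
    calc (f y)⁻¹ * (f m)⁻¹ * f y = (f m * f y)⁻¹ * f y := by rw [mul_inv_rev]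
      _ = (f m)⁻¹ * t⁻¹ * (f y)⁻¹ * f y := by rw [e4]
      _ = (f m)⁻¹ * t⁻¹ := by group
  have h4 := card_le_card h3
  have h5 := conj_half f (f m)⁻¹ ((f m)⁻¹ * t⁻¹) (by omega)
  have h6 : t⁻¹ = 1 := mul_eq_left.1 h5.symm
  exact ht (inv_eq_one.1 h6)

end Pool.Agent.N595.ST
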