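import Pool.Agent.N595.ST.Multi

/-!
# Translates of small sets inside a random inverse-closed subset of a group

A map `τ` selects one element from each set `{y, y⁻¹}`. A uniformly random subset `R` of the group
gives the random inverse-closed set of all `y` with `τ y ∈ R`.
-/

set_option autoImplicit false
set_option linter.unusedSectionVars false

namespace Pool.Agent.N595.ST

open Finset Pool.Agent.N595.RC

section

variable {G : Type*} [Group G] [Fintype G] [DecidableEq G]

/-- `τ` selects an element of each set `{y, y⁻¹}`. -/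
structure IsTr (τ : G → G) : Prop where
  eq : ∀ y, τ y = y ∨ τ y = y⁻¹
  inv : ∀ y, τ y⁻¹ = τ y

theorem IsTr.iff {τ : G → G} (hτ : IsTr τ) {y z : G} : τ y = τ z ↔ y = z ∨ y = z⁻¹ := by
  constructor
  · intro h
    rcases hτ.eq y with h1 | h1 <;> rcases hτ.eq z with h2 | h2 <;> rw [h1, h2] at h
    · exact Or.inl h
    · exact Or.inr h
    · exact Or.inr (by rw [← h, inv_inv])
    · exact Or.inl (inv_injective h)
  · rintro (rfl | rfl)
    · rfl
    · exact hτ.inv z

theorem IsTr.idem {τ : G → G} (hτ : IsTr τ) (y : G) : τ (τ y) = τ y := by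
  rcases hτ.eq y with h1 | h1
  · rw [h1, h1]
  · rw [h1, hτ.inv, h1]

theorem IsTr.mem {τ : G → G} (hτ : IsTr τ) {y p : G} (h : τ y = p) : y = p ∨ y = p⁻¹ := by
  rcases hτ.eq y with h1 | h1
  · exact Or.inl (h1.symm.trans h)
  · right
    rw [← h, h1, inv_inv]

/-- The number of `h` such that all `t * h` with `t ∈ T` are allowed and in the random set. -/
def cnt (X : Finset G) (τ : G → G) (T R : Finset G) : ℕ :=
  #{h : G | ∀ t ∈ T, t * h ∈ X ∧ τ (t * h) ∈ R}

/-- The increase of `cnt` when `p` is added. -/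
def inc (X : Finset G) (τ : G → G) (T R : Finset G) (p : G) : ℕ :=
  #{h : G | (∀ t ∈ T, t * h ∈ X ∧ τ (t * h) ∈ insert p R) ∧ ∃ t ∈ T, τ (t * h) = p}

/-- The classes of `T' * h` are among the classes of `T * h₀`. -/
def Hit (τ : G → G) (T' : Finset G) (h : G) (T : Finset G) (h₀ : G) : Prop :=
  ∀ t ∈ T', ∃ t' ∈ T, τ (t * h) = τ (t' * h₀)

theorem cnt_insert (X : Finset G) (τ : G → G) (T R : Finset G) {p : G} (hp : p ∉ R) :
    cnt X τ T (insert p R) = cnt X τ T R + inc X τ T R p := by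
  unfold cnt inc
  rw [← card_union_of_disjoint]
  · congr 1
    ext h
    simp only [mem_filter, mem_univ, true_and, mem_union]
    constructor
    · intro h1
      by_cases h2 : ∃ t ∈ T, τ (t * h) = p
      · exact Or.inr ⟨h1, h2⟩
      · refine Or.inl fun t ht => ?_
        rcases mem_insert.1 (h1 t ht).2 with h3 | h3
        · exact absurd ⟨t, ht, h3⟩ h2
        · exact ⟨(h1 t ht).1, h3⟩
    · rintro (h1 | h1)
      · exact fun t ht => ⟨(h1 t ht).1, mem_insert_of_mem (h1 t ht).2⟩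
      · exact h1.1
  · rw [Finset.disjoint_left]
    intro h h1 h2
    simp only [mem_filter, mem_univ, true_and] at h1 h2
    obtain ⟨-, t, ht, h3⟩ := h2
    exact hp (h3 ▸ (h1 t ht).2)

/-- All classes which can be together with `p` in a translate of a subset of `D`. -/
def full (τ : G → G) (D : Finset G) (p : G) : Finset G :=
  ((D ×ˢ D) ×ˢ {p, p⁻¹}).image fun x => τ (x.1.1 * x.1.2⁻¹ * x.2)

theorem mem_full {τ : G → G} {D : Finset G} {p x : G} :
    x ∈ full τ D p ↔ ∃ d ∈ D, ∃ d' ∈ D, ∃ y, (y = p ∨ y = p⁻¹) ∧ τ (d * d'⁻¹ * y) = x := by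
  unfold full
  simp only [mem_image, mem_product, Prod.exists, mem_insert, mem_singleton]
  constructor
  · rintro ⟨d, d', y, ⟨⟨h1, h2⟩, h3⟩, h4⟩
    exact ⟨d, h1, d', h2, y, h3, h4⟩
  · rintro ⟨d, h1, d', h2, y, h3, h4⟩
    exact ⟨d, d', y, ⟨⟨h1, h2⟩, h3⟩, h4⟩

theorem card_full_le (τ : G → G) (D : Finset G) (p : G) : #(full τ D p) ≤ 2 * #D ^ 2 := by
  unfold full
  refine card_image_le.trans ?_
  rw [card_product, card_product]
  have : #({p, p⁻¹} : Finset G) ≤ 2 := card_le_two
  nlinarith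

theorem self_mem_full {τ : G → G} {D : Finset G} (hD : D.Nonempty) {p : G} (hp : τ p = p) :
    p ∈ full τ D p := by
  obtain ⟨d, hd⟩ := hD
  exact mem_full.2 ⟨d, hd, d, hd, p, Or.inl rfl, by rw [mul_inv_cancel, one_mul, hp]⟩

/-- The pattern which makes `T * h₀` count. -/
def pat (τ : G → G) (T : Finset G) (h₀ p : G) : Finset G :=
  (T.image fun t => τ (t * h₀)).erase p

theorem pat_subset {τ : G → G} (hτ : IsTr τ) {D T : Finset G} {u h₀ p : G} (hT : T ⊆ D)
    (hu : u ∈ T) (hp : τ (u * h₀) = p) : pat τ T h₀ p ⊆ (full τ D p).erase p := by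
  intro x hx
  unfold pat at hx
  rw [mem_erase, mem_image] at hx
  obtain ⟨hne, t, ht, rfl⟩ := hx
  refine mem_erase.2 ⟨hne, mem_full.2 ⟨t, hT ht, u, hT hu, u * h₀, hτ.mem hp, ?_⟩⟩
  congr 1
  group

theorem inc_zero {X : Finset G} {τ : G → G} (hτ : IsTr τ) {D T T' R : Finset G} {u h₀ p : G}
    (hT : T ⊆ D) (hu : u ∈ T') (hp : τ (u * h₀) = p)
    (hhit : ∀ h, ¬ Hit τ T h T' h₀) (hR : R ∩ (full τ D p).erase p = pat τ T' h₀ p) :
    inc X τ T R p = 0 := by
  unfold inc
  rw [card_eq_zero, Finset.filter_eq_empty_iff]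
  rintro h - ⟨h1, t₀, ht₀, h2⟩
  refine hhit h fun t ht => ?_
  by_cases h3 : τ (t * h) = p
  · exact ⟨u, hu, h3.trans hp.symm⟩
  · have h4 := (mem_insert.1 (h1 t ht).2).resolve_left h3
    have h5 : τ (t * h) ∈ full τ D p :=
      mem_full.2 ⟨t, hT ht, t₀, hT ht₀, t₀ * h, hτ.mem h2, by congr 1; group⟩
    have h6 : τ (t * h) ∈ R ∩ (full τ D p).erase p :=
      mem_inter.2 ⟨h4, mem_erase.2 ⟨h3, h5⟩⟩
    rw [hR, pat, mem_erase, mem_image] at h6
    obtain ⟨-, t', ht', h7⟩ := h6
    exact ⟨t', ht', h7.symm⟩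

theorem inc_pos {X : Finset G} {τ : G → G} {D T R : Finset G} {u h₀ p : G}
    (hu : u ∈ T) (hp : τ (u * h₀) = p) (hX : ∀ t ∈ T, t * h₀ ∈ X)
    (hR : R ∩ (full τ D p).erase p = pat τ T h₀ p) : 0 < inc X τ T R p := by
  unfold inc
  rw [card_pos]
  refine ⟨h₀, ?_⟩
  simp only [mem_filter, mem_univ, true_and]
  refine ⟨fun t ht => ⟨hX t ht, ?_⟩, u, hu, hp⟩
  by_cases h1 : τ (t * h₀) = p
  · rw [h1]
    exact mem_insert_self p R
  · have h2 : τ (t * h₀) ∈ pat τ T h₀ p :=
      mem_erase.2 ⟨h1, mem_image.2 ⟨t, ht, rfl⟩⟩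
    rw [← hR] at h2
    exact mem_insert_of_mem (mem_inter.1 h2).1

theorem card_conflict (τ : G → G) (hτ : IsTr τ) (D P : Finset G) (p : G) :
    #{q ∈ P | ¬ Disjoint (full τ D p) (full τ D q)} ≤ 8 * #D ^ 4 := by
  have hsub : {q ∈ P | ¬ Disjoint (full τ D p) (full τ D q)} ⊆
      (((D ×ˢ D) ×ˢ full τ D p) ×ˢ (univ : Finset (Bool × Bool))).image fun x =>
        if x.2.1 then (if x.2.2 then (x.1.1.1 * x.1.1.2⁻¹)⁻¹ * x.1.2
          else (x.1.1.1 * x.1.1.2⁻¹)⁻¹ * x.1.2⁻¹)
        else (if x.2.2 then ((x.1.1.1 * x.1.1.2⁻¹)⁻¹ * x.1.2)⁻¹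
          else ((x.1.1.1 * x.1.1.2⁻¹)⁻¹ * x.1.2⁻¹)⁻¹) := by
    intro q hq
    rw [mem_filter, Finset.not_disjoint_iff] at hq
    obtain ⟨-, z, hz, hz'⟩ := hq
    obtain ⟨d, hd, d', hd', y, hy, hyz⟩ := mem_full.1 hz'
    rw [mem_image]
    have h1 : y = (d * d'⁻¹)⁻¹ * z ∨ y = (d * d'⁻¹)⁻¹ * z⁻¹ := by
      rcases hτ.mem hyz with h | h
      · left
        rw [← h]
        group
      · right
        rw [← h]
        group
    have hmem : ∀ b : Bool × Bool, (((d, d'), z), b) ∈
        (((D ×ˢ D) ×ˢ full τ D p) ×ˢ (univ : Finset (Bool × Bool))) := fun b => by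
      simp only [mem_product, mem_univ, and_true]
      exact ⟨⟨hd, hd'⟩, hz⟩
    rcases hy with hy | hy <;> rcases h1 with h1 | h1
    · exact ⟨_, hmem (true, true), by simp only [if_true]; rw [← h1, hy]⟩
    · exact ⟨_, hmem (true, false), by simp only [if_true]; rw [← hy, h1]; simp⟩
    · exact ⟨_, hmem (false, true), by
        simp only [if_true, Bool.false_eq_true, if_false]; rw [← h1, hy, inv_inv]⟩
    · exact ⟨_, hmem (false, false), by
        simp only [Bool.false_eq_true, if_false]; rw [← h1, hy, inv_inv]⟩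
  refine (card_le_card hsub).trans (card_image_le.trans ?_)
  rw [card_product, card_product, card_product, card_univ]
  have h1 := card_full_le τ D p
  have h2 : Fintype.card (Bool × Bool) = 4 := by decide
  rw [h2]
  calc #D * #D * #(full τ D p) * 4 ≤ #D * #D * (2 * #D ^ 2) * 4 := by
        exact Nat.mul_le_mul_right _ (Nat.mul_le_mul_left _ h1)
    _ = 8 * #D ^ 4 := by ring

end

theorem exp_neg_le_factorial (K : ℕ) {x : ℝ} (hx : 0 < x) :
    Real.exp (-x) ≤ K.factorial / x ^ K := by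
  have h := Real.pow_div_factorial_le_exp x hx.le K
  rw [Real.exp_neg, show (K.factorial : ℝ) / x ^ K = (x ^ K / K.factorial)⁻¹ by rw [inv_div]]
  exact inv_anti₀ (by positivity) h

theorem count_le_two_pow {α : Type*} [Fintype α] [DecidableEq α] (Q : Finset α → Prop)
    [DecidablePred Q] : (#{S : Finset α | Q S} : ℝ) ≤ 2 ^ Fintype.card α := by
  have h := Finset.card_le_univ (univ.filter fun S : Finset α => Q S)
  rw [Fintype.card_finset] at h
  exact_mod_cast h

/-- **The main anti-concentration estimate.** -/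
theorem lemU (K Dn : ℕ) (c : ℝ) (hc : 0 < c) : ∃ C : ℝ, 0 < C ∧
    ∀ (G : Type) [Group G] [Fintype G] [DecidableEq G] (τ : G → G), IsTr τ →
    ∀ (X : Finset G) (ι : Type) [DecidableEq ι] (J : Finset ι) (rk : ι → ℕ)
      (T T' : ι → Finset G) (D : Finset G) (u : G) (H : Finset G),
      #J = K → #D ≤ Dn → (∀ i ∈ J, T i ⊆ D) → (∀ i ∈ J, T' i ⊆ D) → (∀ i ∈ J, u ∈ T i) →
      c * Fintype.card G ≤ #H → (∀ h₀ ∈ H, ∀ t ∈ D, t * h₀ ∈ X) →
      (∀ h₀ ∈ H, ∀ i ∈ J, ∀ h, ¬ Hit τ (T' i) h (T i) h₀) →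
      (∀ h₀ ∈ H, ∀ i ∈ J, ∀ k ∈ J, i ≠ k → rk k ≤ rk i → ∀ h,
        ¬ Hit τ (T i) h (T k) h₀ ∧ ¬ Hit τ (T' i) h (T k) h₀) →
      (#{R : Finset G | ∀ i ∈ J, cnt X τ (T i) R = cnt X τ (T' i) R} : ℝ) ≤
        2 ^ Fintype.card G * (C / Real.sqrt (Fintype.card G) ^ K) := by
  set Kc : ℕ := 8 * Dn ^ 4 + 1 with hKc
  set De : ℕ := 2 * Dn ^ 2 with hDe
  set L : ℕ := 2 ^ (De + 2) with hL
  have hLpos : 0 < L := by rw [hL]; positivity
  have hL0 : (0 : ℝ) < L := by exact_mod_cast hLpos
  have hKc0 : (0 : ℝ) < Kc := by rw [hKc]; positivity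
  set c1 : ℝ := c / (4 * Kc * L) with hc1
  have hc10 : 0 < c1 := by positivity
  set c2 : ℝ := c / (2 * Kc * L) with hc2
  have hc20 : 0 < c2 := by positivity
  set N1 : ℝ := 2 * Kc * L / c with hN1
  have hN10 : 0 < N1 := by positivity
  refine ⟨(1 / Real.sqrt c1) ^ K + K * (K.factorial / c2 ^ K) + Real.sqrt N1 ^ K,
    by positivity, ?_⟩
  intro G _ _ _ τ hτ X ι _ J rk T T' D u H hJ hD hT hT' hu hH hX hh1 hh2
  classical
  have hN : 1 ≤ Fintype.card G := Fintype.card_pos
  have hN' : (1 : ℝ) ≤ Fintype.card G := by exact_mod_cast hN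
  have hN0 : (0 : ℝ) < Fintype.card G := by linarith
  have hsN : 0 < Real.sqrt (Fintype.card G) := Real.sqrt_pos.2 hN0
  have hsNK : 0 < Real.sqrt (Fintype.card G) ^ K := by positivity
  by_cases hJne : J.Nonempty
  swap
  · rw [Finset.not_nonempty_iff_eq_empty] at hJne
    subst hJne
    rw [card_empty] at hJ
    subst hJ
    refine (count_le_two_pow _).trans ?_
    rw [le_mul_iff_one_le_right (by positivity)]
    simp
  obtain ⟨i₀, hi₀⟩ := hJne
  have hDne : D.Nonempty := ⟨u, hT i₀ hi₀ (hu i₀ hi₀)⟩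
  -- the points
  set P₀ : Finset G := H.image fun h₀ => τ (u * h₀) with hP₀
  have hHP : #H ≤ 2 * #P₀ := by
    refine card_le_mul_card_image (f := fun h₀ => τ (u * h₀)) H 2 ?_
    intro p _
    refine (card_le_card (t := {u⁻¹ * p, u⁻¹ * p⁻¹}) ?_).trans card_le_two
    intro h hh
    rw [mem_filter] at hh
    rw [mem_insert, mem_singleton]
    rcases hτ.mem hh.2 with h1 | h1
    · left
      rw [← h1]
      group
    · right
      rw [← h1]
      group
  obtain ⟨P, hPP, hPind, hPcard⟩ := packing P₀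
    (fun p q => p = q ∨ ¬ Disjoint (full τ D p) (full τ D q))
    (fun p => Or.inl rfl)
    (fun p q h => by
      rcases h with h | h
      · exact Or.inl h.symm
      · exact Or.inr fun h' => h h'.symm) Kc (fun p _ => by
      have h1 : {q ∈ P₀ | p = q ∨ ¬ Disjoint (full τ D p) (full τ D q)} ⊆
          {p} ∪ {q ∈ P₀ | ¬ Disjoint (full τ D p) (full τ D q)} := by
        intro q hq
        rw [mem_filter] at hq
        rw [mem_union, mem_singleton, mem_filter]
        rcases hq.2 with h | h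
        · exact Or.inl h.symm
        · exact Or.inr ⟨hq.1, h⟩
      refine (card_le_card h1).trans ((card_union_le _ _).trans ?_)
      have h2 := card_conflict τ hτ D P₀ p
      rw [card_singleton, hKc]
      have h3 := Nat.pow_le_pow_left hD 4
      omega)
  have hself : ∀ p ∈ P, p ∈ full τ D p := by
    intro p hp
    obtain ⟨h, _, hh⟩ := mem_image.1 (hPP hp)
    refine self_mem_full hDne ?_
    rw [← hh, hτ.idem]
  have hsec : ∀ p : G, ∃ h₀ : G, p ∈ P → h₀ ∈ H ∧ τ (u * h₀) = p := by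
    intro p
    by_cases hp : p ∈ P
    · obtain ⟨h, hh, hh'⟩ := mem_image.1 (hPP hp)
      exact ⟨h, fun _ => ⟨hh, hh'⟩⟩
    · exact ⟨1, fun h => absurd h hp⟩
  choose s hs using hsec
  have hE : ∀ p ∈ P, Disjoint ((full τ D p).erase p) P := by
    intro p hp
    rw [Finset.disjoint_left]
    intro x hx hxP
    have h3 : x ≠ p := (mem_erase.1 hx).1
    have h4 := hPind x hxP p hp h3
    push Not at h4
    exact Finset.disjoint_left.1 h4.2 (hself x hxP) (mem_erase.1 hx).2
  have hdisj : (P : Set G).PairwiseDisjoint fun p => (full τ D p).erase p := by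
    intro p hp q hq hne
    have h4 := hPind p hp q hq hne
    push Not at h4
    exact h4.2.mono (erase_subset _ _) (erase_subset _ _)
  have hDe' : ∀ p ∈ P, #((full τ D p).erase p) ≤ De := by
    intro p _
    refine (card_le_card (erase_subset _ _)).trans ((card_full_le τ D p).trans ?_)
    rw [hDe]
    have := Nat.pow_le_pow_left hD 2
    omega
  have hPreal : c * Fintype.card G ≤ 2 * Kc * #P := by
    have h1 : (#H : ℝ) ≤ 2 * #P₀ := by exact_mod_cast hHP
    have h2 : (#P₀ : ℝ) ≤ Kc * #P := by exact_mod_cast hPcard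
    nlinarith
  by_cases hbig : L ≤ #P
  · -- the main case
    have hn1 : 1 ≤ #P / L := (Nat.one_le_div_iff hLpos).2 hbig
    have hn2 : L * (#P / L) ≤ #P := Nat.mul_div_le _ _
    have hn3 : (#P : ℝ) ≤ 2 * L * ((#P / L : ℕ) : ℝ) := by
      have h1 : #P < L * (#P / L) + L := by
        have := Nat.lt_mul_div_succ #P hLpos
        rw [Nat.mul_add, Nat.mul_one] at this
        exact this
      have h2 : L ≤ L * (#P / L) := Nat.le_mul_of_pos_right _ hn1
      have h3 : #P ≤ 2 * L * (#P / L) := by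
        have : 2 * L * (#P / L) = L * (#P / L) + L * (#P / L) := by ring
        omega
      exact_mod_cast h3
    have hm := multi De P (fun p => (full τ D p).erase p) (fun i p => pat τ (T i) (s p) p)
      (fun i R => (cnt X τ (T i) R : ℤ) - cnt X τ (T' i) R) rk J hE
      (fun i hi p hp => pat_subset hτ (hT i hi) (hu i hi) (hs p hp).2) hDe' hdisj
      (fun i hi R p hp hpR hpat => by
        have h6 := inc_pos (X := X) (hu i hi) (hs p hp).2
          (fun t ht => hX (s p) (hs p hp).1 t (hT i hi ht)) hpat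
        have h7 := inc_zero (X := X) hτ (hT' i hi) (hu i hi) (hs p hp).2
          (hh1 (s p) (hs p hp).1 i hi) hpat
        rw [cnt_insert X τ (T i) R hpR, cnt_insert X τ (T' i) R hpR, h7]
        push_cast
        omega)
      (fun i hi k hk hik hrk R p hp hpR hpat => by
        have h6 := inc_zero (X := X) hτ (hT i hi) (hu k hk) (hs p hp).2
          (fun h => (hh2 (s p) (hs p hp).1 i hi k hk hik hrk h).1) hpat
        have h7 := inc_zero (X := X) hτ (hT' i hi) (hu k hk) (hs p hp).2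
          (fun h => (hh2 (s p) (hs p hp).1 i hi k hk hik hrk h).2) hpat
        rw [cnt_insert X τ (T i) R hpR, cnt_insert X τ (T' i) R hpR, h6, h7]
        push_cast
        omega) (#P / L) hn1 hn2
    have h8 : (#{R : Finset G | ∀ i ∈ J, cnt X τ (T i) R = cnt X τ (T' i) R} : ℝ) =
        (#{R : Finset G | ∀ i ∈ J, (cnt X τ (T i) R : ℤ) - cnt X τ (T' i) R = 0} : ℝ) := by
      congr 2
      ext R
      simp only [mem_filter, mem_univ, true_and]
      refine forall₂_congr fun k _ => ?_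
      omega
    rw [h8]
    refine hm.trans (mul_le_mul_of_nonneg_left ?_ (by positivity))
    have hnN : c1 * Fintype.card G ≤ ((#P / L : ℕ) : ℝ) := by
      rw [hc1, div_mul_eq_mul_div, div_le_iff₀ (by positivity)]
      nlinarith
    have hterm1 : (1 / Real.sqrt ((#P / L : ℕ) : ℝ)) ^ #J ≤
        (1 / Real.sqrt c1) ^ K / Real.sqrt (Fintype.card G) ^ K := by
      rw [hJ, ← div_pow, div_div, ← Real.sqrt_mul hc10.le]
      refine pow_le_pow_left₀ (by positivity) ?_ K
      exact one_div_le_one_div_of_le (Real.sqrt_pos.2 (by positivity)) (Real.sqrt_le_sqrt hnN)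
    have hterm2 : Real.exp (-(#P / 2 ^ (De + 2) : ℝ)) ≤
        (K.factorial / c2 ^ K) / Real.sqrt (Fintype.card G) ^ K := by
      have h9 : 0 < c2 * Fintype.card G := by positivity
      have h10 : c2 * Fintype.card G ≤ (#P : ℝ) / 2 ^ (De + 2) := by
        have h11 : ((L : ℕ) : ℝ) = 2 ^ (De + 2) := by rw [hL]; push_cast; rfl
        rw [← h11, hc2, div_mul_eq_mul_div, div_le_div_iff₀ (by positivity) hL0]
        nlinarith
      calc Real.exp (-(#P / 2 ^ (De + 2) : ℝ)) ≤ Real.exp (-(c2 * Fintype.card G)) := by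
            apply Real.exp_le_exp.2
            linarith
        _ ≤ K.factorial / (c2 * Fintype.card G) ^ K := exp_neg_le_factorial K h9
        _ = (K.factorial / c2 ^ K) / (Fintype.card G : ℝ) ^ K := by
            rw [mul_pow, div_div]
        _ ≤ (K.factorial / c2 ^ K) / Real.sqrt (Fintype.card G) ^ K := by
            refine div_le_div_of_nonneg_left (by positivity) hsNK ?_
            refine pow_le_pow_left₀ hsN.le ?_ K
            rw [Real.sqrt_le_left (by linarith)]
            nlinarith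
    calc (1 / Real.sqrt ((#P / L : ℕ) : ℝ)) ^ #J +
          #J * Real.exp (-(#P / 2 ^ (De + 2) : ℝ))
        ≤ (1 / Real.sqrt c1) ^ K / Real.sqrt (Fintype.card G) ^ K +
          K * ((K.factorial / c2 ^ K) / Real.sqrt (Fintype.card G) ^ K) := by
          rw [hJ] at hterm1 ⊢
          exact add_le_add hterm1 (mul_le_mul_of_nonneg_left hterm2 (by positivity))
      _ = ((1 / Real.sqrt c1) ^ K + K * (K.factorial / c2 ^ K)) /
          Real.sqrt (Fintype.card G) ^ K := by
          rw [add_div, mul_div_assoc]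
      _ ≤ ((1 / Real.sqrt c1) ^ K + K * (K.factorial / c2 ^ K) + Real.sqrt N1 ^ K) /
          Real.sqrt (Fintype.card G) ^ K := by
          refine div_le_div_of_nonneg_right ?_ hsNK.le
          have : 0 ≤ Real.sqrt N1 ^ K := by positivity
          linarith
  · -- a small group
    refine (count_le_two_pow _).trans ?_
    rw [le_mul_iff_one_le_right (by positivity), one_le_div hsNK]
    have h1 : (#P : ℝ) < L := by exact_mod_cast not_le.1 hbig
    have h2 : (Fintype.card G : ℝ) ≤ N1 := by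
      rw [hN1, le_div_iff₀ hc]
      nlinarith
    have h3 : Real.sqrt (Fintype.card G) ^ K ≤ Real.sqrt N1 ^ K :=
      pow_le_pow_left₀ hsN.le (Real.sqrt_le_sqrt h2) K
    have h4 : 0 ≤ (1 / Real.sqrt c1) ^ K + K * (K.factorial / c2 ^ K) := by positivity
    linarith

end Pool.Agent.N595.ST
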