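import Pool.Agent.N595.ST.Final
import Pool.Agent.N595.ST.Graph

/-!
# From random subsets to inverse-closed subsets and graphs
-/

set_option autoImplicit false
set_option linter.unusedSectionVars false

namespace Pool.Agent.N595.ST

open Finset

theorem exists_tr (G : Type) [Group G] : ∃ τ : G → G, IsTr τ := by
  let s : Setoid G :=
    { r := fun x y => x = y ∨ x = y⁻¹
      iseqv :=
        { refl := fun x => Or.inl rfl
          symm := by
            rintro x y (h | h)
            · exact Or.inl h.symm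
            · exact Or.inr (by rw [h, inv_inv])
          trans := by
            rintro x y z (h | h) (h' | h')
            · exact Or.inl (h.trans h')
            · exact Or.inr (h.trans h')
            · exact Or.inr (by rw [h, h'])
            · exact Or.inl (by rw [h, h', inv_inv]) } }
  refine ⟨fun y => (Quotient.mk s y).out, fun y => ?_, fun y => ?_⟩
  · exact Quotient.exact (Quotient.out_eq (Quotient.mk s y))
  · have : Quotient.mk s y⁻¹ = Quotient.mk s y := Quotient.sound (Or.inr rfl)
    show (Quotient.mk s y⁻¹).out = _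
    rw [this]

/-- The inverse-closed set of a subset. -/
def toInv {G : Type} [Group G] {τ : G → G} (hτ : IsTr τ) (R : Finset G) : InvClosed G :=
  ⟨{y | τ y ∈ R}, fun s hs => by
    show τ s⁻¹ ∈ R
    rw [hτ.inv]
    exact hs⟩

theorem mem_toInv {G : Type} [Group G] {τ : G → G} (hτ : IsTr τ) (R : Finset G) (y : G) :
    y ∈ (toInv hτ R).1 ↔ τ y ∈ R := Iff.rfl

open Classical in
/-- Subsets correspond to pairs of an inverse-closed set and a set of unused elements. -/
noncomputable def splitEquiv {G : Type} [Group G] [Fintype G] {τ : G → G} (hτ : IsTr τ) :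
    Finset G ≃ InvClosed G × Finset {y : G // τ y ≠ y} where
  toFun R := (toInv hτ R, univ.filter fun y => (y : G) ∈ R)
  invFun x := univ.filter fun y => (τ y = y ∧ y ∈ x.1.1) ∨ ∃ h : τ y ≠ y, (⟨y, h⟩ : {y : G // τ y ≠ y}) ∈ x.2
  left_inv R := by
    ext y
    rw [mem_filter]
    simp only [mem_univ, true_and, mem_filter, mem_toInv]
    by_cases h : τ y = y
    · constructor
      · rintro (⟨-, h1⟩ | ⟨h1, -⟩)
        · rwa [h] at h1
        · exact absurd h h1
      · intro h1
        exact Or.inl ⟨h, by rwa [h]⟩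
    · constructor
      · rintro (⟨h1, -⟩ | ⟨-, h1⟩)
        · exact absurd h1 h
        · exact h1
      · intro h1
        exact Or.inr ⟨h, h1⟩
  right_inv x := by
    obtain ⟨S, B⟩ := x
    apply Prod.ext
    · apply Subtype.ext
      ext y
      rw [mem_toInv, mem_filter]
      simp only [mem_univ, true_and, hτ.idem, not_true_eq_false, IsEmpty.exists_iff, or_false,
        ne_eq]
      rcases hτ.eq y with h | h
      · rw [h]
      · rw [h]
        constructor
        · intro h1
          simpa using S.2 _ h1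
        · intro h1
          exact S.2 _ h1
    · ext y
      simp only [mem_filter, mem_univ, true_and, Subtype.coe_eta]
      constructor
      · rintro (⟨h1, -⟩ | ⟨-, h1⟩)
        · exact absurd h1 y.2
        · exact h1
      · intro h1
        exact Or.inr ⟨y.2, h1⟩

theorem splitEquiv_fst {G : Type} [Group G] [Fintype G] {τ : G → G} (hτ : IsTr τ)
    (R : Finset G) : (splitEquiv hτ R).1 = toInv hτ R := rfl

theorem card_split {G : Type} [Group G] [Fintype G] {τ : G → G} (hτ : IsTr τ)
    (Q : InvClosed G → Prop) :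
    Nat.card {R : Finset G // Q (toInv hτ R)} =
      Nat.card {S : InvClosed G // Q S} * Nat.card (Finset {y : G // τ y ≠ y}) := by
  rw [← Nat.card_prod]
  refine Nat.card_congr ?_
  refine (Equiv.subtypeEquiv (splitEquiv hτ) (q := fun x => Q x.1) (fun R => ?_)).trans
    Equiv.prodSubtypeFstEquivSubtypeProd
  rw [splitEquiv_fst]

theorem stable_of {G : Type} [Group G] [Fintype G] {τ : G → G} (hτ : IsTr τ) {R : Finset G}
    (hsep : Sep univ τ R) (hdiag : Diag τ R) : (cayley (toInv hτ R)).Stable := by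
  classical
  have f2 : ∀ a b c : Fin 2, a ≠ c → b ≠ c → a = b := by decide
  have f3 : ∀ i : Fin 2, i + 1 ≠ i := by decide
  have f4 : ∀ i j : Fin 2, ¬ i = j → j = i + 1 := by decide
  have hinv : ∀ y : G, τ y⁻¹ ∈ R ↔ τ y ∈ R := fun y => by rw [hτ.inv]
  intro σ
  constructor
  · intro hσ
    have hadj : ∀ (x y : G) (i j : Fin 2),
        (τ ((σ (y, j)).1 * (σ (x, i)).1⁻¹) ∈ R ∧ (σ (x, i)).2 ≠ (σ (y, j)).2) ↔
        (τ (y * x⁻¹) ∈ R ∧ i ≠ j) := fun x y i j => hσ (x, i) (y, j)
    -- the sides
    have hside : ∀ (u u' : G) (i : Fin 2), ∃ x : G,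
        (σ (u, i)).2 ≠ (σ (x, i + 1)).2 ∧ (σ (u', i)).2 ≠ (σ (x, i + 1)).2 := by
      intro u u' i
      obtain ⟨y, hy1, hy2⟩ := hsep.conn (u * u'⁻¹)
      rw [Mm_univ] at hy1 hy2
      refine ⟨y * u, ?_, ?_⟩
      · refine ((hadj u (y * u) i (i + 1)).2 ⟨?_, (f3 i).symm⟩).2
        rw [mul_inv_cancel_right]
        exact hy1
      · refine ((hadj u' (y * u) i (i + 1)).2 ⟨?_, (f3 i).symm⟩).2
        rw [mul_assoc]
        exact hy2
    have hsame : ∀ (u u' : G) (i : Fin 2), (σ (u, i)).2 = (σ (u', i)).2 := by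
      intro u u' i
      obtain ⟨x, h1, h2⟩ := hside u u' i
      exact f2 _ _ _ h1 h2
    have hdiff : ∀ (u v : G) (i : Fin 2), (σ (u, i)).2 ≠ (σ (v, i + 1)).2 := by
      intro u v i
      obtain ⟨x, h1, -⟩ := hside u u i
      rw [hsame v x (i + 1)]
      exact h1
    obtain ⟨π, hπ⟩ : ∃ π : Equiv.Perm (Fin 2), ∀ i, π i = (σ (1, i)).2 := by
      have hinj : Function.Injective fun i : Fin 2 => (σ ((1 : G), i)).2 := by
        intro i j hij
        by_contra hne
        have h1 : j = i + 1 := f4 i j hne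
        rw [h1] at hij
        exact hdiff 1 1 i hij
      exact ⟨Equiv.ofBijective _ (Finite.injective_iff_bijective.1 hinj), fun i => rfl⟩
    obtain ⟨a, ha⟩ : ∃ a : Fin 2 → Equiv.Perm G, ∀ i x, a i x = (σ (x, i)).1 := by
      have hinj : ∀ i : Fin 2, Function.Injective fun x : G => (σ (x, i)).1 := by
        intro i x y hxy
        have h1 : σ (x, i) = σ (y, i) := Prod.ext hxy (hsame x y i)
        exact (Prod.ext_iff.1 (σ.injective h1)).1
      exact ⟨fun i => Equiv.ofBijective _ (Finite.injective_iff_bijective.1 (hinj i)),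
        fun i x => rfl⟩
    have hσa : ∀ x i, σ (x, i) = (a i x, π i) := by
      intro x i
      refine Prod.ext (ha i x).symm ?_
      show (σ (x, i)).2 = π i
      rw [hπ, hsame x 1 i]
    have hkey : ∀ x y : G, τ (y * x⁻¹) ∈ R ↔ τ (a 1 y * (a 0 x)⁻¹) ∈ R := by
      intro x y
      have h1 := hadj x y 0 1
      have h2 : (0 : Fin 2) ≠ 1 := by decide
      have h3 := hdiff x y 0
      rw [zero_add] at h3
      rw [← ha, ← ha] at h1
      constructor
      · intro h
        exact (h1.2 ⟨h, h2⟩).1
      · intro h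
        exact (h1.1 ⟨h, h3⟩).1
    have hd := hdiag (a 1) (((Equiv.inv G).trans (a 0)).trans (Equiv.inv G)) (fun u h => by
      have h1 := hkey h⁻¹ u
      rw [inv_inv] at h1
      exact h1)
    have heq : ∀ u, a 1 u = a 0 u := by
      intro u
      have h1 := hd u
      have h2 : a 1 u * (a 0 (u⁻¹)⁻¹)⁻¹ = 1 := h1
      rw [inv_inv] at h2
      exact mul_inv_eq_one.1 h2
    refine ⟨a 0, fun x y => ?_, π, fun i j => ?_, Equiv.ext fun p => ?_⟩
    · show τ (a 0 y * (a 0 x)⁻¹) ∈ R ↔ τ (y * x⁻¹) ∈ R
      rw [hkey x y, heq]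
    · show π i ≠ π j ↔ i ≠ j
      rw [Ne, π.apply_eq_iff_eq]
    · obtain ⟨x, i⟩ := p
      rw [hσa]
      have hi : a i x = a 0 x := by
        have h01 : i = 0 ∨ i = 1 := by
          revert i
          decide
        rcases h01 with h | h
        · rw [h]
        · rw [h, heq]
      rw [hi]
      rfl
  · rintro ⟨φ, hφ, π, hπ, rfl⟩
    intro p q
    obtain ⟨x, i⟩ := p
    obtain ⟨y, j⟩ := q
    exact and_congr (hφ x y) (hπ i j)

end Pool.Agent.N595.ST
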