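import Pool.Agent.N595.ST.Sym
import Pool.Agent.N595.ST.Sqrt

/-!
# Generic tuples
-/

set_option autoImplicit false
set_option linter.unusedSectionVars false

namespace Pool.Agent.N595.ST

open Finset Pool.Agent.N595.RC

variable {G : Type*} [Group G] [Fintype G] [DecidableEq G]

/-- Accidental coincidences at `h₀`. -/
def Zbad (τ : G → G) (c : Fin 9 → G) (h₀ : G) : Prop :=
  ∃ (h : G) (j₀ j₁ i₀ i₁ : Fin 9), j₁ ≠ j₀ ∧ j₁ ≠ i₀ ∧ j₁ ≠ i₁ ∧
    τ (c j₀ * h) = τ (c i₀ * h₀) ∧ τ (c j₁ * h) = τ (c i₁ * h₀)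

/-- Coincidences at `h₀` which come from square roots. -/
def Mbad (c : Fin 9 → G) (h₀ : G) : Prop :=
  ∃ h, h ≠ h₀ ∧ ∀ j : Fin 9, j < 6 → c j * h = (c j * h₀)⁻¹

theorem card_determined (j₁ : Fin 9) (F : (Fin 9 → G) → G)
    (hF : ∀ c c' : Fin 9 → G, (∀ i, i ≠ j₁ → c i = c' i) → F c = F c') :
    #{c : Fin 9 → G | c j₁ = F c} ≤ Fintype.card G ^ 8 := by
  classical
  have h1 : Fintype.card ({i : Fin 9 // i ≠ j₁} → G) = Fintype.card G ^ 8 := by
    rw [Fintype.card_fun]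
    congr 1
    rw [Fintype.card_subtype_compl]
    simp
  rw [← h1, ← card_univ]
  refine card_le_card_of_injOn (fun c i => c i.1) (fun _ _ => mem_coe.2 (mem_univ _)) ?_
  intro c hc c' hc' hcc'
  have h2 : ∀ i, i ≠ j₁ → c i = c' i := fun i hi => congrFun hcc' ⟨i, hi⟩
  rw [mem_coe, mem_filter] at hc hc'
  funext i
  by_cases hi : i = j₁
  · subst hi
    rw [hc.2, hc'.2]
    exact hF c c' h2
  · exact h2 i hi

/-- `x` or its inverse. -/
def sgn (b : Bool) (x : G) : G := if b then x else x⁻¹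

theorem exists_sgn {τ : G → G} (hτ : IsTr τ) {y z : G} (h : τ y = τ z) :
    ∃ b : Bool, y = sgn b z := by
  rcases hτ.iff.1 h with h | h
  · exact ⟨true, by simp [sgn, h]⟩
  · exact ⟨false, by simp [sgn, h]⟩

/-- The tuples with one given coincidence. -/
def zset (h₀ : G) (j₀ j₁ i₀ i₁ : Fin 9) (b b' : Bool) : Finset (Fin 9 → G) :=
  {c : Fin 9 → G | (j₁ ≠ j₀ ∧ j₁ ≠ i₀ ∧ j₁ ≠ i₁) ∧
    c j₁ = sgn b' (c i₁ * h₀) * ((c j₀)⁻¹ * sgn b (c i₀ * h₀))⁻¹}

theorem card_zset (h₀ : G) (j₀ j₁ i₀ i₁ : Fin 9) (b b' : Bool) :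
    #(zset h₀ j₀ j₁ i₀ i₁ b b') ≤ Fintype.card G ^ 8 := by
  by_cases hne : j₁ ≠ j₀ ∧ j₁ ≠ i₀ ∧ j₁ ≠ i₁
  · refine le_trans (card_le_card ?_) (card_determined j₁
      (fun c => sgn b' (c i₁ * h₀) * ((c j₀)⁻¹ * sgn b (c i₀ * h₀))⁻¹) ?_)
    · intro c hc
      unfold zset at hc
      rw [mem_filter] at hc
      exact mem_filter.2 ⟨mem_univ _, hc.2.2⟩
    · intro c c' hcc'
      show sgn b' (c i₁ * h₀) * ((c j₀)⁻¹ * sgn b (c i₀ * h₀))⁻¹ =
        sgn b' (c' i₁ * h₀) * ((c' j₀)⁻¹ * sgn b (c' i₀ * h₀))⁻¹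
      rw [hcc' _ hne.1.symm, hcc' _ hne.2.1.symm, hcc' _ hne.2.2.symm]
  · have : zset h₀ j₀ j₁ i₀ i₁ b b' = ∅ := by
      unfold zset
      rw [Finset.filter_eq_empty_iff]
      intro c _ h
      exact hne h.1
    rw [this]
    simp

open Classical in
theorem card_Zbad {τ : G → G} (hτ : IsTr τ) (h₀ : G) :
    #{c : Fin 9 → G | Zbad τ c h₀} ≤ 26244 * Fintype.card G ^ 8 := by
  have h1 : #{c : Fin 9 → G | Zbad τ c h₀} ≤
      ∑ j₀ : Fin 9, ∑ j₁ : Fin 9, ∑ i₀ : Fin 9, ∑ i₁ : Fin 9, ∑ b : Bool, ∑ b' : Bool,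
        #(zset h₀ j₀ j₁ i₀ i₁ b b') := by
    simp only [zset, Finset.card_filter]
    simp only [Finset.sum_comm (s := (univ : Finset Bool)) (t := (univ : Finset (Fin 9 → G))),
      Finset.sum_comm (s := (univ : Finset (Fin 9))) (t := (univ : Finset (Fin 9 → G)))]
    refine Finset.sum_le_sum fun c _ => ?_
    split_ifs with hc
    · obtain ⟨h, j₀, j₁, i₀, i₁, n1, n2, n3, e1, e2⟩ := hc
      obtain ⟨b, hb⟩ := exists_sgn hτ e1
      obtain ⟨b', hb'⟩ := exists_sgn hτ e2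
      have hcond : (j₁ ≠ j₀ ∧ j₁ ≠ i₀ ∧ j₁ ≠ i₁) ∧
          c j₁ = sgn b' (c i₁ * h₀) * ((c j₀)⁻¹ * sgn b (c i₀ * h₀))⁻¹ := by
        refine ⟨⟨n1, n2, n3⟩, ?_⟩
        rw [← hb, ← hb']
        group
      refine le_trans ?_ (Finset.single_le_sum (f := fun j₀ => _) (fun _ _ => Nat.zero_le _)
        (mem_univ j₀))
      refine le_trans ?_ (Finset.single_le_sum (f := fun j₁ => _) (fun _ _ => Nat.zero_le _)
        (mem_univ j₁))
      refine le_trans ?_ (Finset.single_le_sum (f := fun i₀ => _) (fun _ _ => Nat.zero_le _)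
        (mem_univ i₀))
      refine le_trans ?_ (Finset.single_le_sum (f := fun i₁ => _) (fun _ _ => Nat.zero_le _)
        (mem_univ i₁))
      refine le_trans ?_ (Finset.single_le_sum (f := fun b => _) (fun _ _ => Nat.zero_le _)
        (mem_univ b))
      refine le_trans ?_ (Finset.single_le_sum (f := fun b' => _) (fun _ _ => Nat.zero_le _)
        (mem_univ b'))
      rw [if_pos hcond]
    · exact Nat.zero_le _
  refine h1.trans ?_
  refine (Finset.sum_le_sum fun j₀ _ => Finset.sum_le_sum fun j₁ _ => Finset.sum_le_sum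
    fun i₀ _ => Finset.sum_le_sum fun i₁ _ => Finset.sum_le_sum fun b _ =>
    Finset.sum_le_sum fun b' _ => card_zset h₀ j₀ j₁ i₀ i₁ b b').trans (le_of_eq ?_)
  simp only [Finset.sum_const, card_univ, Fintype.card_fin, Fintype.card_bool, smul_eq_mul]
  ring

theorem card_inverting {h h₀ : G} (hne : h ≠ h₀) :
    4 * #{x : G | x * h = (x * h₀)⁻¹} ≤ 3 * Fintype.card G := by
  have hz : h₀⁻¹ * h ≠ 1 := fun h1 => hne (inv_mul_eq_one.1 h1).symm
  refine le_trans (Nat.mul_le_mul_left 4 ?_) (card_sqrt_le hz)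
  refine card_le_card_of_injOn (· * h) ?_ (fun x _ y _ hxy => mul_right_cancel hxy)
  intro x hx
  rw [mem_coe, mem_filter] at hx
  simp only [coe_filter, mem_univ, true_and, Set.mem_ofPred_eq]
  calc x * h * (x * h) = (x * h₀)⁻¹ * (x * h) := by rw [hx.2]
    _ = h₀⁻¹ * h := by group

theorem sum_inverting (h₀ : G) : ∑ h : G, #{x : G | x * h = (x * h₀)⁻¹} = Fintype.card G := by
  rw [← card_univ, Finset.card_eq_sum_ones]
  simp only [Finset.card_filter]
  rw [Finset.sum_comm]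
  refine Finset.sum_congr rfl fun x _ => ?_
  rw [← Finset.card_filter]
  rw [card_eq_one]
  refine ⟨x⁻¹ * (x * h₀)⁻¹, ?_⟩
  ext h
  simp only [mem_filter, mem_univ, true_and, mem_singleton]
  exact eq_inv_mul_iff_mul_eq.symm

open Classical in
theorem card_Mbad (h₀ : G) :
    4 ^ 5 * #{c : Fin 9 → G | Mbad c h₀} ≤ 3 ^ 5 * Fintype.card G ^ 9 := by
  set A : G → Finset G := fun h => {x : G | x * h = (x * h₀)⁻¹} with hA
  have hsub : (univ.filter fun c : Fin 9 → G => Mbad c h₀) ⊆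
      ((univ : Finset G).erase h₀).biUnion fun h =>
        Fintype.piFinset fun j : Fin 9 => if j < 6 then A h else univ := by
    intro c hc
    simp only [mem_filter, mem_univ, true_and] at hc
    obtain ⟨h, hne, hc⟩ := hc
    rw [mem_biUnion]
    refine ⟨h, mem_erase.2 ⟨hne, mem_univ h⟩, ?_⟩
    rw [Fintype.mem_piFinset]
    intro j
    by_cases hj : j < 6
    · rw [if_pos hj]
      simp only [hA, mem_filter, mem_univ, true_and]
      exact hc j hj
    · rw [if_neg hj]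
      exact mem_univ _
  have hcard : ∀ h : G, #(Fintype.piFinset fun j : Fin 9 => if j < 6 then A h else univ) =
      #(A h) ^ 6 * Fintype.card G ^ 3 := by
    intro h
    rw [Fintype.card_piFinset]
    simp only [Fin.prod_univ_succ, Fin.prod_univ_zero]
    simp only [show ((0 : Fin 9) < 6) from by decide,
      show ((Fin.succ (0 : Fin 8)) < 6) from by decide,
      show ((Fin.succ (Fin.succ (0 : Fin 7)) : Fin 9) < 6) from by decide,
      show ((Fin.succ (Fin.succ (Fin.succ (0 : Fin 6))) : Fin 9) < 6) from by decide,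
      show ((Fin.succ (Fin.succ (Fin.succ (Fin.succ (0 : Fin 5)))) : Fin 9) < 6) from by decide,
      show ((Fin.succ (Fin.succ (Fin.succ (Fin.succ (Fin.succ (0 : Fin 4))))) : Fin 9) < 6)
        from by decide,
      show ¬ ((Fin.succ (Fin.succ (Fin.succ (Fin.succ (Fin.succ (Fin.succ (0 : Fin 3)))))) :
        Fin 9) < 6) from by decide,
      show ¬ ((Fin.succ (Fin.succ (Fin.succ (Fin.succ (Fin.succ (Fin.succ
        (Fin.succ (0 : Fin 2))))))) : Fin 9) < 6) from by decide,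
      show ¬ ((Fin.succ (Fin.succ (Fin.succ (Fin.succ (Fin.succ (Fin.succ
        (Fin.succ (Fin.succ (0 : Fin 1)))))))) : Fin 9) < 6) from by decide,
      if_true, if_false, card_univ]
    ring
  calc 4 ^ 5 * #{c : Fin 9 → G | Mbad c h₀}
      ≤ 4 ^ 5 * ∑ h ∈ (univ : Finset G).erase h₀, #(A h) ^ 6 * Fintype.card G ^ 3 := by
        refine Nat.mul_le_mul_left _ ((card_le_card hsub).trans (card_biUnion_le.trans ?_))
        exact (Finset.sum_congr rfl fun h _ => hcard h).le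
    _ = ∑ h ∈ (univ : Finset G).erase h₀, (4 * #(A h)) ^ 5 * #(A h) * Fintype.card G ^ 3 := by
        rw [Finset.mul_sum]
        refine Finset.sum_congr rfl fun h _ => ?_
        ring
    _ ≤ ∑ h ∈ (univ : Finset G).erase h₀,
        (3 * Fintype.card G) ^ 5 * #(A h) * Fintype.card G ^ 3 := by
        refine Finset.sum_le_sum fun h hh => ?_
        refine Nat.mul_le_mul_right _ (Nat.mul_le_mul_right _ (Nat.pow_le_pow_left ?_ 5))
        exact card_inverting (ne_of_mem_erase hh)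
    _ ≤ ∑ h : G, (3 * Fintype.card G) ^ 5 * #(A h) * Fintype.card G ^ 3 :=
        Finset.sum_le_sum_of_subset (erase_subset _ _)
    _ = (3 * Fintype.card G) ^ 5 * Fintype.card G ^ 3 * ∑ h : G, #(A h) := by
        rw [Finset.mul_sum]
        refine Finset.sum_congr rfl fun h _ => ?_
        ring
    _ = 3 ^ 5 * Fintype.card G ^ 9 := by
        rw [sum_inverting]
        ring

open Classical in
/-- **Generic tuples exist.** -/
theorem exists_generic {τ : G → G} (hτ : IsTr τ) : ∃ c : Fin 9 → G,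
    25 * #{h₀ : G | Mbad c h₀} ≤ 6 * Fintype.card G ∧ #{h₀ : G | Zbad τ c h₀} ≤ 26244000 := by
  by_contra hcon
  push Not at hcon
  have hN : 0 < Fintype.card G := Fintype.card_pos
  -- weights
  have h1 : ∀ c : Fin 9 → G, 6 * Fintype.card G * 26244000 ≤
      26244000 * (25 * #{h₀ : G | Mbad c h₀}) +
        6 * Fintype.card G * #{h₀ : G | Zbad τ c h₀} := by
    intro c
    by_cases h : 25 * #{h₀ : G | Mbad c h₀} ≤ 6 * Fintype.card G
    · have h2 := hcon c h
      have h3 : 6 * Fintype.card G * 26244000 ≤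
        6 * Fintype.card G * #{h₀ : G | Zbad τ c h₀} := Nat.mul_le_mul_left _ h2.le
      omega
    · push Not at h
      have h3 : 26244000 * (6 * Fintype.card G) ≤ 26244000 * (25 * #{h₀ : G | Mbad c h₀}) :=
        Nat.mul_le_mul_left _ h.le
      omega
  have h2 := Finset.sum_le_sum fun c (_ : c ∈ (univ : Finset (Fin 9 → G))) => h1 c
  rw [Finset.sum_const, card_univ, Fintype.card_fun, Fintype.card_fin, smul_eq_mul,
    Finset.sum_add_distrib, ← Finset.mul_sum, ← Finset.mul_sum, ← Finset.mul_sum] at h2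
  have h3 : ∑ c : Fin 9 → G, #{h₀ : G | Mbad c h₀} = ∑ h₀ : G, #{c : Fin 9 → G | Mbad c h₀} := by
    simp only [Finset.card_filter]
    rw [Finset.sum_comm]
  have h4 : ∑ c : Fin 9 → G, #{h₀ : G | Zbad τ c h₀} =
      ∑ h₀ : G, #{c : Fin 9 → G | Zbad τ c h₀} := by
    simp only [Finset.card_filter]
    rw [Finset.sum_comm]
  have h5 : 4 ^ 5 * ∑ h₀ : G, #{c : Fin 9 → G | Mbad c h₀} ≤
      Fintype.card G * (3 ^ 5 * Fintype.card G ^ 9) := by
    rw [Finset.mul_sum]
    refine (Finset.sum_le_sum fun h₀ _ => card_Mbad h₀).trans ?_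
    rw [Finset.sum_const, card_univ, smul_eq_mul]
  have h6 : ∑ h₀ : G, #{c : Fin 9 → G | Zbad τ c h₀} ≤
      Fintype.card G * (26244 * Fintype.card G ^ 8) := by
    refine (Finset.sum_le_sum fun h₀ _ => card_Zbad hτ h₀).trans ?_
    rw [Finset.sum_const, card_univ, smul_eq_mul]
  rw [h3, h4] at h2
  set N := Fintype.card G with hNdef
  set SM := ∑ h₀ : G, #{c : Fin 9 → G | Mbad c h₀} with hSM
  set SZ := ∑ h₀ : G, #{c : Fin 9 → G | Zbad τ c h₀} with hSZ
  have hN10 : 0 < N ^ 10 := by positivity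
  have e1 : N * (3 ^ 5 * N ^ 9) = 243 * N ^ 10 := by ring
  have e2 : N * (26244 * N ^ 8) = 26244 * N ^ 9 := by ring
  have e3 : N ^ 9 * (6 * N * 26244000) = 157464000 * N ^ 10 := by ring
  rw [e1] at h5
  rw [e2] at h6
  rw [e3] at h2
  have h7 : 6 * N * SZ ≤ 157464 * N ^ 10 := by
    calc 6 * N * SZ ≤ 6 * N * (26244 * N ^ 9) := Nat.mul_le_mul_left _ h6
      _ = 157464 * N ^ 10 := by ring
  generalize N ^ 10 = M at *
  omega

end Pool.Agent.N595.ST
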